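import Mathlib
import Pool.Agent.H293Z.MO.Sub

/-!
The sawtooth sum `S_PSI`, by Vinogradov's method of Dirichlet blocks.
-/

set_option autoImplicit false

open Finset

namespace Pool.Agent.H31Z.Psi

lemma sum_emod (q : ℕ) (hq : 0 < q) (a m : ℤ) (hc : IsCoprime a (q : ℤ)) :
    ∑ j ∈ range q, (((m + j * a) % (q : ℤ) : ℤ) : ℝ) = ∑ r ∈ range q, (r : ℝ) := by
  have hq' : (q : ℤ) ≠ 0 := by exact_mod_cast hq.ne'
  have hq0 : (0 : ℤ) < q := by exact_mod_cast hq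
  set g : ℕ → ℕ := fun j => ((m + j * a) % (q : ℤ)).toNat with hg
  have hgc : ∀ j, ((g j : ℕ) : ℤ) = (m + j * a) % (q : ℤ) := fun j =>
    Int.toNat_of_nonneg (Int.emod_nonneg _ hq')
  have hinj : Set.InjOn g (range q : Set ℕ) := by
    intro i hi j hj hij
    have h1 : (m + i * a) % (q : ℤ) = (m + j * a) % (q : ℤ) := by rw [← hgc, ← hgc, hij]
    have h2 : (q : ℤ) ∣ ((j : ℤ) - i) * a := by
      have h3 := Int.ModEq.dvd (h1 : (m + i * a) ≡ (m + j * a) [ZMOD q])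
      have e : m + j * a - (m + i * a) = ((j : ℤ) - i) * a := by ring
      rwa [e] at h3
    have h3 : (q : ℤ) ∣ ((j : ℤ) - i) := hc.symm.dvd_of_dvd_mul_right h2
    have hi' : i < q := by simpa using hi
    have hj' : j < q := by simpa using hj
    have h4 : ((j : ℤ) - i) = 0 := Int.eq_zero_of_abs_lt_dvd h3 (by rw [abs_lt]; constructor <;> omega)
    omega
  have himg : (range q).image g = range q := by
    apply Finset.eq_of_subset_of_card_le
    · intro r hr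
      obtain ⟨j, -, rfl⟩ := mem_image.1 hr
      have h1 := Int.emod_lt_of_pos (m + j * a) hq0
      rw [← hgc] at h1
      exact mem_range.2 (by exact_mod_cast h1)
    · rw [card_image_of_injOn hinj]
  conv_rhs => rw [← himg, sum_image hinj]
  refine sum_congr rfl fun j _ => ?_
  rw [← hgc]; simp

lemma sum_range_real (q : ℕ) : ∑ r ∈ range q, (r : ℝ) = q * (q - 1) / 2 := by
  induction q with
  | zero => simp
  | succ n ih => rw [sum_range_succ, ih]; push_cast; ring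

lemma hermite (q : ℕ) (hq : 0 < q) (a : ℤ) (hc : IsCoprime a (q : ℤ)) (y : ℝ) :
    |∑ j ∈ range q, (Int.fract (y + j * (a / q)) - 1 / 2)| ≤ 1 / 2 := by
  have hq0 : (0 : ℝ) < q := by exact_mod_cast hq
  have hqz : (0 : ℤ) < q := by exact_mod_cast hq
  set m : ℤ := ⌊q * y⌋ with hm
  set e : ℝ := Int.fract (q * y) with he
  have he0 : 0 ≤ e := Int.fract_nonneg _
  have he1 : e < 1 := Int.fract_lt_one _
  have hy : y = (m + e) / q := by
    rw [eq_div_iff hq0.ne', hm, he, Int.floor_add_fract]; ring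
  have key : ∀ j : ℕ, Int.fract (y + j * (a / q)) =
      ((((m + j * a) % (q : ℤ) : ℤ) : ℝ) + e) / q := by
    intro j
    rw [Int.fract_eq_iff]
    have h0 : (0 : ℝ) ≤ (((m + j * a) % (q : ℤ) : ℤ) : ℝ) := by
      exact_mod_cast Int.emod_nonneg _ hqz.ne'
    have h1 : (((m + j * a) % (q : ℤ) : ℤ) : ℝ) + 1 ≤ q := by
      have := Int.emod_lt_of_pos (m + j * a) hqz
      exact_mod_cast this
    refine ⟨by positivity, by rw [div_lt_one hq0]; linarith, (m + j * a) / q, ?_⟩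
    have h2 : (((m + j * a) % (q : ℤ) : ℤ) : ℝ) = m + j * a - q * (((m + j * a) / q : ℤ) : ℝ) := by
      have := Int.emod_def (m + j * a) q
      exact_mod_cast this
    rw [h2, hy]; field_simp; ring
  simp only [key]
  rw [sum_sub_distrib, ← sum_div, sum_add_distrib, sum_emod q hq a m hc, sum_range_real]
  simp only [sum_const, card_range, nsmul_eq_mul]
  have : ((q : ℝ) * (q - 1) / 2 + q * e) / q - q * (1 / 2) = e - 1 / 2 := by field_simp; ring
  rw [this, abs_le]; constructor <;> linarith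

lemma block (q : ℕ) (hq : 0 < q) (a : ℤ) (hc : IsCoprime a (q : ℤ)) (y : ℝ) (x : ℕ → ℝ)
    (hx : ∀ j < q, |x j - (y + j * (a / q))| ≤ 2 / q) :
    |∑ j ∈ range q, (Int.fract (x j) - 1 / 2)| ≤ 5 := by
  have hq0 : (0 : ℝ) < q := by exact_mod_cast hq
  have h1 := abs_le.1 (hermite q hq a hc (y + 2 / q))
  have h2 := abs_le.1 (hermite q hq a hc (y - 2 / q))
  have l1 : ∑ j ∈ range q, (Int.fract (y + 2 / q + j * (a / q)) - 1 / 2 - 4 / q) ≤
      ∑ j ∈ range q, (Int.fract (x j) - 1 / 2) := by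
    refine sum_le_sum fun j hj => ?_
    have h := abs_le.1 (hx j (mem_range.1 hj))
    have hf : (⌊x j⌋ : ℝ) ≤ ⌊y + 2 / q + j * (a / q)⌋ := by
      exact Int.cast_le.2 (Int.floor_le_floor (by linarith [h.2]))
    have e4 : (4 : ℝ) / q = 2 / q + 2 / q := by ring
    unfold Int.fract; linarith [h.1]
  have l2 : ∑ j ∈ range q, (Int.fract (x j) - 1 / 2) ≤
      ∑ j ∈ range q, (Int.fract (y - 2 / q + j * (a / q)) - 1 / 2 + 4 / q) := by
    refine sum_le_sum fun j hj => ?_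
    have h := abs_le.1 (hx j (mem_range.1 hj))
    have hf : (⌊y - 2 / q + j * (a / q)⌋ : ℝ) ≤ ⌊x j⌋ := by
      exact Int.cast_le.2 (Int.floor_le_floor (by linarith [h.1]))
    have e4 : (4 : ℝ) / q = 2 / q + 2 / q := by ring
    unfold Int.fract; linarith [h.2]
  rw [sum_sub_distrib] at l1
  rw [sum_add_distrib] at l2
  simp only [sum_const, card_range, nsmul_eq_mul] at l1 l2
  have e : (q : ℝ) * (4 / q) = 4 := by field_simp
  rw [e] at l1 l2
  rw [abs_le]; constructor <;> linarith [h1.1, h2.2]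

lemma blocks (f w : ℕ → ℝ) (Q : ℝ) (A B : ℕ) (hf : ∀ d, |f d| ≤ 1) (hw : ∀ d, 0 ≤ w d)
    (h : ∀ d, A ≤ d → d < B → ∃ q : ℕ, 0 < q ∧ (q : ℝ) ≤ Q ∧
      (d + q ≤ B → |∑ j ∈ range q, f (d + j)| ≤ ∑ j ∈ range q, w (d + j))) (hQ : 0 ≤ Q) :
    ∀ L d, A ≤ d → d + L = B → |∑ j ∈ range L, f (d + j)| ≤ ∑ j ∈ range L, w (d + j) + Q := by
  intro L
  induction L using Nat.strong_induction_on with
  | _ L ih =>
    intro d hd hL
    have hw0 : 0 ≤ ∑ j ∈ range L, w (d + j) := sum_nonneg fun j _ => hw _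
    rcases Nat.eq_zero_or_pos L with rfl | hL0
    · simpa using hQ
    obtain ⟨q, hq, hqQ, hb⟩ := h d hd (by omega)
    by_cases hqL : q ≤ L
    · obtain ⟨L', rfl⟩ := Nat.exists_eq_add_of_le hqL
      rw [sum_range_add, sum_range_add]
      have h1 := hb (by omega)
      have h2 := ih L' (by omega) (d + q) (by omega) (by omega)
      simp only [add_assoc] at h2
      have := abs_add_le (∑ j ∈ range q, f (d + j)) (∑ j ∈ range L', f (d + (q + j)))
      linarith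
    · have h1 : |∑ j ∈ range L, f (d + j)| ≤ L := by
        refine (abs_sum_le_sum_abs _ _).trans ?_
        refine (sum_le_sum fun j _ => hf (d + j)).trans (by simp)
      have h2 : (L : ℝ) ≤ q := by exact_mod_cast (by omega : L ≤ q)
      linarith

lemma card_le_of_close (S : Finset ℕ) (δ : ℝ) (hδ : 0 ≤ δ)
    (h : ∀ a ∈ S, ∀ b ∈ S, a ≤ b → (b : ℝ) - a ≤ δ) : (S.card : ℝ) ≤ δ + 1 := by
  rcases S.eq_empty_or_nonempty with rfl | hS
  · simp; linarith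
  have hsub : S ⊆ Icc (S.min' hS) (S.min' hS + ⌊δ⌋₊) := by
    intro b hb
    have h1 := S.min'_le b hb
    have h2 := h _ (S.min'_mem hS) b hb h1
    rw [mem_Icc]
    refine ⟨h1, ?_⟩
    have : b - S.min' hS ≤ ⌊δ⌋₊ := Nat.le_floor (by rw [Nat.cast_sub h1]; exact h2)
    omega
  have h3 := card_le_card hsub
  rw [Nat.card_Icc] at h3
  have h4 : S.card ≤ ⌊δ⌋₊ + 1 := by omega
  have h5 : (S.card : ℝ) ≤ ⌊δ⌋₊ + 1 := by exact_mod_cast h4
  linarith [Nat.floor_le hδ]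

lemma harm (n : ℕ) (t : ℝ) (ht : 1 ≤ t) (hn : (n : ℝ) ≤ 2 * t ^ 12) :
    ∑ a ∈ Icc 1 n, (1 / (a : ℝ)) ≤ 26 * Real.sqrt t := by
  have h1 := harmonic_le_one_add_log n
  rw [harmonic_eq_sum_Icc] at h1
  push_cast at h1
  have hs : 1 ≤ Real.sqrt t := Real.one_le_sqrt.2 ht
  have h2 : Real.log n ≤ 1 + 24 * Real.sqrt t := by
    rcases Nat.eq_zero_or_pos n with rfl | h0
    · simp; positivity
    have h0' : (0 : ℝ) < n := by exact_mod_cast h0
    have h3 : Real.log n ≤ Real.log (2 * t ^ 12) := Real.log_le_log h0' hn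
    rw [Real.log_mul (by norm_num) (by positivity), Real.log_pow] at h3
    have h4 : Real.log 2 ≤ 1 := by linarith [Real.log_le_sub_one_of_pos (by norm_num : (0 : ℝ) < 2)]
    have h5 : Real.log t = 2 * Real.log (Real.sqrt t) := by
      rw [Real.log_sqrt (by linarith)]; ring
    have h6 : Real.log (Real.sqrt t) ≤ Real.sqrt t :=
      (Real.log_le_sub_one_of_pos (by linarith)).trans (by linarith)
    push_cast at h3
    linarith
  simp only [one_div]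
  linarith

open Classical in
lemma count (t : ℝ) (ht : 4 ≤ t) (A B q : ℕ) (hA : t ^ 27 ≤ A) (hB : (B : ℝ) ≤ t ^ 33 + 1)
    (hq : 1 ≤ q) (hq6 : (q : ℝ) ≤ t ^ 6) :
    (((Ico A B).filter (fun d : ℕ => ∃ a : ℤ, |q * t ^ 60 / (d : ℝ) ^ 2 - a| ≤ 3 / t ^ 7)).card : ℝ)
      ≤ 400 * t ^ 26 * Real.sqrt t := by
  have ht0 : 0 < t := by linarith
  have ht1 : 1 ≤ t := by linarith
  have hq' : (1 : ℝ) ≤ q := by exact_mod_cast hq
  set X : ℝ := q * t ^ 60 with hX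
  set η : ℝ := 3 / t ^ 7 with hη
  have hη0 : 0 < η := by positivity
  have hη1 : η < 1 / t ^ 6 := by
    rw [hη, div_lt_div_iff₀ (by positivity) (by positivity)]
    have : t ^ 7 = t * t ^ 6 := by ring
    have h6 : 0 < t ^ 6 := by positivity
    nlinarith
  have hη2 : η ≤ 1 / 2 := by
    have : 1 / t ^ 6 ≤ 1 / 2 := by
      apply one_div_le_one_div_of_le (by norm_num)
      calc (2 : ℝ) ≤ t := by linarith
        _ = t ^ 1 := by ring
        _ ≤ t ^ 6 := pow_le_pow_right₀ ht1 (by norm_num)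
    linarith
  set n : ℕ := ⌊t ^ 12⌋₊ + 1 with hn
  have hn2 : (n : ℝ) ≤ 2 * t ^ 12 := by
    have h1 : (⌊t ^ 12⌋₊ : ℝ) ≤ t ^ 12 := Nat.floor_le (by positivity)
    have h2 : 1 ≤ t ^ 12 := one_le_pow₀ ht1
    rw [hn]; push_cast; linarith
  have hrange : ∀ d ∈ Ico A B, t ^ 27 ≤ (d : ℝ) ∧ (d : ℝ) ≤ t ^ 33 := by
    intro d hd
    rw [mem_Ico] at hd
    have h1 : (A : ℝ) ≤ d := by exact_mod_cast hd.1
    have h2 : (d : ℝ) + 1 ≤ B := by exact_mod_cast hd.2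
    constructor <;> linarith
  set S : ℕ → Finset ℕ := fun a => (Ico A B).filter (fun d : ℕ => |X / (d : ℝ) ^ 2 - a| ≤ η) with hS
  have hsub : (Ico A B).filter (fun d : ℕ => ∃ a : ℤ, |X / (d : ℝ) ^ 2 - a| ≤ η) ⊆
      (Icc 1 n).biUnion S := by
    intro d hd
    rw [mem_filter] at hd
    obtain ⟨hd, a, ha⟩ := hd
    obtain ⟨h1, h2⟩ := hrange d hd
    have hd0 : (0 : ℝ) < d := lt_of_lt_of_le (by positivity) h1
    have ha' := abs_le.1 ha
    have l1 : 1 / t ^ 6 ≤ X / (d : ℝ) ^ 2 := by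
      rw [div_le_div_iff₀ (by positivity) (by positivity)]
      have : (d : ℝ) ^ 2 ≤ (t ^ 33) ^ 2 := pow_le_pow_left₀ hd0.le h2 2
      have e : (t ^ 33) ^ 2 = t ^ 60 * t ^ 6 := by ring
      have p : 0 < t ^ 60 * t ^ 6 := by positivity
      rw [hX]; nlinarith
    have l2 : X / (d : ℝ) ^ 2 ≤ t ^ 12 := by
      rw [div_le_iff₀ (by positivity)]
      have : (t ^ 27) ^ 2 ≤ (d : ℝ) ^ 2 := pow_le_pow_left₀ (by positivity) h1 2
      calc X ≤ t ^ 6 * t ^ 60 := by rw [hX]; gcongr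
        _ = t ^ 12 * (t ^ 27) ^ 2 := by ring
        _ ≤ _ := by gcongr
    have a0 : 0 < a := by
      have : (0 : ℝ) < a := by linarith [ha'.2]
      exact_mod_cast this
    have a1 : a ≤ n := by
      have h3 : t ^ 12 < (n : ℝ) := by rw [hn]; push_cast; exact Nat.lt_floor_add_one _
      have : (a : ℝ) < n + 1 := by linarith [ha'.1]
      have : a < (n : ℤ) + 1 := by exact_mod_cast this
      omega
    obtain ⟨a', rfl⟩ := Int.eq_ofNat_of_zero_le a0.le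
    rw [mem_biUnion]
    refine ⟨a', mem_Icc.2 ⟨by omega, by omega⟩, ?_⟩
    rw [hS]; simp only [mem_filter]
    exact ⟨hd, by simpa using ha⟩
  have hcard : ∀ a ∈ Icc 1 n, ((S a).card : ℝ) ≤ 12 * t ^ 26 * (1 / (a : ℝ)) + 1 := by
    intro a ha
    have ha1 : (1 : ℝ) ≤ a := by exact_mod_cast (mem_Icc.1 ha).1
    apply card_le_of_close _ _ (by positivity)
    intro d1 hd1 d2 hd2 h12
    rw [hS] at hd1 hd2
    simp only [mem_filter] at hd1 hd2
    obtain ⟨h1, -⟩ := hrange d1 hd1.1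
    obtain ⟨-, h2⟩ := hrange d2 hd2.1
    have hd0 : (0 : ℝ) < d1 := lt_of_lt_of_le (by positivity) h1
    have h12' : (d1 : ℝ) ≤ d2 := by exact_mod_cast h12
    have hd0' : (0 : ℝ) < d2 := by linarith
    have e1 := abs_le.1 hd1.2
    have e2 := abs_le.1 hd2.2
    set u : ℝ := X / (d1 : ℝ) ^ 2 with hu
    have hu2 : (a : ℝ) / 2 ≤ u := by linarith [e1.1]
    have hdiff : u - X / (d2 : ℝ) ^ 2 ≤ 2 * η := by linarith [e1.2, e2.1]
    have hid : u - X / (d2 : ℝ) ^ 2 = u * ((d2 - d1) / d2) * ((d2 + d1) / d2) := by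
      rw [hu]; field_simp; ring
    have hr : 1 ≤ ((d2 : ℝ) + d1) / d2 := by rw [le_div_iff₀ hd0']; linarith
    have hnn : 0 ≤ ((d2 : ℝ) - d1) / d2 := div_nonneg (by linarith) hd0'.le
    have hu0 : 0 ≤ u := by linarith
    have h3 : (a : ℝ) / 2 * ((d2 - d1) / d2) ≤ 2 * η := by
      calc (a : ℝ) / 2 * ((d2 - d1) / d2) ≤ u * ((d2 - d1) / d2) := by gcongr
        _ ≤ u * ((d2 - d1) / d2) * ((d2 + d1) / d2) := le_mul_of_one_le_right (by positivity) hr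
        _ ≤ 2 * η := by rw [← hid]; exact hdiff
    have h4 : (a : ℝ) * (d2 - d1) ≤ 4 * η * d2 := by
      have := mul_le_mul_of_nonneg_right h3 hd0'.le
      have e : (a : ℝ) / 2 * ((d2 - d1) / d2) * d2 = a * (d2 - d1) / 2 := by field_simp
      rw [e] at this; linarith
    have h5 : 4 * η * d2 ≤ 12 * t ^ 26 := by
      calc 4 * η * d2 ≤ 4 * η * t ^ 33 := by gcongr
        _ = 12 * t ^ 26 := by rw [hη]; field_simp; ring
    rw [mul_one_div, le_div_iff₀ (by linarith)]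
    linarith
  have h1 : (((Icc 1 n).biUnion S).card : ℝ) ≤ ∑ a ∈ Icc 1 n, ((S a).card : ℝ) := by
    exact_mod_cast card_biUnion_le
  have h2 := sum_le_sum hcard
  rw [sum_add_distrib, ← mul_sum] at h2
  simp only [sum_const, Nat.card_Icc, nsmul_eq_mul, mul_one, Nat.add_sub_cancel] at h2
  have h3 := harm n t ht1 hn2
  have h4 : (((Ico A B).filter (fun d : ℕ => ∃ a : ℤ, |X / (d : ℝ) ^ 2 - a| ≤ η)).card : ℝ) ≤
      ((Icc 1 n).biUnion S).card := by exact_mod_cast card_le_card hsub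
  have hs : 1 ≤ Real.sqrt t := Real.one_le_sqrt.2 ht1
  have h5 : t ^ 12 ≤ t ^ 26 * Real.sqrt t :=
    (pow_le_pow_right₀ ht1 (by norm_num)).trans (le_mul_of_one_le_right (by positivity) hs)
  have h6 : 12 * t ^ 26 * ∑ a ∈ Icc 1 n, (1 / (a : ℝ)) ≤ 12 * t ^ 26 * (26 * Real.sqrt t) := by gcongr
  have h7 : 0 ≤ t ^ 26 * Real.sqrt t := by positivity
  nlinarith

open Classical in
/-- The weight that pays for the blocks. -/
noncomputable def wt (t : ℝ) (d : ℕ) : ℝ :=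
  5 / t ^ 6 + ∑ q ∈ Icc 1 ⌊t ^ 6⌋₊,
    if ∃ a : ℤ, |q * t ^ 60 / (d : ℝ) ^ 2 - a| ≤ 3 / t ^ 7 then 5 * (1 / (q : ℝ)) else 0

lemma wt_nonneg (t : ℝ) (d : ℕ) : 0 ≤ wt t d := by
  unfold wt
  refine add_nonneg (by positivity) (sum_nonneg fun q _ => ?_)
  split_ifs <;> positivity

lemma wt_sum (t : ℝ) (ht : 4 ≤ t) (A B : ℕ) (hA : t ^ 27 ≤ A) (hB : (B : ℝ) ≤ t ^ 33 + 1) :
    ∑ d ∈ Ico A B, wt t d ≤ 60000 * t ^ 27 := by
  classical
  have ht0 : 0 < t := by linarith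
  have ht1 : 1 ≤ t := by linarith
  unfold wt
  rw [sum_add_distrib, sum_comm]
  have h1 : ∑ d ∈ Ico A B, 5 / t ^ 6 ≤ 10 * t ^ 27 := by
    simp only [sum_const, Nat.card_Ico, nsmul_eq_mul]
    have h2 : ((B - A : ℕ) : ℝ) ≤ B := by exact_mod_cast Nat.sub_le B A
    have h3 : 1 ≤ t ^ 33 := one_le_pow₀ ht1
    calc ((B - A : ℕ) : ℝ) * (5 / t ^ 6) ≤ (2 * t ^ 33) * (5 / t ^ 6) := by gcongr; linarith
      _ = 10 * t ^ 27 := by field_simp; ring
  have h2 : ∀ q ∈ Icc 1 ⌊t ^ 6⌋₊, ∑ d ∈ Ico A B,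
      (if ∃ a : ℤ, |q * t ^ 60 / (d : ℝ) ^ 2 - a| ≤ 3 / t ^ 7 then 5 * (1 / (q : ℝ)) else 0) ≤
      2000 * t ^ 26 * Real.sqrt t * (1 / (q : ℝ)) := by
    intro q hq
    rw [mem_Icc] at hq
    have hq6 : (q : ℝ) ≤ t ^ 6 := (Nat.le_floor_iff (by positivity)).1 hq.2
    rw [← sum_filter, sum_const, nsmul_eq_mul]
    have := count t ht A B q hA hB hq.1 hq6
    calc _ ≤ (400 * t ^ 26 * Real.sqrt t) * (5 * (1 / (q : ℝ))) := by gcongr
      _ = _ := by ring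
  have h3 := sum_le_sum h2
  rw [← mul_sum] at h3
  have h4 := harm ⌊t ^ 6⌋₊ t ht1 (by
    have h5 : (⌊t ^ 6⌋₊ : ℝ) ≤ t ^ 6 := Nat.floor_le (by positivity)
    have h6 : t ^ 6 ≤ t ^ 12 := pow_le_pow_right₀ ht1 (by norm_num)
    have h7 : 0 < t ^ 12 := by positivity
    linarith)
  have h5 : 2000 * t ^ 26 * Real.sqrt t * ∑ q ∈ Icc 1 ⌊t ^ 6⌋₊, (1 / (q : ℝ)) ≤
      2000 * t ^ 26 * Real.sqrt t * (26 * Real.sqrt t) := by gcongr
  have h6 : 2000 * t ^ 26 * Real.sqrt t * (26 * Real.sqrt t) = 52000 * t ^ 27 := by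
    have := Real.mul_self_sqrt ht0.le
    calc _ = 52000 * t ^ 26 * (Real.sqrt t * Real.sqrt t) := by ring
      _ = _ := by rw [this]; ring
  have h7 : 0 < t ^ 27 := by positivity
  linarith

lemma one_block (t : ℝ) (ht : 4 ≤ t) (d : ℕ) (hd : t ^ 27 ≤ d) :
    ∃ q : ℕ, 0 < q ∧ (q : ℝ) ≤ t ^ 7 ∧
      |∑ j ∈ range q, (Int.fract (t ^ 60 / ((d + j : ℕ) : ℝ)) - 1 / 2)| ≤
        ∑ j ∈ range q, wt t (d + j) := by
  classical
  have ht0 : 0 < t := by linarith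
  have ht1 : 1 ≤ t := by linarith
  have hd0 : (0 : ℝ) < d := lt_of_lt_of_le (by positivity) hd
  have hn : 0 < ⌊t ^ 7⌋₊ := Nat.floor_pos.2 (one_le_pow₀ ht1)
  obtain ⟨r, hr, hden⟩ := Real.exists_rat_abs_sub_le_and_den_le (-(t ^ 60 / (d : ℝ) ^ 2)) hn
  set q : ℕ := r.den with hq
  have hq0 : 0 < q := r.den_pos
  have hq0' : (0 : ℝ) < q := by exact_mod_cast hq0
  have hq7 : (q : ℝ) ≤ t ^ 7 := (Nat.le_floor_iff (by positivity)).1 hden
  have hrq : (r : ℝ) = (r.num : ℝ) / q := by rw [hq]; exact_mod_cast (Rat.num_div_den r).symm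
  have hcop : IsCoprime r.num (q : ℤ) := by
    rw [Int.isCoprime_iff_gcd_eq_one]; exact r.reduced
  have hr' : |-(t ^ 60 / (d : ℝ) ^ 2) - (r.num : ℝ) / q| ≤ 1 / (t ^ 7 * q) := by
    rw [← hrq]
    refine hr.trans (one_div_le_one_div_of_le (by positivity) ?_)
    gcongr
    exact (Nat.lt_floor_add_one _).le
  have hcube : t ^ 60 / (d : ℝ) ^ 3 ≤ 1 / t ^ 21 := by
    rw [div_le_div_iff₀ (by positivity) (by positivity)]
    have : (t ^ 27) ^ 3 ≤ (d : ℝ) ^ 3 := pow_le_pow_left₀ (by positivity) hd 3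
    calc t ^ 60 * t ^ 21 = (t ^ 27) ^ 3 := by ring
      _ ≤ _ := by linarith
  refine ⟨q, hq0, hq7, ?_⟩
  have hb : |∑ j ∈ range q, (Int.fract (t ^ 60 / ((d + j : ℕ) : ℝ)) - 1 / 2)| ≤ 5 := by
    apply block q hq0 r.num hcop (t ^ 60 / d) (fun j => t ^ 60 / ((d + j : ℕ) : ℝ))
    intro j hj
    have hj' : (j : ℝ) ≤ q := by exact_mod_cast hj.le
    have hj0 : (0 : ℝ) ≤ j := by positivity
    have hid : t ^ 60 / ((d + j : ℕ) : ℝ) - (t ^ 60 / d + j * ((r.num : ℝ) / q)) =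
        j * (-(t ^ 60 / (d : ℝ) ^ 2) - (r.num : ℝ) / q) + j ^ 2 * (t ^ 60 / (d ^ 2 * (d + j))) := by
      push_cast; field_simp; ring
    rw [hid]
    have b1 : |j * (-(t ^ 60 / (d : ℝ) ^ 2) - (r.num : ℝ) / q)| ≤ 1 / q := by
      rw [abs_mul, abs_of_nonneg hj0]
      calc _ ≤ t ^ 7 * (1 / (t ^ 7 * q)) := by gcongr; linarith
        _ = 1 / q := by field_simp
    have b2 : |(j : ℝ) ^ 2 * (t ^ 60 / (d ^ 2 * (d + j)))| ≤ 1 / q := by
      rw [abs_of_nonneg (by positivity)]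
      have c1 : t ^ 60 / ((d : ℝ) ^ 2 * (d + j)) ≤ t ^ 60 / (d : ℝ) ^ 3 := by
        apply div_le_div_of_nonneg_left (by positivity) (by positivity)
        have : (d : ℝ) ^ 3 = d ^ 2 * d := by ring
        rw [this]; gcongr; linarith
      have c2 : (q : ℝ) ^ 3 ≤ t ^ 21 := by
        calc (q : ℝ) ^ 3 ≤ (t ^ 7) ^ 3 := by gcongr
          _ = t ^ 21 := by ring
      have c3 := c1.trans hcube
      calc _ ≤ (q : ℝ) ^ 2 * (1 / t ^ 21) := mul_le_mul (by gcongr) c3 (by positivity) (by positivity)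
        _ ≤ (q : ℝ) ^ 2 * (1 / (q : ℝ) ^ 3) := by gcongr
        _ = 1 / q := by field_simp
    have := abs_add_le (j * (-(t ^ 60 / (d : ℝ) ^ 2) - (r.num : ℝ) / q))
      ((j : ℝ) ^ 2 * (t ^ 60 / (d ^ 2 * (d + j))))
    have e : (2 : ℝ) / q = 1 / q + 1 / q := by ring
    linarith
  refine hb.trans ?_
  have hlow : ∀ j ∈ range q, 5 * (1 / (q : ℝ)) ≤ wt t (d + j) := by
    intro j hj
    have hj' : (j : ℝ) ≤ q := by exact_mod_cast (mem_range.1 hj).le
    have hj0 : (0 : ℝ) ≤ j := by positivity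
    unfold wt
    have hs0 : ∀ q' ∈ Icc 1 ⌊t ^ 6⌋₊, 0 ≤ (if ∃ a : ℤ, |q' * t ^ 60 / ((d + j : ℕ) : ℝ) ^ 2 - a| ≤
        3 / t ^ 7 then 5 * (1 / (q' : ℝ)) else 0) := by
      intro q' _; split_ifs <;> positivity
    by_cases hq6 : (q : ℝ) ≤ t ^ 6
    · have hmem : q ∈ Icc 1 ⌊t ^ 6⌋₊ := mem_Icc.2 ⟨hq0, Nat.le_floor hq6⟩
      have h1 := single_le_sum hs0 hmem
      have hex : ∃ a : ℤ, |q * t ^ 60 / ((d + j : ℕ) : ℝ) ^ 2 - a| ≤ 3 / t ^ 7 := by
        refine ⟨-r.num, ?_⟩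
        have hid : q * t ^ 60 / ((d + j : ℕ) : ℝ) ^ 2 - ((-r.num : ℤ) : ℝ) =
            -(q * (-(t ^ 60 / (d : ℝ) ^ 2) - (r.num : ℝ) / q)) -
              q * j * (t ^ 60 * (2 * d + j) / (d ^ 2 * (d + j) ^ 2)) := by
          push_cast; field_simp; ring
        rw [hid]
        have b1 : |-(q * (-(t ^ 60 / (d : ℝ) ^ 2) - (r.num : ℝ) / q))| ≤ 1 / t ^ 7 := by
          rw [abs_neg, abs_mul, abs_of_nonneg hq0'.le]
          calc _ ≤ q * (1 / (t ^ 7 * q)) := by gcongr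
            _ = 1 / t ^ 7 := by field_simp
        have b2 : |(q : ℝ) * j * (t ^ 60 * (2 * d + j) / (d ^ 2 * (d + j) ^ 2))| ≤ 2 / t ^ 7 := by
          rw [abs_of_nonneg (by positivity)]
          have c1 : t ^ 60 * (2 * d + j) / ((d : ℝ) ^ 2 * (d + j) ^ 2) ≤
              2 * (t ^ 60 / (d : ℝ) ^ 3) := by
            rw [← mul_div_assoc, div_le_div_iff₀ (by positivity) (by positivity)]
            have p1 : (2 * (d : ℝ) + j) * d ≤ 2 * (d + j) ^ 2 := by nlinarith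
            calc t ^ 60 * (2 * d + j) * (d : ℝ) ^ 3 = t ^ 60 * d ^ 2 * ((2 * d + j) * d) := by ring
              _ ≤ t ^ 60 * d ^ 2 * (2 * (d + j) ^ 2) := by gcongr
              _ = _ := by ring
          calc _ ≤ t ^ 7 * t ^ 7 * (2 * (1 / t ^ 21)) := by gcongr <;> linarith
            _ = 2 / t ^ 7 := by field_simp
        have := abs_sub (-(q * (-(t ^ 60 / (d : ℝ) ^ 2) - (r.num : ℝ) / q)))
          ((q : ℝ) * j * (t ^ 60 * (2 * d + j) / (d ^ 2 * (d + j) ^ 2)))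
        have e : (3 : ℝ) / t ^ 7 = 1 / t ^ 7 + 2 / t ^ 7 := by ring
        linarith
      rw [if_pos hex] at h1
      have : 0 ≤ 5 / t ^ 6 := by positivity
      linarith
    · have h1 := sum_nonneg hs0
      have h2 : 5 * (1 / (q : ℝ)) ≤ 5 / t ^ 6 := by
        rw [mul_one_div]
        exact div_le_div_of_nonneg_left (by norm_num) (by positivity) (by linarith)
      linarith
  have := sum_le_sum hlow
  simp only [sum_const, card_range, nsmul_eq_mul] at this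
  have e : (q : ℝ) * (5 * (1 / q)) = 5 := by field_simp
  linarith

lemma abs_saw (x : ℝ) : |Int.fract x - 1 / 2| ≤ 1 := by
  rw [abs_le]; constructor <;> linarith [Int.fract_nonneg x, Int.fract_lt_one x]

lemma main (t : ℝ) (ht1 : 1 ≤ t) (K₁ K₂ : ℕ) (h1 : t ^ 27 ≤ K₁) (h12 : K₁ ≤ K₂)
    (h2 : (K₂ : ℝ) ≤ t ^ 33) :
    |∑ d ∈ Ioc K₁ K₂, (Int.fract (t ^ 60 / d) - 1 / 2)| ≤ 60001 * t ^ 27 := by
  have h27 : 0 < t ^ 27 := by positivity
  by_cases ht : 4 ≤ t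
  · have hIoc : Ioc K₁ K₂ = Ico (K₁ + 1) (K₂ + 1) := by ext; simp only [mem_Ioc, mem_Ico]; omega
    have hb := blocks (fun d => Int.fract (t ^ 60 / (d : ℝ)) - 1 / 2) (wt t) (t ^ 7) (K₁ + 1) (K₂ + 1)
      (fun d => abs_saw _) (wt_nonneg t) (by
        intro d hd _
        have : (K₁ : ℝ) ≤ d := by exact_mod_cast (by omega : K₁ ≤ d)
        obtain ⟨q, hq, hq7, hb⟩ := one_block t ht d (by linarith)
        exact ⟨q, hq, hq7, fun _ => hb⟩) (by positivity) (K₂ + 1 - (K₁ + 1)) (K₁ + 1) le_rfl (by omega)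
    rw [← sum_Ico_eq_sum_range (fun d => Int.fract (t ^ 60 / (d : ℝ)) - 1 / 2),
      ← sum_Ico_eq_sum_range (wt t)] at hb
    have hw := wt_sum t ht (K₁ + 1) (K₂ + 1) (by push_cast; linarith) (by push_cast; linarith)
    have h7 : t ^ 7 ≤ t ^ 27 := pow_le_pow_right₀ ht1 (by norm_num)
    rw [hIoc]; linarith
  · have h3 : |∑ d ∈ Ioc K₁ K₂, (Int.fract (t ^ 60 / d) - 1 / 2)| ≤ K₂ := by
      refine (abs_sum_le_sum_abs _ _).trans ?_
      refine (sum_le_sum fun j _ => abs_saw _).trans ?_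
      simp only [sum_const, Nat.card_Ioc, nsmul_eq_mul, mul_one]
      exact_mod_cast Nat.sub_le _ _
    have h4 : t ^ 6 ≤ 4 ^ 6 := pow_le_pow_left₀ (by linarith) (by linarith) 6
    have h5 : t ^ 33 = t ^ 6 * t ^ 27 := by ring
    nlinarith

theorem psi : Pool.Agent.H293Z.MO.S_PSI := by
  refine ⟨60001, by norm_num, fun F hF K₁ K₂ h1 h12 h2 => ?_⟩
  set t : ℝ := F ^ (1 / 60 : ℝ) with ht
  have hF0 : 0 ≤ F := by linarith
  have ht1 : 1 ≤ t := Real.one_le_rpow hF (by norm_num)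
  have hp : ∀ n : ℕ, t ^ n = F ^ ((n : ℝ) / 60) := by
    intro n
    rw [ht, ← Real.rpow_natCast, ← Real.rpow_mul hF0]; congr 1; ring
  have e60 : t ^ 60 = F := by rw [hp]; norm_num
  have e27 : t ^ 27 = F ^ (45 / 100 : ℝ) := by rw [hp]; norm_num
  have e33 : t ^ 33 = F ^ (55 / 100 : ℝ) := by rw [hp]; norm_num
  have := main t ht1 K₁ K₂ (by rw [e27]; exact h1) h12 (by rw [e33]; exact h2)
  rwa [e60, e27] at this

end Pool.Agent.H31Z.Psi
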