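import Mathlib
import Pool.Agent.H392Z.MO.Spec2

/-!
Task E2: bad elements of a block are few.
-/

set_option autoImplicit false

open Finset Filter

namespace Pool.Agent.H31Z.E2

open Pool.Agent.H392Z.MO

lemma card_le_of_close (S : Finset ℕ) (δ : ℝ) (hδ : 0 ≤ δ)
    (h : ∀ a ∈ S, ∀ b ∈ S, a ≤ b → (b : ℝ) - a ≤ δ) : (S.card : ℝ) ≤ δ + 1 := by
  rcases S.eq_empty_or_nonempty with rfl | hS
  · simp; linarith
  have hsub : S ⊆ Icc (S.min' hS) (S.min' hS + ⌊δ⌋₊) := by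
    intro b hb
    have h1 := S.min'_le b hb
    have h2 := h _ (S.min'_mem hS) b hb h1
    rw [mem_Icc]
    refine ⟨h1, ?_⟩
    have : b - S.min' hS ≤ ⌊δ⌋₊ := Nat.le_floor (by rw [Nat.cast_sub h1]; exact h2)
    omega
  have h3 := card_le_card hsub
  rw [Nat.card_Icc] at h3
  have h4 : S.card ≤ ⌊δ⌋₊ + 1 := by omega
  have h5 : (S.card : ℝ) ≤ ⌊δ⌋₊ + 1 := by exact_mod_cast h4
  linarith [Nat.floor_le hδ]

lemma HH_one_le {A : ℝ} (hA : 1 ≤ A) {i : ℕ} (hi : 1 ≤ i) : 1 ≤ HH A i :=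
  Real.one_le_rpow (by exact_mod_cast hi) (by linarith)

lemma tt_succ_le {A : ℝ} (hA : 1 ≤ A) (hA2 : A ≤ 2) {i : ℕ} (hi : 1 ≤ i) :
    tt A (i + 1) ≤ tt A i + 3 * HH A i := by
  have hi' : (1 : ℝ) ≤ i := by exact_mod_cast hi
  have hi0 : (0 : ℝ) < i := by linarith
  unfold tt HH
  push_cast
  have e1 : ((i : ℝ) + 1) ^ A = ((i : ℝ) + 1) ^ (A - 1) * (i + 1) := by
    rw [Real.rpow_sub_one (by positivity)]; field_simp
  have e2 : (i : ℝ) ^ A = (i : ℝ) ^ (A - 1) * i := by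
    rw [Real.rpow_sub_one (by positivity)]; field_simp
  have e3 : ((i : ℝ) + 1) = i * (1 + 1 / i) := by field_simp
  have h1 : (1 : ℝ) ≤ 1 + 1 / i := by have : 0 < 1 / (i : ℝ) := by positivity
                                      linarith
  have h2 : (1 + 1 / (i : ℝ)) ^ (A - 1) ≤ 1 + 1 / i := by
    calc (1 + 1 / (i : ℝ)) ^ (A - 1) ≤ (1 + 1 / (i : ℝ)) ^ (1 : ℝ) :=
          Real.rpow_le_rpow_of_exponent_le h1 (by linarith)
      _ = _ := Real.rpow_one _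
  have h3 : ((i : ℝ) + 1) ^ (A - 1) ≤ (i : ℝ) ^ (A - 1) * (1 + 1 / i) := by
    rw [e3, Real.mul_rpow hi0.le (by linarith)]
    gcongr
  have h4 : 0 < (i : ℝ) ^ (A - 1) := by positivity
  have h5 : (1 + 1 / (i : ℝ)) * (i + 1) ≤ i + 3 := by
    have : 1 / (i : ℝ) ≤ 1 := by rw [div_le_one hi0]; exact hi'
    have e : (1 + 1 / (i : ℝ)) * (i + 1) = i + 2 + 1 / i := by field_simp; ring
    linarith
  calc ((i : ℝ) + 1) ^ A = ((i : ℝ) + 1) ^ (A - 1) * (i + 1) := e1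
    _ ≤ (i : ℝ) ^ (A - 1) * (1 + 1 / i) * (i + 1) := by gcongr
    _ = (i : ℝ) ^ (A - 1) * ((1 + 1 / i) * (i + 1)) := by ring
    _ ≤ (i : ℝ) ^ (A - 1) * (i + 3) := by gcongr
    _ = _ := by rw [e2]; ring

lemma mem_B {A : ℝ} {i n : ℕ} (h : n ∈ B A i) : tt A i ≤ n ∧ (n : ℝ) < tt A (i + 1) := by
  unfold B at h
  rw [mem_Ico] at h
  exact ⟨Nat.ceil_le.1 h.1, Nat.lt_ceil.1 h.2⟩

lemma mult_card {A : ℝ} (hA : 1 ≤ A) (hA2 : A ≤ 2) {i : ℕ} (hi : 1 ≤ i) (d : ℕ) (hd : 0 < d) :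
    (((B A i).filter (fun n => d ∣ n)).card : ℝ) ≤ 3 * HH A i / d + 1 := by
  have hd' : (0 : ℝ) < d := by exact_mod_cast hd
  have hH := HH_one_le hA hi
  have hinj : Set.InjOn (fun n => n / d) ((B A i).filter (fun n => d ∣ n) : Set ℕ) := by
    intro a ha b hb hab
    have ha' := (mem_filter.1 ha).2
    have hb' := (mem_filter.1 hb).2
    simp only at hab
    rw [← Nat.div_mul_cancel ha', ← Nat.div_mul_cancel hb', hab]
  rw [← card_image_of_injOn hinj]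
  apply card_le_of_close _ _ (by positivity)
  intro a ha b hb _
  obtain ⟨x, hx, rfl⟩ := mem_image.1 ha
  obtain ⟨y, hy, rfl⟩ := mem_image.1 hb
  rw [mem_filter] at hx hy
  have h1 := mem_B hx.1
  have h2 := mem_B hy.1
  rw [Nat.cast_div hx.2 hd'.ne', Nat.cast_div hy.2 hd'.ne', ← sub_div]
  have := tt_succ_le hA hA2 hi
  gcongr
  linarith [h1.1, h2.2]

lemma mult_card_big {A : ℝ} (hA : 1 ≤ A) (hA2 : A ≤ 2) {i : ℕ} (hi : 1 ≤ i) (d : ℕ)
    (hd : HH A i < d) : (((B A i).filter (fun n => d ∣ n)).card : ℝ) ≤ 4 := by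
  have hH := HH_one_le hA hi
  have hd' : (0 : ℝ) < d := by linarith
  have h1 := mult_card hA hA2 hi d (by exact_mod_cast hd')
  have h2 : 3 * HH A i / d ≤ 3 := by rw [div_le_iff₀ hd']; linarith
  linarith

lemma B_card {A : ℝ} (hA : 1 ≤ A) (hA2 : A ≤ 2) {i : ℕ} (hi : 1 ≤ i) :
    ((B A i).card : ℝ) ≤ 4 * HH A i := by
  have h1 := mult_card hA hA2 hi 1 one_pos
  have hH := HH_one_le hA hi
  simp only [one_dvd, filter_true, Nat.cast_one, div_one] at h1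
  linarith

lemma PF_spec {n : ℕ} (h : 0 < PF n) : (PF n).Prime ∧ PF n ∣ n ∧ n ≠ 0 := by
  have hne : n.primeFactors.Nonempty := by
    rw [Finset.nonempty_iff_ne_empty]
    intro h0
    simp [PF, h0] at h
  obtain ⟨p, hp, hpe⟩ := Finset.exists_mem_eq_sup _ hne id
  have : PF n = p := hpe
  rw [this]
  exact Nat.mem_primeFactors.1 hp

lemma bad1_le {A κ σ : ℝ} {M : Set ℕ} (hA : 1 ≤ A) (hA2 : A ≤ 2) (hs : 0 < σ) (hsk : σ ≤ κ)
    (i₁ i : ℕ) (hi : 1 ≤ i)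
    (hD : ∀ S : Finset ℕ, (∀ d ∈ S, 0 < d ∧ ∀ p : ℕ, p.Prime → p ∣ d → IsH A κ σ M i₁ p) →
      ∑ d ∈ S, (d : ℝ) ^ (κ / 2 - 1) ≤ 2) :
    ((Bad1 A κ σ M i₁ i).card : ℝ) ≤ 8 * (HH A i * (i : ℝ) ^ (-(σ / 40))) := by
  classical
  have hi' : (1 : ℝ) ≤ i := by exact_mod_cast hi
  have hi0 : (0 : ℝ) < i := by linarith
  have hH := HH_one_le hA hi
  have ht : 0 < tt A i ^ (1 / 20 : ℝ) := by unfold tt; positivity
  set S : Finset ℕ := (range (⌊HH A i⌋₊ + 1)).filter (fun d : ℕ => tt A i ^ (1 / 20 : ℝ) ≤ (d : ℝ) ∧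
    (d : ℝ) ≤ HH A i ∧ ∀ p : ℕ, p.Prime → p ∣ d → IsH A κ σ M i₁ p) with hS
  have hsub : Bad1 A κ σ M i₁ i ⊆ S.biUnion (fun d => (B A i).filter (fun n => d ∣ n)) := by
    intro n hn
    unfold Bad1 at hn
    rw [mem_filter] at hn
    obtain ⟨hn, d, hd, h1, h2, h3⟩ := hn
    rw [mem_biUnion]
    refine ⟨d, ?_, mem_filter.2 ⟨hn, hd⟩⟩
    rw [hS, mem_filter, mem_range]
    exact ⟨Nat.lt_succ_of_le (Nat.le_floor h2), h1, h2, h3⟩
  have h1 : ((Bad1 A κ σ M i₁ i).card : ℝ) ≤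
      ∑ d ∈ S, (((B A i).filter (fun n => d ∣ n)).card : ℝ) := by
    exact_mod_cast (card_le_card hsub).trans card_biUnion_le
  have hpos : ∀ d ∈ S, (0 : ℝ) < d := fun d hd => lt_of_lt_of_le ht (mem_filter.1 hd).2.1
  have h2 : ∀ d ∈ S, (((B A i).filter (fun n => d ∣ n)).card : ℝ) ≤
      4 * (HH A i * (i : ℝ) ^ (-(σ / 40))) * (d : ℝ) ^ (κ / 2 - 1) := by
    intro d hd
    have hd0 := hpos d hd
    obtain ⟨-, g1, g2, -⟩ := mem_filter.1 hd
    have h3 := mult_card hA hA2 hi d (by exact_mod_cast hd0)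
    have h4 : 1 ≤ HH A i / d := by rw [le_div_iff₀ hd0]; linarith
    have h5 : 3 * HH A i / d + 1 ≤ 4 * HH A i * (1 / d) := by
      have e1 : 3 * HH A i / d = 3 * (HH A i / d) := by ring
      have e2 : 4 * HH A i * (1 / d) = 4 * (HH A i / d) := by ring
      linarith
    have h6 : (1 / (d : ℝ)) = (d : ℝ) ^ (-(κ / 2)) * (d : ℝ) ^ (κ / 2 - 1) := by
      rw [← Real.rpow_add hd0, show -(κ / 2) + (κ / 2 - 1) = -1 by ring, Real.rpow_neg_one, one_div]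
    have h7 : (d : ℝ) ^ (-(κ / 2)) ≤ (i : ℝ) ^ (-(σ / 40)) := by
      calc (d : ℝ) ^ (-(κ / 2)) ≤ (tt A i ^ (1 / 20 : ℝ)) ^ (-(κ / 2)) :=
            Real.rpow_le_rpow_of_nonpos ht g1 (by linarith)
        _ = (i : ℝ) ^ (A * (1 / 20) * (-(κ / 2))) := by
            unfold tt; rw [← Real.rpow_mul hi0.le, ← Real.rpow_mul hi0.le]
        _ ≤ _ := Real.rpow_le_rpow_of_exponent_le hi' (by nlinarith)
    calc _ ≤ 4 * HH A i * (1 / d) := h3.trans h5
      _ = 4 * HH A i * ((d : ℝ) ^ (-(κ / 2)) * (d : ℝ) ^ (κ / 2 - 1)) := by rw [h6]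
      _ ≤ 4 * HH A i * ((i : ℝ) ^ (-(σ / 40)) * (d : ℝ) ^ (κ / 2 - 1)) := by gcongr
      _ = _ := by ring
  have h3 := sum_le_sum h2
  rw [← mul_sum] at h3
  have h4 := hD S (fun d hd => ⟨by exact_mod_cast hpos d hd, (mem_filter.1 hd).2.2.2⟩)
  have h5 : 0 ≤ 4 * (HH A i * (i : ℝ) ^ (-(σ / 40))) := by positivity
  nlinarith

lemma blk_le {A : ℝ} (hA : 1 ≤ A) {i n q : ℕ} (hn : n ∈ B A i) (hq : q ≤ n) : blk A q ≤ i := by
  have h := (mem_B hn).2
  have hq' : (q : ℝ) ≤ n := by exact_mod_cast hq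
  unfold blk
  apply Nat.le_of_lt_succ
  rw [Nat.floor_lt (by positivity)]
  have h2 : (q : ℝ) ^ (1 / A) < (tt A (i + 1)) ^ (1 / A) :=
    Real.rpow_lt_rpow (by positivity) (by linarith) (by positivity)
  unfold tt at h2
  rw [← Real.rpow_mul (by positivity), mul_one_div_cancel (by linarith), Real.rpow_one] at h2
  exact_mod_cast h2

lemma bad2_le {A κ σ ε μ CM : ℝ} {M : Set ℕ} (hP : Par A κ σ ε μ) (hCM : 0 < CM)
    (hM : Sparse M CM μ) (i₁ i : ℕ) (hi₁ : 1 ≤ i₁) (hi : 1 ≤ i)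
    (hF : ∀ c : ℕ, (i : ℝ) ^ (1 - κ / 2) ≤ c →
      ((Fset A κ σ i c).card : ℝ) ≤ HH A i * (i : ℝ) ^ (-(σ / 4))) :
    ((Bad2 A κ σ M i₁ i).card : ℝ) ≤ 32 * CM * (HH A i * (i : ℝ) ^ (-(σ / 40))) := by
  classical
  obtain ⟨hs, hsk, hk, hA', hA2', -, -, hm, hm2⟩ := hP
  have hA : 1 ≤ A := by linarith
  have hA2 : A ≤ 2 := hA2'.le
  have hi' : (1 : ℝ) ≤ i := by exact_mod_cast hi
  have hi0 : (0 : ℝ) < i := by linarith
  have hH := HH_one_le hA hi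
  set mult : ℕ → Finset ℕ := fun d => (B A i).filter (fun n => d ∣ n) with hmult
  set C1 : Finset ℕ := (range (i + 1)).filter
    (fun c : ℕ => c ∈ M ∧ 1 ≤ c ∧ (c : ℝ) < (i : ℝ) ^ (1 - κ / 2)) with hC1
  set C2 : Finset ℕ := (range ((i + 1) ^ 2 + 1)).filter
    (fun c : ℕ => c ∈ M ∧ (i : ℝ) ^ (1 - κ / 2) ≤ c) with hC2
  set far : ℕ → Finset ℕ := fun c =>
    ((B A c).filter (fun n' => HH A i < (PF n' : ℝ))).biUnion (fun n' => mult (PF n')) with hfar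
  set near : ℕ → Finset ℕ := fun c =>
    ((Fset A κ σ i c).filter (fun q : ℕ => HH A i < (q : ℝ))).biUnion mult with hnear
  have hsub : Bad2 A κ σ M i₁ i ⊆ C1.biUnion far ∪ C2.biUnion near := by
    intro n hn
    unfold Bad2 at hn
    rw [mem_filter] at hn
    obtain ⟨hn, c, hcM, hc1, n', hn', hdvd, hbig, hor⟩ := hn
    unfold Hand at hn'
    rw [mem_filter] at hn'
    obtain ⟨hn'B, hR, hkk, -⟩ := hn'
    rw [mem_union]
    by_cases hc : (c : ℝ) < (i : ℝ) ^ (1 - κ / 2)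
    · left
      rw [mem_biUnion]
      refine ⟨c, ?_, ?_⟩
      · rw [hC1, mem_filter, mem_range]
        refine ⟨?_, hcM, by omega, hc⟩
        have : (i : ℝ) ^ (1 - κ / 2) ≤ i := by
          calc (i : ℝ) ^ (1 - κ / 2) ≤ (i : ℝ) ^ (1 : ℝ) :=
                Real.rpow_le_rpow_of_exponent_le hi' (by linarith)
            _ = i := Real.rpow_one _
        have : (c : ℝ) < i := by linarith
        have : c < i := by exact_mod_cast this
        omega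
      · rw [hfar]; simp only [mem_biUnion]
        exact ⟨n', mem_filter.2 ⟨hn'B, hbig⟩, mem_filter.2 ⟨hn, hdvd⟩⟩
    · right
      have hnd : ¬ n' ∣ n := hor.resolve_left hc
      have hq0 : 0 < PF n' := by
        have : (0 : ℝ) < PF n' := by linarith
        exact_mod_cast this
      obtain ⟨hqp, hqd, hn'0⟩ := PF_spec hq0
      have hn0 : 0 < n := by
        have h1 := (mem_B hn).1
        have h2 : 0 < tt A i := by unfold tt; positivity
        have : (0 : ℝ) < n := by linarith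
        exact_mod_cast this
      rw [mem_biUnion]
      refine ⟨c, ?_, ?_⟩
      · rw [hC2, mem_filter, mem_range]
        refine ⟨?_, hcM, not_lt.1 hc⟩
        have h1 : kk κ c ≤ i := hkk.trans (blk_le hA hn (Nat.le_of_dvd hn0 hdvd))
        unfold kk at h1
        have h2 : (c : ℝ) ^ (1 / 2 + κ) < (i + 1 : ℕ) :=
          (Nat.floor_lt (by positivity)).1 (Nat.lt_succ_of_le h1)
        have hc' : (1 : ℝ) ≤ c := by exact_mod_cast (by omega : 1 ≤ c)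
        have h3 : (c : ℝ) ^ (1 / 2 : ℝ) ≤ (c : ℝ) ^ (1 / 2 + κ) :=
          Real.rpow_le_rpow_of_exponent_le hc' (by linarith)
        have h4 : ((c : ℝ) ^ (1 / 2 : ℝ)) ^ 2 ≤ ((i + 1 : ℕ) : ℝ) ^ 2 :=
          pow_le_pow_left₀ (by positivity) (by linarith) 2
        rw [← Real.sqrt_eq_rpow, Real.sq_sqrt (by positivity)] at h4
        have : c ≤ (i + 1) ^ 2 := by exact_mod_cast h4
        omega
      · rw [hnear]; simp only [mem_biUnion]
        refine ⟨PF n', mem_filter.2 ⟨?_, hbig⟩, mem_filter.2 ⟨hn, hdvd⟩⟩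
        unfold Fset
        rw [mem_filter, mem_range]
        obtain ⟨a, ha⟩ := hdvd
        obtain ⟨m, hm'⟩ := hqd
        refine ⟨?_, hqp, hkk, a, m, ?_, ?_, ?_, ?_⟩
        · have h1 : PF n' ≤ n' := Nat.le_of_dvd (Nat.pos_of_ne_zero hn'0) ⟨m, hm'⟩
          unfold B at hn'B
          rw [mem_Ico] at hn'B
          omega
        · rw [mul_comm, ← ha]; exact hn
        · rw [mul_comm, ← hm']; exact hn'B
        · intro p hp hpm
          exact hR p hp (hpm.trans ⟨PF n', by rw [mul_comm]; exact hm'⟩)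
        · intro hma
          apply hnd
          rw [ha]
          conv_lhs => rw [hm']
          exact Nat.mul_dvd_mul_left _ hma
  have hfar' : ∀ c ∈ C1, ((far c).card : ℝ) ≤ 16 * (HH A i * (i : ℝ) ^ (-(σ / 4))) := by
    intro c hc
    obtain ⟨-, -, hc1, hc2⟩ := mem_filter.1 hc
    have h1 : ((far c).card : ℝ) ≤ ∑ n' ∈ (B A c).filter (fun n' => HH A i < (PF n' : ℝ)),
        ((mult (PF n')).card : ℝ) := by exact_mod_cast card_biUnion_le
    have h2 : ∑ n' ∈ (B A c).filter (fun n' => HH A i < (PF n' : ℝ)),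
        ((mult (PF n')).card : ℝ) ≤ ∑ n' ∈ (B A c).filter (fun n' => HH A i < (PF n' : ℝ)), (4 : ℝ) :=
      sum_le_sum fun n' hn' => mult_card_big hA hA2 hi _ (mem_filter.1 hn').2
    rw [sum_const, nsmul_eq_mul] at h2
    have h3 : (((B A c).filter (fun n' => HH A i < (PF n' : ℝ))).card : ℝ) ≤ (B A c).card := by
      exact_mod_cast card_filter_le _ _
    have h4 := B_card hA hA2 hc1
    have h5 : HH A c ≤ HH A i * (i : ℝ) ^ (-(σ / 4)) := by
      unfold HH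
      calc (c : ℝ) ^ (A - 1) ≤ ((i : ℝ) ^ (1 - κ / 2)) ^ (A - 1) :=
            Real.rpow_le_rpow (by positivity) hc2.le (by linarith)
        _ = (i : ℝ) ^ ((1 - κ / 2) * (A - 1)) := by rw [← Real.rpow_mul hi0.le]
        _ ≤ (i : ℝ) ^ (A - 1 + -(σ / 4)) := Real.rpow_le_rpow_of_exponent_le hi' (by nlinarith)
        _ = _ := Real.rpow_add hi0 _ _
    linarith
  have hnear' : ∀ c ∈ C2, ((near c).card : ℝ) ≤ 4 * (HH A i * (i : ℝ) ^ (-(σ / 4))) := by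
    intro c hc
    obtain ⟨-, -, hc2⟩ := mem_filter.1 hc
    have h1 : ((near c).card : ℝ) ≤ ∑ q ∈ (Fset A κ σ i c).filter (fun q : ℕ => HH A i < (q : ℝ)),
        ((mult q).card : ℝ) := by exact_mod_cast card_biUnion_le
    have h2 : ∑ q ∈ (Fset A κ σ i c).filter (fun q : ℕ => HH A i < (q : ℝ)), ((mult q).card : ℝ) ≤
        ∑ q ∈ (Fset A κ σ i c).filter (fun q : ℕ => HH A i < (q : ℝ)), (4 : ℝ) :=
      sum_le_sum fun q hq => mult_card_big hA hA2 hi _ (mem_filter.1 hq).2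
    rw [sum_const, nsmul_eq_mul] at h2
    have h3 : (((Fset A κ σ i c).filter (fun q : ℕ => HH A i < (q : ℝ))).card : ℝ) ≤
        (Fset A κ σ i c).card := by exact_mod_cast card_filter_le _ _
    have h4 := hF c hc2
    linarith
  set W : ℝ := HH A i * (i : ℝ) ^ (-(σ / 4)) with hW
  have hW0 : 0 ≤ W := by positivity
  have c1 : (C1.card : ℝ) ≤ CM * (i : ℝ) ^ (2 * μ) := by
    have h1 := hM i hi
    have h2 : C1 ⊆ (range (i + 1)).filter (fun c => c ∈ M) := by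
      intro c hc
      rw [hC1, mem_filter] at hc
      exact mem_filter.2 ⟨hc.1, hc.2.1⟩
    have h3 : (C1.card : ℝ) ≤ ((range (i + 1)).filter (fun c => c ∈ M)).card := by
      exact_mod_cast card_le_card h2
    have h4 : (i : ℝ) ^ μ ≤ (i : ℝ) ^ (2 * μ) := Real.rpow_le_rpow_of_exponent_le hi' (by linarith)
    have h5 : CM * (i : ℝ) ^ μ ≤ CM * (i : ℝ) ^ (2 * μ) := by gcongr
    exact h3.trans (le_trans (by convert h1) h5)
  have c2 : (C2.card : ℝ) ≤ CM * (4 * (i : ℝ) ^ (2 * μ)) := by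
    have h1 := hM ((i + 1) ^ 2) (Nat.one_le_pow _ _ (by omega))
    have h2 : C2 ⊆ (range ((i + 1) ^ 2 + 1)).filter (fun c => c ∈ M) := by
      intro c hc
      rw [hC2, mem_filter] at hc
      exact mem_filter.2 ⟨hc.1, hc.2.1⟩
    have h3 : (C2.card : ℝ) ≤ ((range ((i + 1) ^ 2 + 1)).filter (fun c => c ∈ M)).card := by
      exact_mod_cast card_le_card h2
    have h4 : ((((i + 1) ^ 2 : ℕ)) : ℝ) ^ μ ≤ 4 * (i : ℝ) ^ (2 * μ) := by
      have g1 : ((((i + 1) ^ 2 : ℕ)) : ℝ) ≤ 4 * (i : ℝ) ^ (2 : ℝ) := by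
        push_cast; rw [Real.rpow_two]; nlinarith
      calc _ ≤ (4 * (i : ℝ) ^ (2 : ℝ)) ^ μ := Real.rpow_le_rpow (by positivity) g1 hm.le
        _ = (4 : ℝ) ^ μ * (i : ℝ) ^ (2 * μ) := by
            rw [Real.mul_rpow (by norm_num) (by positivity), ← Real.rpow_mul hi0.le]
        _ ≤ (4 : ℝ) ^ (1 : ℝ) * (i : ℝ) ^ (2 * μ) := by
            gcongr
            · norm_num
            · linarith
        _ = _ := by rw [Real.rpow_one]
    have h5 : CM * ((((i + 1) ^ 2 : ℕ)) : ℝ) ^ μ ≤ CM * (4 * (i : ℝ) ^ (2 * μ)) := by gcongr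
    exact h3.trans (le_trans (by convert h1) h5)
  have s1 : ((C1.biUnion far).card : ℝ) ≤ C1.card * (16 * W) := by
    have h1 : ((C1.biUnion far).card : ℝ) ≤ ∑ c ∈ C1, ((far c).card : ℝ) := by
      exact_mod_cast card_biUnion_le
    have h2 := sum_le_sum hfar'
    rw [sum_const, nsmul_eq_mul] at h2
    linarith
  have s2 : ((C2.biUnion near).card : ℝ) ≤ C2.card * (4 * W) := by
    have h1 : ((C2.biUnion near).card : ℝ) ≤ ∑ c ∈ C2, ((near c).card : ℝ) := by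
      exact_mod_cast card_biUnion_le
    have h2 := sum_le_sum hnear'
    rw [sum_const, nsmul_eq_mul] at h2
    linarith
  have s3 : ((Bad2 A κ σ M i₁ i).card : ℝ) ≤ (C1.biUnion far).card + (C2.biUnion near).card := by
    exact_mod_cast (card_le_card hsub).trans (card_union_le _ _)
  have s4 : (i : ℝ) ^ (2 * μ) * W ≤ HH A i * (i : ℝ) ^ (-(σ / 40)) := by
    have h1 : (i : ℝ) ^ (2 * μ) * (i : ℝ) ^ (-(σ / 4)) ≤ (i : ℝ) ^ (-(σ / 40)) := by
      rw [← Real.rpow_add hi0]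
      exact Real.rpow_le_rpow_of_exponent_le hi' (by linarith)
    calc (i : ℝ) ^ (2 * μ) * W = HH A i * ((i : ℝ) ^ (2 * μ) * (i : ℝ) ^ (-(σ / 4))) := by
          rw [hW]; ring
      _ ≤ _ := by gcongr
  have s5 : (C1.card : ℝ) * (16 * W) ≤ CM * (i : ℝ) ^ (2 * μ) * (16 * W) := by gcongr
  have s6 : (C2.card : ℝ) * (4 * W) ≤ CM * (4 * (i : ℝ) ^ (2 * μ)) * (4 * W) := by gcongr
  have s7 : 32 * CM * ((i : ℝ) ^ (2 * μ) * W) ≤ 32 * CM * (HH A i * (i : ℝ) ^ (-(σ / 40))) := by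
    gcongr
  nlinarith

theorem e2 : Pool.Agent.H392Z.MO.S_E2 := by
  intro A κ σ ε μ CM M hP hCM hM hF hD
  obtain ⟨j₁, hF, -⟩ := hF
  obtain ⟨j₂, hD⟩ := hD
  have hs := hP.s_pos
  have hA : 1 ≤ A := by linarith [hP.A_ge, hP.s_le, hP.k_le]
  have hev : ∀ᶠ i : ℕ in atTop, 8 + 32 * CM ≤ (i : ℝ) ^ (σ / 40 - σ / 100) :=
    ((tendsto_rpow_atTop (by linarith)).comp tendsto_natCast_atTop_atTop).eventually_ge_atTop _
  obtain ⟨j₃, hj₃⟩ := eventually_atTop.1 hev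
  refine ⟨j₁ + j₂ + j₃ + 1, fun i₁ hi₁ i hi => ?_⟩
  have hi1 : 1 ≤ i := by omega
  have hi0 : (0 : ℝ) < i := by exact_mod_cast hi1
  have b1 := bad1_le hA hP.A_lt.le hs hP.s_le i₁ i hi1 (hD i₁ (by omega))
  have b2 := bad2_le hP hCM hM i₁ i (by omega) hi1 (fun c hc => hF i c (by omega) hc)
  have h3 := hj₃ i (by omega)
  have hH := HH_one_le hA hi1
  have h4 : (i : ℝ) ^ (-(σ / 100)) = (i : ℝ) ^ (σ / 40 - σ / 100) * (i : ℝ) ^ (-(σ / 40)) := by
    rw [← Real.rpow_add hi0]; congr 1; ring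
  have h5 : 0 ≤ HH A i * (i : ℝ) ^ (-(σ / 40)) := by positivity
  rw [h4]
  nlinarith

end Pool.Agent.H31Z.E2
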