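import Mathlib

/-!
Colourings of Manhattan space with `(1 + ε)^n` colours and no monochromatic long unit baton.
-/

set_option autoImplicit false

namespace Pool.Agent.H31Z.Baton

open Finset

lemma greedy {V : Type} (adj : V → V → Prop) (hs : ∀ v w, adj v w → adj w v)
    (hi : ∀ v, ¬ adj v v) (Δ : ℕ)
    (hd : ∀ v, ∃ s : Finset V, s.card ≤ Δ ∧ ∀ w, adj v w → w ∈ s) :
    ∃ φ : V → Fin (Δ + 1), ∀ v w, adj v w → φ v ≠ φ w := by
  classical
  have wf : WellFounded (WellOrderingRel : V → V → Prop) := WellOrderingRel.isWellOrder.wf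
  have ex : ∀ (v : V) (rec : ∀ w, WellOrderingRel w v → Fin (Δ + 1)),
      ∃ col, ∀ w (h : WellOrderingRel w v), adj v w → rec w h ≠ col := by
    intro v rec
    obtain ⟨s, hs1, hs2⟩ := hd v
    set g : V → Fin (Δ + 1) := fun w => if h : WellOrderingRel w v then rec w h else 0 with hg
    have h1 : (s.image g).card < (univ : Finset (Fin (Δ + 1))).card := by
      have := Finset.card_image_le (s := s) (f := g)
      simp only [card_univ, Fintype.card_fin]
      omega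
    obtain ⟨col, -, hcol⟩ := Finset.exists_mem_notMem_of_card_lt_card h1
    refine ⟨col, fun w h hw h2 => hcol (Finset.mem_image.2 ⟨w, hs2 w hw, ?_⟩)⟩
    simp [hg, h, h2]
  set φ : V → Fin (Δ + 1) := wf.fix (fun v rec => (ex v rec).choose) with hφ
  have key : ∀ v w, WellOrderingRel w v → adj v w → φ w ≠ φ v := by
    intro v w h hw
    have h1 : φ v = (ex v (fun w _ => φ w)).choose := by
      rw [hφ, wf.fix_eq]
    rw [h1]
    exact (ex v (fun w _ => φ w)).choose_spec w h hw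
  refine ⟨φ, fun v w h => ?_⟩
  rcases trichotomous_of (WellOrderingRel : V → V → Prop) v w with h1 | h1 | h1
  · exact key w v h1 (hs _ _ h)
  · subst h1
    exact absurd h (hi v)
  · exact (key v w h1 h).symm

lemma geom_bound {t : ℝ} (h0 : 0 ≤ t) (h1 : t ≤ 1 / 3) (R : ℕ) :
    ∑ j ∈ Finset.Icc (-(R : ℤ)) R, t ^ j.natAbs ≤ 1 + 3 * t - 3 * t ^ (R + 1) := by
  induction R with
  | zero => simp
  | succ R ih =>
    have h2 : Finset.Icc (-((R + 1 : ℕ) : ℤ)) (R + 1 : ℕ) =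
        insert (-((R + 1 : ℕ) : ℤ)) (insert ((R + 1 : ℕ) : ℤ) (Finset.Icc (-(R : ℤ)) R)) := by
      ext j
      simp only [Finset.mem_Icc, Finset.mem_insert]
      push_cast
      omega
    rw [h2, Finset.sum_insert (by simp; omega), Finset.sum_insert (by simp)]
    simp only [Int.natAbs_neg, Int.natAbs_natCast]
    have h3 : 0 ≤ t ^ (R + 1) := pow_nonneg h0 _
    have h4 : t ^ (R + 1 + 1) = t ^ (R + 1) * t := pow_succ _ _
    nlinarith

/-- the integer points of the 1-norm ball -/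
noncomputable def ball (n R : ℕ) : Finset (Fin n → ℤ) :=
  (Fintype.piFinset fun _ => Finset.Icc (-(R : ℤ)) R).filter fun v => ∑ i, (v i).natAbs ≤ R

lemma mem_ball {n R : ℕ} {v : Fin n → ℤ} (h : ∑ i, (v i).natAbs ≤ R) : v ∈ ball n R := by
  refine Finset.mem_filter.2 ⟨Fintype.mem_piFinset.2 fun i => ?_, h⟩
  have := Finset.single_le_sum (f := fun i => (v i).natAbs) (fun _ _ => Nat.zero_le _)
    (Finset.mem_univ i)
  simp only [Finset.mem_Icc] at this ⊢
  omega

lemma card_ball {t : ℝ} (h0 : 0 ≤ t) (h1 : t ≤ 1 / 3) (n R : ℕ) :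
    (ball n R).card * t ^ R ≤ (1 + 3 * t) ^ n := by
  calc ((ball n R).card : ℝ) * t ^ R = ∑ v ∈ ball n R, t ^ R := by simp
    _ ≤ ∑ v ∈ ball n R, ∏ i, t ^ (v i).natAbs := by
      refine Finset.sum_le_sum fun v hv => ?_
      rw [Finset.prod_pow_eq_pow_sum]
      exact pow_le_pow_of_le_one h0 (by linarith) (Finset.mem_filter.1 hv).2
    _ ≤ ∑ v ∈ Fintype.piFinset fun _ : Fin n => Finset.Icc (-(R : ℤ)) R,
          ∏ i, t ^ (v i).natAbs :=
      Finset.sum_le_sum_of_subset_of_nonneg (Finset.filter_subset _ _) fun _ _ _ => by positivity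
    _ = ∏ _i : Fin n, ∑ j ∈ Finset.Icc (-(R : ℤ)) R, t ^ j.natAbs :=
      (Finset.prod_univ_sum _ (fun _ (j : ℤ) => t ^ j.natAbs)).symm
    _ ≤ (1 + 3 * t) ^ n := by
      rw [Finset.prod_const, card_univ, Fintype.card_fin]
      refine pow_le_pow_left₀ (by positivity) ((geom_bound h0 h1 R).trans ?_) n
      have : 0 ≤ t ^ (R + 1) := pow_nonneg h0 _
      linarith

lemma card_small {t : ℝ} (h0 : 0 ≤ t) (h1 : t ≤ 1) (n r : ℕ) :
    ((univ : Finset (Finset (Fin n))).filter fun B => B.card ≤ r).card * t ^ r ≤ (1 + t) ^ n := by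
  calc (((univ : Finset (Finset (Fin n))).filter fun B => B.card ≤ r).card : ℝ) * t ^ r
      = ∑ B ∈ (univ : Finset (Finset (Fin n))).filter fun B => B.card ≤ r, t ^ r := by simp
    _ ≤ ∑ B ∈ (univ : Finset (Finset (Fin n))).filter fun B => B.card ≤ r, t ^ B.card :=
      Finset.sum_le_sum fun B hB => pow_le_pow_of_le_one h0 h1 (Finset.mem_filter.1 hB).2
    _ ≤ ∑ B : Finset (Fin n), t ^ B.card :=
      Finset.sum_le_sum_of_subset_of_nonneg (Finset.filter_subset _ _) fun _ _ _ => by positivity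
    _ = (1 + t) ^ n := by
      have := Finset.prod_one_add (s := (univ : Finset (Fin n))) (f := fun _ => t)
      simp only [prod_const, card_univ, Fintype.card_fin, Finset.powerset_univ] at this
      exact this.symm

lemma exists_rare {n M : ℕ} (hM : 0 < M) (z : Fin n → ℤ) :
    ∃ θ : Fin M, (univ.filter fun i => z i % M = (θ : ℕ)).card ≤ n / M := by
  by_contra hc
  push Not at hc
  have h1 : ∑ θ : Fin M, (univ.filter fun i => z i % M = (θ : ℕ)).card ≤ n := by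
    rw [← Finset.card_biUnion]
    · exact (Finset.card_le_univ _).trans (by simp)
    · intro a _ b _ hab
      rw [Function.onFun, Finset.disjoint_filter]
      intro i _ h1 h2
      apply hab
      apply Fin.ext
      omega
  have h2 : ∑ _θ : Fin M, (n / M + 1) ≤
      ∑ θ : Fin M, (univ.filter fun i => z i % M = (θ : ℕ)).card :=
    Finset.sum_le_sum fun θ _ => hc θ
  simp only [sum_const, card_univ, Fintype.card_fin, smul_eq_mul] at h2
  have := Nat.lt_mul_div_succ n hM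
  omega

lemma cell_sep {M : ℤ} (hM : 2 ≤ M) {θ a b : ℤ} (hθ0 : 0 ≤ θ) (hθ : θ < M)
    (h : a % M = θ ↔ b % M = θ) (hlt : (b - θ) / M < (a - θ) / M) :
    (a - θ) / M - (b - θ) / M + 1 ≤ a - b := by
  have hM0 : 0 < M := by omega
  have key : ∀ c : ℤ, c % M = θ ↔ (c - θ) % M = 0 := by
    intro c
    rw [← Int.emod_eq_emod_iff_emod_sub_eq_zero, Int.emod_eq_of_lt hθ0 hθ]
  rw [key, key] at h
  have ha := Int.mul_ediv_add_emod (a - θ) M
  have hb := Int.mul_ediv_add_emod (b - θ) M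
  have ha1 := Int.emod_nonneg (a - θ) hM0.ne'
  have ha2 := Int.emod_lt_of_pos (a - θ) hM0
  have hb1 := Int.emod_nonneg (b - θ) hM0.ne'
  have hb2 := Int.emod_lt_of_pos (b - θ) hM0
  generalize (a - θ) / M = p at *
  generalize (b - θ) / M = q at *
  generalize (a - θ) % M = r at *
  generalize (b - θ) % M = s at *
  have h3 : 0 ≤ (M - 1) * (p - q - 1) := mul_nonneg (by omega) (by omega)
  have h4 : s - r ≤ M - 2 := by omega
  nlinarith

lemma cell_dist {M : ℤ} (hM : 2 ≤ M) {θ : ℤ} (hθ0 : 0 ≤ θ) (hθ : θ < M) {x y : ℝ}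
    (h : ⌊x⌋ % M = θ ↔ ⌊y⌋ % M = θ) :
    ((((⌊x⌋ - θ) / M - (⌊y⌋ - θ) / M).natAbs : ℕ) : ℝ) ≤ |x - y| := by
  have hx1 := Int.floor_le x
  have hx2 := Int.lt_floor_add_one x
  have hy1 := Int.floor_le y
  have hy2 := Int.lt_floor_add_one y
  rw [Nat.cast_natAbs]
  rcases lt_trichotomy ((⌊y⌋ - θ) / M) ((⌊x⌋ - θ) / M) with h1 | h1 | h1
  · have h2 := cell_sep hM hθ0 hθ h h1
    rw [abs_of_pos (by omega)]
    have h3 : (((⌊x⌋ - θ) / M - (⌊y⌋ - θ) / M + 1 : ℤ) : ℝ) ≤ ((⌊x⌋ - ⌊y⌋ : ℤ) : ℝ) := by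
      exact_mod_cast h2
    simp only [Int.cast_add, Int.cast_one] at h3
    rw [Int.cast_sub ⌊x⌋] at h3
    have := le_abs_self (x - y)
    linarith
  · simp [h1]
  · have h2 := cell_sep hM hθ0 hθ h.symm h1
    rw [abs_sub_comm, abs_of_pos (by omega)]
    have h3 : (((⌊y⌋ - θ) / M - (⌊x⌋ - θ) / M + 1 : ℤ) : ℝ) ≤ ((⌊y⌋ - ⌊x⌋ : ℤ) : ℝ) := by
      exact_mod_cast h2
    simp only [Int.cast_add, Int.cast_one] at h3
    rw [Int.cast_sub ⌊y⌋] at h3
    have := neg_le_abs (x - y)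
    linarith

lemma cell_diam {M : ℤ} (hM : 2 ≤ M) {θ : ℤ} {x y : ℝ}
    (h : (⌊x⌋ - θ) / M = (⌊y⌋ - θ) / M) : |x - y| < M := by
  have hM0 : 0 < M := by omega
  have ha := Int.mul_ediv_add_emod (⌊x⌋ - θ) M
  have hb := Int.mul_ediv_add_emod (⌊y⌋ - θ) M
  have ha1 := Int.emod_nonneg (⌊x⌋ - θ) hM0.ne'
  have ha2 := Int.emod_lt_of_pos (⌊x⌋ - θ) hM0
  have hb1 := Int.emod_nonneg (⌊y⌋ - θ) hM0.ne'
  have hb2 := Int.emod_lt_of_pos (⌊y⌋ - θ) hM0
  rw [h] at ha
  have h1 : ⌊x⌋ - ⌊y⌋ + 1 ≤ M := by omega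
  have h2 : ⌊y⌋ - ⌊x⌋ + 1 ≤ M := by omega
  have h3 : ((⌊x⌋ : ℝ)) - ⌊y⌋ + 1 ≤ M := by exact_mod_cast h1
  have h4 : ((⌊y⌋ : ℝ)) - ⌊x⌋ + 1 ≤ M := by exact_mod_cast h2
  have hx1 := Int.floor_le x
  have hx2 := Int.lt_floor_add_one x
  have hy1 := Int.floor_le y
  have hy2 := Int.lt_floor_add_one y
  rw [abs_lt]
  constructor <;> linarith

lemma colouring (M n : ℕ) (hM : 2 ≤ M) (hn : 0 < n) :
    ∃ c : (Fin n → ℝ) → Fin (M * (((univ : Finset (Finset (Fin n))).filter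
        fun B => B.card ≤ n / M).card * ((ball n (n / M + 1)).card + 1))),
      ∀ f : Fin (M * M + 1) → (Fin n → ℝ),
        (∀ i j : Fin (M * M + 1),
          ∑ t : Fin n, |f i t - f j t| = |((i : ℕ) : ℝ) - ((j : ℕ) : ℝ)|) →
        ∃ i j : Fin (M * M + 1), c (f i) ≠ c (f j) := by
  classical
  set R := n / M + 1 with hR
  have hR0 : (0 : ℝ) < R := by positivity
  obtain ⟨φ, hφ⟩ := greedy (fun v w : Fin n → ℤ => v ≠ w ∧ ∑ i, (v i - w i).natAbs ≤ R)
    (fun v w h => ⟨h.1.symm, by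
      have : ∀ i, (w i - v i).natAbs = (v i - w i).natAbs := fun i => by omega
      simp_rw [this]
      exact h.2⟩) (fun v h => h.1 rfl) (ball n R).card (fun v =>
      ⟨(ball n R).image (fun u => v - u), Finset.card_image_le, fun w hw =>
        Finset.mem_image.2 ⟨v - w, mem_ball hw.2, by simp⟩⟩)
  set z : (Fin n → ℝ) → Fin n → ℤ := fun x i => ⌊R * x i⌋ with hz
  choose θ hθ using fun x => exists_rare (M := M) (by omega) (z x)
  set 𝓑 := (univ : Finset (Finset (Fin n))).filter fun B => B.card ≤ n / M with h𝓑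
  set cell : (Fin n → ℝ) → Fin n → ℤ := fun x i => (z x i - (θ x : ℕ)) / M with hcell
  set col : (Fin n → ℝ) → Fin M × 𝓑 × Fin ((ball n R).card + 1) := fun x =>
    (θ x, ⟨univ.filter fun i => z x i % M = (θ x : ℕ), by simp [h𝓑, hθ x]⟩, φ (cell x)) with hcol
  have hcard : Fintype.card (Fin M × 𝓑 × Fin ((ball n R).card + 1)) =
      M * (𝓑.card * ((ball n R).card + 1)) := by simp
  refine ⟨fun x => Fintype.equivFinOfCardEq hcard (col x), fun f hf => ?_⟩
  by_contra hc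
  push Not at hc
  have hc' : ∀ i j, col (f i) = col (f j) := fun i j => (Equiv.injective _) (hc i j)
  have hM' : (2 : ℤ) ≤ M := by exact_mod_cast hM
  have step : ∀ i j : Fin (M * M + 1), (j : ℕ) = i + 1 → cell (f i) = cell (f j) := by
    intro i j hij
    have h1 := hc' i j
    simp only [hcol, Prod.mk.injEq, Subtype.mk.injEq] at h1
    obtain ⟨h2, h3, h4⟩ := h1
    by_contra hne
    refine hφ _ _ ⟨hne, ?_⟩ h4
    have h5 : ∀ t, (((cell (f i) t - cell (f j) t).natAbs : ℕ) : ℝ) ≤ R * |f i t - f j t| := by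
      intro t
      have h6 : z (f i) t % M = (θ (f j) : ℕ) ↔ z (f j) t % M = (θ (f j) : ℕ) := by
        have := congrArg (fun s => t ∈ s) h3
        simpa [h2] using this
      have h7 := cell_dist hM' (θ := (θ (f j) : ℕ)) (by positivity)
        (by exact_mod_cast (θ (f j)).2) h6
      rw [← mul_sub, abs_mul, abs_of_pos hR0] at h7
      simp only [hcell, h2]
      exact h7
    have h8 : ((∑ t, (cell (f i) t - cell (f j) t).natAbs : ℕ) : ℝ) ≤ R := by
      rw [Nat.cast_sum]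
      refine (Finset.sum_le_sum fun t _ => h5 t).trans ?_
      rw [← Finset.mul_sum, hf i j, hij]
      simp
    exact_mod_cast h8
  have all : ∀ i : Fin (M * M + 1), cell (f 0) = cell (f i) := by
    intro i
    induction i using Fin.induction with
    | zero => rfl
    | succ i ih => exact ih.trans (step _ _ (by simp))
  have h1 := all (Fin.last _)
  have h2 : θ (f 0) = θ (f (Fin.last _)) := congrArg Prod.fst (hc' _ _)
  have h3 : ∀ t, R * |f 0 t - f (Fin.last _) t| < M := by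
    intro t
    have h4 := congrFun h1 t
    simp only [hcell, h2] at h4
    have h5 := cell_diam hM' h4
    rw [← mul_sub, abs_mul, abs_of_pos hR0] at h5
    exact_mod_cast h5
  have : Nonempty (Fin n) := ⟨⟨0, hn⟩⟩
  have h4 := Finset.sum_lt_sum_of_nonempty (s := (univ : Finset (Fin n))) Finset.univ_nonempty
    fun t _ => h3 t
  rw [← Finset.mul_sum, hf] at h4
  simp only [Fin.val_zero, Nat.cast_zero, Fin.val_last, zero_sub, abs_neg, Nat.abs_cast,
    sum_const, card_univ, Fintype.card_fin, nsmul_eq_mul] at h4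
  have h5 : R * (M * M) < n * M := by exact_mod_cast h4
  have h6 := Nat.lt_mul_div_succ n (show 0 < M by omega)
  rw [← hR] at h6
  nlinarith

theorem main : ∀ ε : ℝ, 0 < ε → ∃ k : ℕ, ∀ η : ℝ, 0 < η → ∃ N : ℕ, ∀ n : ℕ, N ≤ n →
      ∃ m : ℕ, (m : ℝ) ≤ (1 + ε + η) ^ n ∧
        ∃ c : (Fin n → ℝ) → Fin m,
          ∀ f : Fin (k + 1) → (Fin n → ℝ),
            (∀ i j : Fin (k + 1),
              ∑ t : Fin n, |f i t - f j t| = |((i : ℕ) : ℝ) - ((j : ℕ) : ℝ)|) →
            ∃ i j : Fin (k + 1), c (f i) ≠ c (f j) := by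
  intro ε hε
  set t : ℝ := min (1 / 3) (ε / 12) with ht
  have ht0 : 0 < t := by positivity
  have ht1 : t ≤ 1 / 3 := min_le_left _ _
  have ht2 : t ≤ ε / 12 := min_le_right _ _
  obtain ⟨M0, hM0⟩ := pow_unbounded_of_one_lt t⁻¹ (show 1 < 1 + t by linarith)
  set M := M0 + 2 with hMd
  have hM : t⁻¹ ≤ (1 + t) ^ M :=
    hM0.le.trans (pow_le_pow_right₀ (by linarith) (by omega))
  refine ⟨M * M, fun η hη => ?_⟩
  obtain ⟨N, hN⟩ := pow_unbounded_of_one_lt (M * (2 * t⁻¹))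
    (show 1 < (1 + ε + η) / (1 + ε) by rw [one_lt_div (by linarith)]; linarith)
  refine ⟨N + 1, fun n hn => ⟨_, ?_, colouring M n (by omega) (by omega)⟩⟩
  have h1 := card_small ht0.le (by linarith) n (n / M)
  have h2 := card_ball ht0.le ht1 n (n / M + 1)
  set A : ℝ := (((univ : Finset (Finset (Fin n))).filter fun B => B.card ≤ n / M).card : ℝ)
  set B : ℝ := ((ball n (n / M + 1)).card : ℝ)
  have h3 : (t ^ (n / M))⁻¹ ≤ (1 + t) ^ n := by
    rw [← inv_pow]
    calc t⁻¹ ^ (n / M) ≤ ((1 + t) ^ M) ^ (n / M) := pow_le_pow_left₀ (by positivity) hM _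
      _ = (1 + t) ^ (M * (n / M)) := (pow_mul _ _ _).symm
      _ ≤ (1 + t) ^ n := pow_le_pow_right₀ (by linarith) (Nat.mul_div_le n M)
  have hp : 0 < t ^ (n / M) := by positivity
  have hA : A ≤ (1 + t) ^ n * (1 + t) ^ n := by
    calc A = A * t ^ (n / M) * (t ^ (n / M))⁻¹ := by field_simp
      _ ≤ (1 + t) ^ n * (1 + t) ^ n := by gcongr
  have hB : B ≤ t⁻¹ * ((1 + 3 * t) ^ n * (1 + t) ^ n) := by
    calc B = t⁻¹ * (B * t ^ (n / M + 1) * (t ^ (n / M))⁻¹) := by rw [pow_succ]; field_simp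
      _ ≤ t⁻¹ * ((1 + 3 * t) ^ n * (1 + t) ^ n) := by gcongr
  have hB1 : 1 ≤ t⁻¹ * ((1 + 3 * t) ^ n * (1 + t) ^ n) := by
    have h4 : 1 ≤ t⁻¹ := (one_le_inv₀ ht0).2 (by linarith)
    have h5 : 1 ≤ (1 + 3 * t) ^ n := one_le_pow₀ (by linarith)
    have h6 : 1 ≤ (1 + t) ^ n := one_le_pow₀ (by linarith)
    exact one_le_mul_of_one_le_of_one_le h4 (one_le_mul_of_one_le_of_one_le h5 h6)
  have h7 : (1 + t) * (1 + t) * ((1 + 3 * t) * (1 + t)) ≤ 1 + ε := by
    have h8 : t * t ≤ t / 3 := by nlinarith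
    have h9 : t * t * t ≤ t / 9 := by nlinarith
    have h10 : t * t * t * t ≤ t / 27 := by nlinarith
    nlinarith
  have h11 : (M : ℝ) * (2 * t⁻¹) ≤ ((1 + ε + η) / (1 + ε)) ^ n :=
    hN.le.trans (pow_le_pow_right₀ (by rw [one_le_div (by linarith)]; linarith) (by omega))
  push_cast
  calc (M : ℝ) * (A * (B + 1))
      ≤ M * (((1 + t) ^ n * (1 + t) ^ n) * (2 * (t⁻¹ * ((1 + 3 * t) ^ n * (1 + t) ^ n)))) := by
        gcongr
        linarith
    _ = M * (2 * t⁻¹) * ((1 + t) * (1 + t) * ((1 + 3 * t) * (1 + t))) ^ n := by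
        simp only [mul_pow]; ring
    _ ≤ ((1 + ε + η) / (1 + ε)) ^ n * (1 + ε) ^ n := by gcongr
    _ = (1 + ε + η) ^ n := by
        rw [← mul_pow]
        congr 1
        field_simp

end Pool.Agent.H31Z.Baton
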