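import Mathlib

/-!
The flux argument on the circle: for an irrational rotation by `α` there is no integrable integer
valued `j` with `j (-z - α) = 1 - j z` such that `z ↦ z + j z • α` preserves the measure.
-/

set_option autoImplicit false

namespace Pool.Agent.H31Z.Flux

open MeasureTheory Set
open scoped ENNReal Classical

/-- the circle -/
abbrev T := UnitAddCircle

/-- indicator of a proposition -/
noncomputable def ind (p : Prop) : ℝ≥0∞ := if p then 1 else 0

lemma tsum_ind (p : ℤ → Prop) : ∑' i, ind (p i) = ({i | p i}.encard : ℝ≥0∞) := by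
  rw [← ENNReal.tsum_set_one, tsum_subtype {i | p i} (fun _ => (1 : ℝ≥0∞))]
  refine tsum_congr fun i => ?_
  simp [ind, Set.indicator]

lemma tsum_ind_nat (p : ℤ → Prop) (h : ∑' i, ind (p i) ≠ ⊤) : ∃ n : ℕ, ∑' i, ind (p i) = n := by
  rw [tsum_ind] at h ⊢
  induction hn : {i | p i}.encard using ENat.recTopCoe with
  | top => simp [hn] at h
  | coe n => exact ⟨n, by simp⟩

lemma tsum_ind_le (p : ℤ → Prop) (a b : ℤ) (n : ℤ) (h : ∀ i, p i → a ≤ i ∧ i < b)
    (hn : b - a ≤ |n|) : ∑' i, ind (p i) ≤ ‖n‖ₑ := by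
  rw [tsum_ind]
  have h1 : {i | p i} ⊆ ((Finset.Ico a b : Finset ℤ) : Set ℤ) := by
    intro i hi
    simpa using h i hi
  have h2 := Set.encard_le_encard h1
  rw [Set.encard_coe_eq_coe_finsetCard, Int.card_Ico] at h2
  have h3 : (b - a).toNat ≤ n.natAbs := by
    have : |n| = n.natAbs := Int.abs_eq_natAbs n
    omega
  calc ({i | p i}.encard : ℝ≥0∞) ≤ (((b - a).toNat : ℕ∞) : ℝ≥0∞) := by exact_mod_cast h2
    _ = ((b - a).toNat : ℝ≥0∞) := by simp
    _ ≤ (n.natAbs : ℝ≥0∞) := by exact_mod_cast h3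
    _ = ‖n‖ₑ := by
      rw [enorm_eq_nnnorm, ← NNReal.natCast_natAbs]
      simp

lemma measurable_ind {j : T → ℤ} (hj : Measurable j) (p : ℤ → Prop) :
    Measurable (fun z => ind (p (j z))) :=
  (measurable_of_countable (fun n : ℤ => ind (p n))).comp hj

lemma mass_transport (α : T) (K : ℤ → T → ℝ≥0∞) (hK : ∀ i, Measurable (K i)) :
    ∫⁻ w, ∑' i, K i (w + i • α) = ∫⁻ z, ∑' i, K i z := by
  rw [lintegral_tsum (f := fun i w => K i (w + i • α))
      (fun i => ((hK i).comp (measurable_add_const _)).aemeasurable),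
    lintegral_tsum (fun i => (hK i).aemeasurable)]
  exact tsum_congr fun i => lintegral_add_right_eq_self (K i) _

lemma ae_shift (β : T) (p : T → Prop) (h : ∀ᵐ z, p z) : ∀ᵐ z, p (z + β) :=
  (measurePreserving_add_right volume β).quasiMeasurePreserving.ae h

lemma ae_neg (p : T → Prop) (h : ∀ᵐ z, p z) : ∀ᵐ z, p (-z) :=
  (Measure.measurePreserving_neg volume).quasiMeasurePreserving.ae h

theorem no_flux (α : T) (hα : addOrderOf α = 0) (j : T → ℤ) (hj : Measurable j)
    (hi : Integrable j volume) (hs : ∀ᵐ z, j (-z - α) = 1 - j z)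
    (hm : Measure.map (fun z => z + j z • α) volume = (volume : Measure T)) : False := by
  set Fp : T → ℝ≥0∞ := fun z => ∑' i : ℤ, ind (i < 0 ∧ 0 ≤ i + j (z + i • α)) with hFp
  set Fm : T → ℝ≥0∞ := fun z => ∑' i : ℤ, ind (0 ≤ i ∧ i + j (z + i • α) < 0) with hFm
  set mu : T → ℝ≥0∞ := fun z => ∑' i : ℤ, ind (i + j (z + i • α) = 0) with hmu
  have hmeas : ∀ p : ℤ → ℤ → Prop,
      Measurable (fun z : T => ∑' i : ℤ, ind (p i (j (z + i • α)))) := by
    intro p
    exact Measurable.tsum fun i => measurable_ind (hj.comp (measurable_add_const _)) (p i)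
  have mFp : Measurable Fp := hmeas (fun i n => i < 0 ∧ 0 ≤ i + n)
  have mFm : Measurable Fm := hmeas (fun i n => 0 ≤ i ∧ i + n < 0)
  have mmu : Measurable mu := hmeas (fun i n => i + n = 0)
  have hfin : ∫⁻ z, ‖j z‖ₑ < ⊤ := hi.2
  have fFp : ∀ᵐ z, Fp z < ⊤ := by
    refine ae_lt_top mFp (ne_of_lt (lt_of_le_of_lt ?_ hfin))
    rw [hFp, mass_transport α (fun i z => ind (i < 0 ∧ 0 ≤ i + j z))
      (fun i => measurable_ind hj (fun n => i < 0 ∧ 0 ≤ i + n))]
    refine lintegral_mono fun z => tsum_ind_le _ (-j z) 0 _ (fun i h => by omega) ?_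
    have := le_abs_self (j z)
    omega
  have fFm : ∀ᵐ z, Fm z < ⊤ := by
    refine ae_lt_top mFm (ne_of_lt (lt_of_le_of_lt ?_ hfin))
    rw [hFm, mass_transport α (fun i z => ind (0 ≤ i ∧ i + j z < 0))
      (fun i => measurable_ind hj (fun n => 0 ≤ i ∧ i + n < 0))]
    refine lintegral_mono fun z => tsum_ind_le _ 0 (-j z) _ (fun i h => by omega) ?_
    have := neg_le_abs (j z)
    omega
  have mψ : Measurable (fun z : T => z + j z • α) :=
    measurable_id.add ((measurable_of_countable (fun n : ℤ => n • α)).comp hj)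
  have hmu1 : ∀ᵐ z, mu z = 1 := by
    refine ae_eq_of_forall_setLIntegral_eq_of_sigmaFinite (g := fun _ => 1) mmu measurable_const
      fun s hs _ => ?_
    rw [← lintegral_indicator hs]
    have h1 : s.indicator mu = fun w => ∑' i : ℤ,
        (fun z => s.indicator 1 (z - i • α) * ind (i + j z = 0)) (w + i • α) := by
      funext w
      simp only [add_sub_cancel_right]
      rw [ENNReal.tsum_mul_left]
      by_cases hw : w ∈ s <;> simp [hw, hmu]
    rw [h1, mass_transport α (fun i z => s.indicator 1 (z - i • α) * ind (i + j z = 0))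
      (fun i => ((measurable_one.indicator hs).comp (measurable_sub_const _)).mul
        (measurable_ind hj (fun n => i + n = 0)))]
    have h2 : ∀ z : T, ∑' i : ℤ, s.indicator (1 : T → ℝ≥0∞) (z - i • α) * ind (i + j z = 0) =
        s.indicator 1 (z + j z • α) := by
      intro z
      rw [tsum_eq_single (-j z)]
      · simp [ind]
      · intro i hi
        have : ¬ (i + j z = 0) := by omega
        simp [ind, this]
    simp_rw [h2]
    rw [← lintegral_map (measurable_one.indicator hs) mψ, hm]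
    simp [lintegral_indicator hs]
  have id1 : ∀ z, Fp (z + α) + Fm z + mu z = Fp z + Fm (z + α) + 1 := by
    intro z
    have e1 : Fp (z + α) = ∑' i : ℤ, ind (i < 1 ∧ 1 ≤ i + j (z + i • α)) := by
      rw [← (Equiv.addRight (1 : ℤ)).tsum_eq]
      refine tsum_congr fun i => ?_
      simp only [Equiv.coe_addRight, add_smul, one_smul]
      rw [show z + α + i • α = z + (i • α + α) by abel]
      congr 1
      apply propext
      omega
    have e2 : Fm (z + α) = ∑' i : ℤ, ind (1 ≤ i ∧ i + j (z + i • α) < 1) := by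
      rw [← (Equiv.addRight (1 : ℤ)).tsum_eq]
      refine tsum_congr fun i => ?_
      simp only [Equiv.coe_addRight, add_smul, one_smul]
      rw [show z + α + i • α = z + (i • α + α) by abel]
      congr 1
      apply propext
      omega
    have e3 : (1 : ℝ≥0∞) = ∑' i : ℤ, ind (i = 0) := by
      rw [tsum_eq_single 0] <;> simp +contextual [ind]
    rw [e1, e2, e3]
    simp only [hFp, hFm, hmu, ← ENNReal.tsum_add]
    refine tsum_congr fun i => ?_
    generalize j (z + i • α) = n
    unfold ind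
    split_ifs <;> first | omega | simp
  have hs' : ∀ᵐ z, ∀ i : ℤ, j (-(z + i • α) - α) = 1 - j (z + i • α) := by
    rw [ae_all_iff]
    intro i
    exact ae_shift (i • α) (fun z => j (-z - α) = 1 - j z) hs
  have id2 : ∀ᵐ z, Fp (-z) + Fp z = Fm z + Fm (-z) + mu z := by
    filter_upwards [hs'] with z hz
    have e0 : ∀ i : ℤ, j (-z + (-1 - i) • α) = 1 - j (z + i • α) := by
      intro i
      rw [← hz i]
      congr 1
      simp only [sub_smul, neg_smul, one_smul]
      abel
    have e1 : Fp (-z) = ∑' i : ℤ, ind (0 ≤ i ∧ i + j (z + i • α) ≤ 0) := by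
      simp only [hFp]
      rw [← (Equiv.subLeft (-1 : ℤ)).tsum_eq]
      refine tsum_congr fun i => ?_
      simp only [Equiv.subLeft_apply, e0]
      congr 1
      apply propext
      omega
    have e2 : Fm (-z) = ∑' i : ℤ, ind (i < 0 ∧ 0 < i + j (z + i • α)) := by
      simp only [hFm]
      rw [← (Equiv.subLeft (-1 : ℤ)).tsum_eq]
      refine tsum_congr fun i => ?_
      simp only [Equiv.subLeft_apply, e0]
      congr 1
      apply propext
      omega
    rw [e1, e2]
    simp only [hFp, hFm, hmu, ← ENNReal.tsum_add]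
    refine tsum_congr fun i => ?_
    generalize j (z + i • α) = n
    unfold ind
    split_ifs <;> first | omega | simp
  have nat : ∀ᵐ z, ∃ a b : ℕ, Fp z = a ∧ Fm z = b := by
    filter_upwards [fFp, fFm] with z h1 h2
    obtain ⟨a, ha⟩ := tsum_ind_nat _ h1.ne
    obtain ⟨b, hb⟩ := tsum_ind_nat _ h2.ne
    exact ⟨a, b, ha, hb⟩
  set M : Set T := {z | Fm z < Fp z} with hM
  have mM : MeasurableSet M := measurableSet_lt mFm mFp
  have inv : (fun z => z + α) ⁻¹' M =ᵐ[volume] M := by
    filter_upwards [nat, ae_shift α (fun z => ∃ a b : ℕ, Fp z = a ∧ Fm z = b) nat,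
      hmu1] with z ⟨a, b, ha, hb⟩ ⟨c, d, hc, hd⟩ h1
    have h2 := id1 z
    rw [ha, hb, hc, hd, h1] at h2
    have h3 : c + b + 1 = a + d + 1 := by exact_mod_cast h2
    apply propext
    change Fm (z + α) < Fp (z + α) ↔ Fm z < Fp z
    rw [ha, hb, hc, hd]
    norm_cast
    omega
  have sym : ∀ᵐ z, (z ∈ M ↔ -z ∉ M) := by
    filter_upwards [nat, ae_neg (fun z => ∃ a b : ℕ, Fp z = a ∧ Fm z = b) nat,
      hmu1, id2] with z ⟨a, b, ha, hb⟩ ⟨c, d, hc, hd⟩ h1 h2
    rw [ha, hb, hc, hd, h1] at h2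
    have h3 : c + a = b + d + 1 := by exact_mod_cast h2
    change Fm z < Fp z ↔ ¬ Fm (-z) < Fp (-z)
    rw [ha, hb, hc, hd]
    norm_cast
    omega
  have hne : (ae (volume : Measure T)).NeBot := by
    rw [ae_neBot]
    intro h
    have := UnitAddCircle.measure_univ
    simp [h] at this
  rcases (AddCircle.ergodic_add_right.2 hα).quasiErgodic.ae_empty_or_univ₀
    mM.nullMeasurableSet inv with h | h
  · have h1 : ∀ᵐ z, z ∉ M := by
      filter_upwards [h] with z hz
      intro h2
      exact (hz.mp h2 : z ∈ (∅ : Set T))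
    obtain ⟨z, h2, h3, h4⟩ := (h1.and
      ((ae_neg (fun z => z ∉ M) h1).and sym)).exists
    tauto
  · have h1 : ∀ᵐ z, z ∈ M := by
      filter_upwards [h] with z hz
      exact hz.mpr (Set.mem_univ z)
    obtain ⟨z, h2, h3, h4⟩ := (h1.and
      ((ae_neg (fun z => z ∈ M) h1).and sym)).exists
    tauto

end Pool.Agent.H31Z.Flux
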