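import Mathlib

/-!
The gadget: a finite 2-group acting on a finite set `Ω`, a base word `P` and two directions `a`,
`b` of very different 1-norm such that `P + l a` and `P + l b` lie in one orbit for each `l` in a
prescribed finite set.
-/

set_option autoImplicit false

namespace Pool.Agent.H31Z.Gadget

open Finset

section sums
variable {Ω : Type} [Fintype Ω] {m : ℕ}

lemma sum_split (i : Fin m) (F : (Fin m → Ω) → ℤ) :
    ∑ π : Fin m → Ω, F π = ∑ ρ : ({j // j ≠ i} → Ω), ∑ ω : Ω,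
      F ((Equiv.funSplitAt i Ω).symm (ω, ρ)) := by
  rw [← Fintype.sum_prod_type_right']
  exact Fintype.sum_equiv (Equiv.funSplitAt i Ω) _ _ (fun x => by rw [Equiv.symm_apply_apply])

lemma sum_coord (i : Fin m) (f : Ω → ℤ) :
    ∑ π : Fin m → Ω, f (π i) = (Fintype.card Ω : ℤ) ^ (m - 1) * ∑ ω, f ω := by
  rw [sum_split i]
  have : ∀ (ρ : {j // j ≠ i} → Ω) (ω : Ω), (Equiv.funSplitAt i Ω).symm (ω, ρ) i = ω := by
    intro ρ ω
    simp [Equiv.funSplitAt, Equiv.piSplitAt]
  simp_rw [this]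
  simp [Fintype.card_subtype_compl]

lemma sum_cross {i j : Fin m} (hij : j ≠ i) (f g : Ω → ℤ) (hf : ∑ ω, f ω = 0) :
    ∑ π : Fin m → Ω, f (π i) * g (π j) = 0 := by
  rw [sum_split i]
  have h1 : ∀ (ρ : {j // j ≠ i} → Ω) (ω : Ω), (Equiv.funSplitAt i Ω).symm (ω, ρ) i = ω := by
    intro ρ ω
    simp [Equiv.funSplitAt, Equiv.piSplitAt]
  have h2 : ∀ (ρ : {j // j ≠ i} → Ω) (ω : Ω),
      (Equiv.funSplitAt i Ω).symm (ω, ρ) j = ρ ⟨j, hij⟩ := by
    intro ρ ω
    simp [Equiv.funSplitAt, Equiv.piSplitAt, hij]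
  simp_rw [h1, h2, ← Finset.sum_mul, hf]
  simp

lemma sum_sq (b : Ω → ℤ) (hb : ∑ ω, b ω = 0) :
    ∑ π : Fin m → Ω, (∑ i, b (π i)) ^ 2 =
      m * ((Fintype.card Ω : ℤ) ^ (m - 1) * ∑ ω, b ω ^ 2) := by
  have h1 : ∀ π : Fin m → Ω, (∑ i, b (π i)) ^ 2 = ∑ i, ∑ j, b (π i) * b (π j) := by
    intro π
    rw [sq, Finset.sum_mul_sum]
  simp_rw [h1]
  rw [Finset.sum_comm]
  have h2 : ∀ i : Fin m, ∑ π : Fin m → Ω, ∑ j, b (π i) * b (π j) =
      (Fintype.card Ω : ℤ) ^ (m - 1) * ∑ ω, b ω ^ 2 := by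
    intro i
    rw [Finset.sum_comm, Finset.sum_eq_single i]
    · rw [← sum_coord i (fun ω => b ω ^ 2)]
      simp [sq]
    · intro j _ hj
      exact sum_cross hj b b hb
    · simp
  simp_rw [h2]
  simp

omit [Fintype Ω] in
lemma sum_upd (F : Fin m → Ω → ℤ) (π : Fin m → Ω) (v : Fin m) (y : Ω) :
    ∑ i, F i (Function.update π v y i) = ∑ i, F i (π i) + (F v y - F v (π v)) := by
  rw [← Finset.add_sum_erase _ _ (Finset.mem_univ v),
    ← Finset.add_sum_erase _ (fun i => F i (π i)) (Finset.mem_univ v)]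
  have : ∑ i ∈ univ.erase v, F i (Function.update π v y i) = ∑ i ∈ univ.erase v, F i (π i) := by
    refine Finset.sum_congr rfl fun i hi => ?_
    rw [Function.update_of_ne (Finset.ne_of_mem_erase hi)]
  rw [this, Function.update_self]
  ring

end sums

/-- the gadget -/
def Gad (Λ : Finset ℤ) (K : ℕ) : Prop :=
  ∃ (Ω G : Type) (_ : Fintype Ω) (_ : Group G) (_ : Finite G) (_ : MulAction G Ω)
    (P a b : Ω → ℤ), (∃ n, Nat.card G = 2 ^ n) ∧ ∑ ω, a ω = 0 ∧ ∑ ω, b ω = 0 ∧
    (∀ l ∈ Λ, ∃ g : G, ∀ ω, P (g • ω) + l * a (g • ω) = P ω + l * b ω) ∧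
    K * ∑ ω, |a ω| < ∑ ω, |b ω|

lemma gad_empty (K : ℕ) : Gad ∅ K := by
  refine ⟨Bool, Unit, inferInstance, inferInstance, inferInstance,
    { smul := fun _ x => x, one_smul := fun _ => rfl, mul_smul := fun _ _ _ => rfl },
    fun _ => 0, fun _ => 0, fun x => if x then 1 else -1, ⟨0, by simp⟩, by simp, by simp, by simp,
    by simp⟩

section step
variable {Ω : Type} {m : ℕ}

/-- partial sums along the chain -/
def chain (a b : Ω → ℤ) (j : Fin (m + 1)) (π : Fin m → Ω) : ℤ :=
  ∑ i : Fin m, if i.val < j.val then b (π i) else a (π i)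

/-- the new direction -/
def dir (a b : Ω → ℤ) (j : Fin (m + 1)) (π : Fin m → Ω) : ℤ :=
  Fin.lastCases (motive := fun _ => ℤ) (∑ i, b (π i)) (fun v => a (π v)) j

@[simp] lemma dir_last (a b : Ω → ℤ) (π : Fin m → Ω) :
    dir a b (Fin.last m) π = ∑ i, b (π i) := by simp [dir]

@[simp] lemma dir_castSucc (a b : Ω → ℤ) (v : Fin m) (π : Fin m → Ω) :
    dir a b v.castSucc π = a (π v) := by simp [dir]

lemma chain_last (a b : Ω → ℤ) (π : Fin m → Ω) :
    chain a b (Fin.last m) π = ∑ i, b (π i) := by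
  simp [chain]

lemma chain_zero (a b : Ω → ℤ) (π : Fin m → Ω) :
    chain a b 0 π = ∑ i, a (π i) := by
  simp [chain]

lemma chain_succ (a b : Ω → ℤ) (j : Fin (m + 1)) (π : Fin m → Ω) :
    chain a b (j + 1) π = chain a b j π - dir a b j π + dir b a j π := by
  induction j using Fin.lastCases with
  | last => rw [Fin.last_add_one, chain_zero, chain_last, dir_last, dir_last]; ring
  | cast v =>
    rw [Fin.coeSucc_eq_succ, dir_castSucc, dir_castSucc]
    unfold chain
    rw [← Finset.add_sum_erase _ _ (Finset.mem_univ v),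
      ← Finset.add_sum_erase _ (fun i : Fin m => if i.val < v.castSucc.val then b (π i) else a (π i))
        (Finset.mem_univ v)]
    have : ∑ i ∈ univ.erase v, (if i.val < v.succ.val then b (π i) else a (π i)) =
        ∑ i ∈ univ.erase v, (if i.val < v.castSucc.val then b (π i) else a (π i)) := by
      refine Finset.sum_congr rfl fun i hi => ?_
      have h1 : i.val ≠ v.val := fun h => Finset.ne_of_mem_erase hi (Fin.ext h)
      have : i.val < v.succ.val ↔ i.val < v.castSucc.val := by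
        simp only [Fin.val_succ, Fin.val_castSucc]; omega
      simp only [this]
    rw [this]
    simp
    ring

lemma chain_upd (a b : Ω → ℤ) (v : Fin m) (π : Fin m → Ω) (y : Ω) :
    chain a b v.castSucc (Function.update π v y) = chain a b v.castSucc π + (a y - a (π v)) := by
  unfold chain
  rw [sum_upd (fun i ω => if i.val < v.castSucc.val then b ω else a ω)]
  simp

lemma sum_dir [Fintype Ω] (F : Fin (m + 1) → (Fin m → Ω) → ℤ) :
    ∑ p : (Fin m → Ω) × Multiplicative (Fin (m + 1)), F p.2.toAdd p.1 =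
      ∑ v : Fin m, ∑ π, F v.castSucc π + ∑ π, F (Fin.last m) π := by
  rw [Fintype.sum_prod_type_right, ← Fin.sum_univ_castSucc (fun j => ∑ π, F j π)]
  exact Fintype.sum_equiv Multiplicative.toAdd _ _ (fun _ => rfl)

end step

lemma gad_insert {Λ : Finset ℤ} {K : ℕ} (h : Gad Λ K) (l0 : ℤ) : Gad (insert l0 Λ) K := by
  obtain ⟨Ω, G, _, _, _, _, P, a, b, ⟨n, hn⟩, ha, hb, hΛ, hK⟩ := h
  set N : ℤ := (Fintype.card Ω : ℤ) with hN
  set V : ℤ := ∑ ω, b ω ^ 2 with hV
  obtain ⟨e, he⟩ : ∃ e : ℕ, (K : ℤ) ^ 2 * N * V + 1 < 2 ^ e := pow_unbounded_of_one_lt _ one_lt_two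
  have hV0 : 0 ≤ V := Finset.sum_nonneg fun _ _ => sq_nonneg _
  have hN0 : 0 < N := by
    rcases isEmpty_or_nonempty Ω with h | h
    · simp at hK
    · simp [hN, Fintype.card_pos]
  have hKNV : 0 ≤ (K : ℤ) ^ 2 * N * V := by positivity
  obtain ⟨m, hm⟩ : ∃ m : ℕ, 2 ^ e = m + 1 := Nat.exists_eq_succ_of_ne_zero (by positivity)
  have hm2 : (K : ℤ) ^ 2 * N * V < m := by
    have : (2 : ℤ) ^ e = m + 1 := by exact_mod_cast hm
    linarith
  have hm0 : 0 < m := by
    have : (0 : ℤ) < m := by linarith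
    exact_mod_cast this
  refine ⟨(Fin m → Ω) × Multiplicative (Fin (m + 1)),
    RegularWreathProduct (Fin m → G) (Multiplicative (Fin (m + 1))), inferInstance, inferInstance,
    inferInstance, inferInstance,
    fun p => ∑ i, P (p.1 i) + l0 * (chain a b p.2.toAdd p.1 - dir a b p.2.toAdd p.1),
    fun p => dir a b p.2.toAdd p.1, fun p => dir b a p.2.toAdd p.1, ?_, ?_, ?_, ?_, ?_⟩
  · refine ⟨n * m * (m + 1) + e, ?_⟩
    rw [RegularWreathProduct.card, Nat.card_fun, hn]
    simp only [Nat.card_eq_fintype_card, Fintype.card_fin, Fintype.card_multiplicative]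
    rw [pow_add 2, hm, pow_mul, pow_mul]
  · rw [sum_dir (dir a b)]
    simp only [dir_castSucc, dir_last]
    rw [Finset.sum_comm (f := fun (π : Fin m → Ω) (i : Fin m) => b (π i))]
    simp [sum_coord, ha, hb]
  · rw [sum_dir (dir b a)]
    simp only [dir_castSucc, dir_last]
    rw [Finset.sum_comm (f := fun (π : Fin m → Ω) (i : Fin m) => a (π i))]
    simp [sum_coord, ha, hb]
  · intro l hl
    rcases Finset.mem_insert.1 hl with rfl | hl
    · refine ⟨⟨1, Multiplicative.ofAdd 1⟩, ?_⟩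
      rintro ⟨π, q⟩
      simp only [RegularWreathProduct.smul_def, Pi.one_apply, one_smul, toAdd_mul, toAdd_ofAdd]
      rw [add_comm (1 : Fin (m + 1)), chain_succ]
      ring
    · obtain ⟨g, hg⟩ := hΛ l hl
      refine ⟨⟨fun q => Fin.lastCases (motive := fun _ => Fin m → G) (fun _ => g⁻¹)
        (fun v => Function.update 1 v g) q.toAdd, 1⟩, ?_⟩
      rintro ⟨π, q⟩
      simp only [RegularWreathProduct.smul_def, one_mul]
      generalize q.toAdd = j
      induction j using Fin.lastCases with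
      | last =>
        simp only [Fin.lastCases_last, chain_last, dir_last, sub_self, mul_zero, add_zero,
          Finset.mul_sum, ← Finset.sum_add_distrib]
        refine Finset.sum_congr rfl fun i _ => ?_
        have := hg (g⁻¹ • π i)
        rw [smul_inv_smul] at this
        simpa using this.symm
      | cast v =>
        have h1 : (Function.update (1 : Fin m → G) v g) • π = Function.update π v (g • π v) := by
          funext i
          by_cases hi : i = v
          · subst hi; simp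
          · simp [hi]
        simp only [Fin.lastCases_castSucc, dir_castSucc, h1, chain_upd, Function.update_self]
        rw [sum_upd (fun _ ω => P ω)]
        have := hg (π v)
        linear_combination this
  · rw [sum_dir (fun j π => |dir a b j π|), sum_dir (fun j π => |dir b a j π|)]
    simp only [dir_castSucc, dir_last]
    simp_rw [sum_coord _ (fun ω => |a ω|), sum_coord _ (fun ω => |b ω|)]
    simp only [Finset.sum_const, Finset.card_univ, Fintype.card_fin, nsmul_eq_mul]
    rw [← hN]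
    set T : ℤ := N ^ (m - 1) with hT
    have hT0 : 0 < T := by positivity
    set W : ℤ := ∑ π : Fin m → Ω, |∑ i, b (π i)| with hW
    have hW' : 0 ≤ ∑ π : Fin m → Ω, |∑ i, a (π i)| := Finset.sum_nonneg fun _ _ => abs_nonneg _
    have hNT : N * T = N ^ m := by
      rw [hT, ← pow_succ']
      congr 1
      omega
    have h1 : W ^ 2 ≤ N * T * (m * (T * V)) := by
      have := sq_sum_le_card_mul_sum_sq (s := (univ : Finset (Fin m → Ω)))
        (f := fun π => |∑ i, b (π i)|)
      simp only [sq_abs] at this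
      rw [sum_sq b hb] at this
      rw [hNT]
      simpa [hN] using this
    have hmz : (0 : ℤ) < m := by exact_mod_cast hm0
    have h2 : (K * W) ^ 2 < (m * T) ^ 2 := by
      calc (K * W) ^ 2 = K ^ 2 * W ^ 2 := by ring
        _ ≤ K ^ 2 * (N * T * (m * (T * V))) := by gcongr
        _ = (K ^ 2 * N * V) * (m * T ^ 2) := by ring
        _ < m * (m * T ^ 2) := by gcongr
        _ = (m * T) ^ 2 := by ring
    have h3 : K * W < m * T := lt_of_pow_lt_pow_left₀ 2 (by positivity) h2
    have h4 : m * T * (K * ∑ ω, |a ω| + 1) ≤ m * T * ∑ ω, |b ω| := by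
      have : K * ∑ ω, |a ω| + 1 ≤ ∑ ω, |b ω| := hK
      gcongr
    nlinarith

lemma gad (Λ : Finset ℤ) (K : ℕ) : Gad Λ K := by
  classical
  induction Λ using Finset.induction_on with
  | empty => exact gad_empty K
  | insert l Λ _ ih => exact gad_insert ih l

/-- the symmetric gadget -/
lemma gad_symm (r K : ℕ) :
    ∃ (Ω G : Type) (_ : Fintype Ω) (_ : Group G) (_ : Finite G) (_ : MulAction G Ω)
      (P a b : Ω → ℤ), (∃ n, Nat.card G = 2 ^ n) ∧
      (∀ l : ℤ, |l| ≤ r → ∃ g : G, ∀ ω, P (g • ω) + |l| * a (g • ω) = P ω + l * a ω) ∧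
      (∀ l : ℤ, |l| ≤ r → ∃ g : G, ∀ ω, P (g • ω) + |l| * a (g • ω) = P ω + l * b ω) ∧
      K * ∑ ω, |a ω| < ∑ ω, |b ω| := by
  obtain ⟨Ω, G, _, _, _, _, P, a, b, ⟨n, hn⟩, -, -, hΛ, hK⟩ := gad (Finset.Icc (-(r : ℤ)) r) K
  set s : Multiplicative (Fin 2) → ℤ := fun q => if q = 1 then 1 else -1 with hs
  have hs1 : ∀ q, s (Multiplicative.ofAdd 1 * q) = - s q := by decide
  have hs2 : ∀ q, |s q| = 1 := by decide
  have hA : ∀ l : ℤ, ∃ g : RegularWreathProduct G (Multiplicative (Fin 2)),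
      ∀ p : Ω × Multiplicative (Fin 2), (g • p).1 = p.1 ∧ |l| * s (g • p).2 = l * s p.2 := by
    intro l
    rcases le_total 0 l with h | h
    · exact ⟨1, fun p => by simp [abs_of_nonneg h]⟩
    · refine ⟨⟨1, Multiplicative.ofAdd 1⟩, fun p => ?_⟩
      simp [abs_of_nonpos h, hs1]
  refine ⟨Ω × Multiplicative (Fin 2), RegularWreathProduct G (Multiplicative (Fin 2)),
    inferInstance, inferInstance, inferInstance, inferInstance, fun p => P p.1,
    fun p => s p.2 * a p.1, fun p => s p.2 * b p.1, ?_, ?_, ?_, ?_⟩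
  · refine ⟨n * 2 + 1, ?_⟩
    rw [RegularWreathProduct.card, hn]
    simp only [Nat.card_eq_fintype_card, Fintype.card_fin, Fintype.card_multiplicative]
    rw [pow_add, pow_mul, pow_one]
  · intro l _
    obtain ⟨g, hg⟩ := hA l
    refine ⟨g, fun p => ?_⟩
    obtain ⟨h1, h2⟩ := hg p
    simp only [h1]
    linear_combination (a p.1) * h2
  · intro l hl
    obtain ⟨g, hg⟩ := hA l
    have h3 : ∀ q, l * s q ∈ Finset.Icc (-(r : ℤ)) r := by
      intro q
      rw [Finset.mem_Icc, ← abs_le, abs_mul, hs2, mul_one]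
      exact hl
    choose γ hγ using fun q => hΛ _ (h3 q)
    refine ⟨g * ⟨γ, 1⟩, fun p => ?_⟩
    obtain ⟨h1, h2⟩ := hg ((⟨γ, 1⟩ : RegularWreathProduct G (Multiplicative (Fin 2))) • p)
    simp only [mul_smul, h1]
    have h5 : (⟨γ, 1⟩ : RegularWreathProduct G (Multiplicative (Fin 2))) • p
        = (γ p.2 • p.1, p.2) := by simp
    rw [h5] at h2 ⊢
    simp only at h2 ⊢
    have h4 := hγ p.2 p.1
    linear_combination (a (γ p.2 • p.1)) * h2 + h4
  · simp only [abs_mul, hs2, one_mul, Fintype.sum_prod_type, Finset.sum_const, Finset.card_univ,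
      Fintype.card_multiplicative, Fintype.card_fin, nsmul_eq_mul, ← Finset.mul_sum]
    push_cast
    linarith

end Pool.Agent.H31Z.Gadget
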