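import Mathlib

/-!
A Hales-Jewett type property of finite 2-groups (after Kriz): for a finite 2-group `G` acting on a
finite set `X`, every finite colouring of a high power of `X` admits a template with a prescribed
number of active coordinates on which the colour is constant along orbits of `G`.
-/

set_option autoImplicit false

namespace Pool.Agent.H31Z.Kriz

open Finset
open scoped Classical

variable {G X : Type} [Group G] [MulAction G X]

/-- apply a template -/
def app {α ι : Type} (τ : ι → (α × G) ⊕ X) (x : α → X) : ι → X :=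
  fun i => Sum.elim (fun p => p.2 • x p.1) id (τ i)

/-- the input coordinate read by an output coordinate -/
def act {α ι : Type} (τ : ι → (α × G) ⊕ X) (i : ι) : Option α :=
  Sum.elim (fun p => some p.1) (fun _ => none) (τ i)

/-- indicator of a proposition -/
noncomputable def ind (p : Prop) : ℕ := if p then 1 else 0

lemma ind_true {p : Prop} (h : p) : ind p = 1 := by simp [ind, h]

lemma ind_false {p : Prop} (h : ¬ p) : ind p = 0 := by simp [ind, h]

@[simp] lemma ind_True : ind True = 1 := ind_true trivial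

@[simp] lemma ind_False : ind False = 0 := ind_false id

lemma sum_ind_eq {α : Type} [Fintype α] (a : α) : ∑ x, ind (x = a) = 1 := by
  simp [ind]

lemma sum_ind_mul {α : Type} [Fintype α] (a : α) (f : α → ℕ) : ∑ x, ind (a = x) * f x = f a := by
  simp [ind]

/-- every input coordinate is read by exactly `d` output coordinates -/
def Unif {α ι : Type} [Fintype ι] (τ : ι → (α × G) ⊕ X) (d : ℕ) : Prop :=
  ∀ a, ∑ i, ind (act τ i = some a) = d

variable (G) in
/-- the Ramsey property of a relation -/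
def Ram (α : Type) (R : (α → X) → (α → X) → Prop) : Prop :=
  ∀ (κ : Type) [Finite κ], ∃ (ι : Type) (_ : Fintype ι) (d : ℕ), 0 < d ∧
    ∀ c : (ι → X) → κ, ∃ τ : ι → (α × G) ⊕ X, Unif τ d ∧
      ∀ x y, R x y → c (app τ x) = c (app τ y)

/-- composition of templates -/
def comp {α β ι : Type} (τ : ι → (α × G) ⊕ X) (σ : α → (β × G) ⊕ X) : ι → (β × G) ⊕ X :=
  fun i => Sum.elim (fun p => Sum.map (fun q => (q.1, p.2 * q.2)) (fun c => p.2 • c) (σ p.1))
    Sum.inr (τ i)

lemma app_comp {α β ι : Type} (τ : ι → (α × G) ⊕ X) (σ : α → (β × G) ⊕ X) (x : β → X) :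
    app (comp τ σ) x = app τ (app σ x) := by
  funext i
  unfold app comp
  rcases h : τ i with p | c
  · rcases h2 : σ p.1 with q | c
    · simp [h2, mul_smul]
    · simp [h2]
  · simp

lemma act_comp {α β ι : Type} (τ : ι → (α × G) ⊕ X) (σ : α → (β × G) ⊕ X) (i : ι) :
    act (comp τ σ) i = (act τ i).bind (act σ) := by
  unfold act comp
  rcases h : τ i with p | c
  · rcases h2 : σ p.1 with q | c
    · simp [h2]
    · simp [h2]
  · simp

lemma unif_comp {α β ι : Type} [Fintype ι] [Fintype α] {τ : ι → (α × G) ⊕ X}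
    {σ : α → (β × G) ⊕ X} {d e : ℕ} (hτ : Unif τ d) (hσ : Unif σ e) :
    Unif (comp τ σ) (d * e) := by
  intro b
  have h1 : ∀ i, ind (act (comp τ σ) i = some b) =
      ∑ a, ind (act τ i = some a) * ind (act σ a = some b) := by
    intro i
    rw [act_comp]
    rcases h : act τ i with _ | a
    · simp
    · simp only [Option.bind_some, Option.some.injEq]
      rw [sum_ind_mul a (fun x => ind (act σ x = some b))]
  simp_rw [h1]
  rw [Finset.sum_comm]
  simp_rw [← Finset.sum_mul, hτ _]
  rw [← Finset.mul_sum, hσ b]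

lemma Ram.of_comp {β : Type} {S : (β → X) → (β → X) → Prop}
    (h : ∀ (κ : Type) [Finite κ], ∃ (α : Type) (_ : Fintype α)
      (R : (α → X) → (α → X) → Prop) (e : ℕ), 0 < e ∧ Ram G α R ∧
      ∀ c : (α → X) → κ, (∀ x y, R x y → c x = c y) →
        ∃ σ : α → (β × G) ⊕ X, Unif σ e ∧ ∀ x y, S x y → c (app σ x) = c (app σ y)) :
    Ram G β S := by
  intro κ _
  obtain ⟨α, _, R, e, he, hR, h2⟩ := h κ
  obtain ⟨ι, _, d, hd, h3⟩ := hR κ
  refine ⟨ι, inferInstance, d * e, Nat.mul_pos hd he, fun c => ?_⟩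
  obtain ⟨τ, hτ, h4⟩ := h3 c
  obtain ⟨σ, hσ, h5⟩ := h2 (fun x => c (app τ x)) h4
  refine ⟨comp τ σ, unif_comp hτ hσ, fun x y hxy => ?_⟩
  rw [app_comp, app_comp]
  exact h5 x y hxy

lemma Ram.mono {α : Type} {R S : (α → X) → (α → X) → Prop} (h : Ram G α R)
    (hS : ∀ x y, S x y → R x y) : Ram G α S := by
  intro κ _
  obtain ⟨ι, _, d, hd, h3⟩ := h κ
  refine ⟨ι, inferInstance, d, hd, fun c => ?_⟩
  obtain ⟨τ, hτ, h4⟩ := h3 c
  exact ⟨τ, hτ, fun x y hxy => h4 x y (hS x y hxy)⟩

lemma Ram.equiv {α β : Type} [Fintype α] {R : (α → X) → (α → X) → Prop} (h : Ram G α R)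
    (e : α ≃ β) : Ram G β (fun x y => R (x ∘ e) (y ∘ e)) := by
  refine Ram.of_comp fun κ _ => ⟨α, inferInstance, R, 1, one_pos, h, fun c hc => ?_⟩
  refine ⟨fun a => Sum.inl (e a, 1), ?_, fun x y hxy => ?_⟩
  · intro b
    have : ∀ a, (act (fun a => (Sum.inl (e a, 1) : (β × G) ⊕ X)) a = some b) ↔ a = e.symm b := by
      intro a
      simp [act, Equiv.eq_symm_apply]
    simp_rw [this]
    exact sum_ind_eq _
  · have : ∀ x : β → X, app (fun a => (Sum.inl (e a, 1) : (β × G) ⊕ X)) x = x ∘ e := by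
      intro x
      funext a
      simp [app]
    rw [this, this]
    exact hc _ _ hxy

lemma Ram.sum [Finite X] {α β : Type} [Finite α] {R : (α → X) → (α → X) → Prop}
    {S : (β → X) → (β → X) → Prop} (hR : Ram G α R) (hS : Ram G β S) :
    Ram G (α ⊕ β) (fun x y => R (x ∘ Sum.inl) (y ∘ Sum.inl) ∧ S (x ∘ Sum.inr) (y ∘ Sum.inr)) := by
  intro κ _
  obtain ⟨ι2, _, d2, hd2, h2⟩ := hS ((α → X) → κ)
  obtain ⟨ι1, _, d1, hd1, h1⟩ := hR ((ι2 → X) → κ)
  refine ⟨(ι1 × Fin d2) ⊕ (ι2 × Fin d1), inferInstance, d1 * d2, Nat.mul_pos hd1 hd2, fun c => ?_⟩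
  set c0 : (ι1 → X) → (ι2 → X) → κ :=
    fun x1 x2 => c (Sum.elim (x1 ∘ Prod.fst) (x2 ∘ Prod.fst)) with hc0
  obtain ⟨τ1, hτ1, h3⟩ := h1 c0
  obtain ⟨τ2, hτ2, h4⟩ := h2 (fun x2 y => c0 (app τ1 y) x2)
  set τ : (ι1 × Fin d2) ⊕ (ι2 × Fin d1) → ((α ⊕ β) × G) ⊕ X :=
    Sum.elim (fun p => Sum.map (Prod.map Sum.inl id) id (τ1 p.1))
      (fun p => Sum.map (Prod.map Sum.inr id) id (τ2 p.1)) with hτ
  have hl : ∀ p, act τ (Sum.inl p) = (act τ1 p.1).map Sum.inl := by
    intro p
    simp only [act, hτ, Sum.elim_inl]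
    rcases τ1 p.1 with q | q <;> simp
  have hr : ∀ p, act τ (Sum.inr p) = (act τ2 p.1).map Sum.inr := by
    intro p
    simp only [act, hτ, Sum.elim_inr]
    rcases τ2 p.1 with q | q <;> simp
  have happ : ∀ x, c (app τ x) = c0 (app τ1 (x ∘ Sum.inl)) (app τ2 (x ∘ Sum.inr)) := by
    intro x
    simp only [hc0]
    congr 1
    funext i
    rcases i with p | p
    · simp only [app, hτ, Sum.elim_inl, Function.comp]
      rcases τ1 p.1 with q | q <;> simp
    · simp only [app, hτ, Sum.elim_inr, Function.comp]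
      rcases τ2 p.1 with q | q <;> simp
  refine ⟨τ, ?_, fun x y hxy => ?_⟩
  · intro a
    rw [Fintype.sum_sum_type]
    simp_rw [hl, hr]
    rcases a with a | b
    · have := hτ1 a
      simp only [Fintype.sum_prod_type, Option.map_eq_some_iff, Sum.inl.injEq, exists_eq_right,
        reduceCtorEq, and_false, exists_false, ind_False, add_zero, sum_const, mul_zero,
        card_univ, Fintype.card_fin, smul_eq_mul]
      rw [← Finset.mul_sum, this, mul_comm]
    · have := hτ2 b
      simp only [Fintype.sum_prod_type, Option.map_eq_some_iff, Sum.inr.injEq, exists_eq_right,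
        reduceCtorEq, and_false, exists_false, ind_False, zero_add, sum_const, mul_zero,
        card_univ, Fintype.card_fin, smul_eq_mul]
      rw [← Finset.mul_sum, this]
  · rw [happ, happ, h3 _ _ hxy.1]
    exact congrFun (h4 _ _ hxy.2) _

variable (G) in
/-- the Ramsey property of a relation on `X` -/
def Ram1 (E : X → X → Prop) : Prop := Ram G Unit (fun x y => E (x ()) (y ()))

lemma Ram1.pow [Finite X] {E : X → X → Prop} (h : Ram1 G E) (n : ℕ) :
    Ram G (Fin n) (fun x y => ∀ i, E (x i) (y i)) := by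
  induction n with
  | zero =>
    intro κ _
    refine ⟨Empty, inferInstance, 1, one_pos, fun c => ⟨fun i => i.elim, fun a => a.elim0, ?_⟩⟩
    intro x y _
    congr 1
    funext i
    exact i.elim
  | succ n ih =>
    have h1 := (Ram.sum ih h).equiv
      ((Equiv.optionEquivSumPUnit (Fin n)).symm.trans (finSuccEquiv n).symm)
    refine h1.mono ?_
    intro x y hxy
    exact ⟨fun i => hxy _, hxy _⟩

lemma Ram1.eqvGen {E : X → X → Prop} (h : Ram1 G E) : Ram1 G (Relation.EqvGen E) := by
  intro κ _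
  obtain ⟨ι, _, d, hd, h3⟩ := h κ
  refine ⟨ι, inferInstance, d, hd, fun c => ?_⟩
  obtain ⟨τ, hτ, h4⟩ := h3 c
  refine ⟨τ, hτ, ?_⟩
  have : ∀ a b, Relation.EqvGen E a b → c (app τ (fun _ => a)) = c (app τ (fun _ => b)) := by
    intro a b hab
    induction hab with
    | rel a b h => exact h4 _ _ h
    | refl a => rfl
    | symm a b _ ih => exact ih.symm
    | trans a b e _ _ ih1 ih2 => exact ih1.trans ih2
  intro x y hxy
  exact this _ _ hxy

lemma Ram1.mono {E F : X → X → Prop} (h : Ram1 G E) (hF : ∀ x y, F x y → E x y) : Ram1 G F :=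
  Ram.mono h (fun _ _ hxy => hF _ _ hxy)

lemma Ram1.step [Finite X] {E : X → X → Prop} (h : Ram1 G E) (b : G) (z : X)
    (hb : ∀ x y, E x y → Relation.EqvGen E (b • x) (b • y))
    (hz : Relation.EqvGen E (b • b • z) z) :
    Ram1 G (fun x y => E x y ∨ (x = z ∧ y = b • z)) := by
  refine Ram.of_comp fun κ _ => ?_
  let _ := Fintype.ofFinite κ
  refine ⟨Fin (Fintype.card κ + 1), inferInstance, _, 2, two_pos,
    h.eqvGen.pow (Fintype.card κ + 1), fun c hc => ?_⟩
  obtain ⟨i, j, hij, hc2⟩ := Fintype.exists_ne_map_eq_of_card_lt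
    (fun i : Fin (Fintype.card κ + 1) => c (fun n => if n = i then b • z else z)) (by simp)
  set σ : Fin (Fintype.card κ + 1) → (Unit × G) ⊕ X :=
    fun n => if n = i then Sum.inl ((), 1) else if n = j then Sum.inl ((), b) else Sum.inr z with hσ
  have happ : ∀ (x : Unit → X) n, app σ x n =
      if n = i then x () else if n = j then b • x () else z := by
    intro x n
    simp only [app, hσ]
    split_ifs <;> simp
  refine ⟨σ, ?_, ?_⟩
  · intro a
    have : ∀ n, ind (act σ n = some a) = ind (n = i) + ind (n = j) := by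
      intro n
      simp only [act, hσ]
      by_cases h1 : n = i
      · have h2 : n ≠ j := h1 ▸ hij
        simp [h1, hij]
      · by_cases h2 : n = j
        · simp [h2, hij.symm]
        · simp [h1, h2]
    simp_rw [this]
    rw [Finset.sum_add_distrib, sum_ind_eq, sum_ind_eq]
  · rintro x y (hxy | ⟨hx, hy⟩)
    · apply hc
      intro n
      rw [happ, happ]
      split_ifs
      · exact Relation.EqvGen.rel _ _ hxy
      · exact hb _ _ hxy
      · exact Relation.EqvGen.refl _
    · have h1 : app σ x = fun n => if n = j then b • z else z := by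
        funext n
        rw [happ, hx]
        by_cases h1 : n = i
        · have h2 : n ≠ j := h1 ▸ hij
          simp [h1, hij]
        · simp [h1]
      rw [h1, ← hc2]
      apply hc
      intro n
      rw [happ, hy]
      split_ifs
      · exact Relation.EqvGen.refl _
      · exact Relation.EqvGen.symm _ _ hz
      · exact Relation.EqvGen.refl _

lemma Ram1.step_all [Finite X] {E : X → X → Prop} (h : Ram1 G E) (b : G)
    (hb : ∀ x y, E x y → E (b • x) (b • y)) (hz : ∀ z, E (b • b • z) z) :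
    Ram1 G (Relation.EqvGen (fun x y => E x y ∨ y = b • x)) := by
  let _ := Fintype.ofFinite X
  have key : ∀ Z : Finset X, Ram1 G (fun x y => E x y ∨ (x ∈ Z ∧ y = b • x)) := by
    intro Z
    induction Z using Finset.induction_on with
    | empty => exact h.mono (by simp)
    | insert z Z _ ih =>
      refine (ih.step b z ?_ ?_).mono ?_
      · rintro x y (hxy | ⟨hx, hy⟩)
        · exact Relation.EqvGen.rel _ _ (Or.inl (hb _ _ hxy))
        · subst hy
          refine Relation.EqvGen.symm _ _ (Relation.EqvGen.trans _ x _ ?_ ?_)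
          · exact Relation.EqvGen.rel _ _ (Or.inl (hz x))
          · exact Relation.EqvGen.rel _ _ (Or.inr ⟨hx, rfl⟩)
      · exact Relation.EqvGen.rel _ _ (Or.inl (hz z))
      · rintro x y (hxy | ⟨hx, hy⟩)
        · exact Or.inl (Or.inl hxy)
        · rcases Finset.mem_insert.1 hx with rfl | hx
          · exact Or.inr ⟨rfl, hy⟩
          · exact Or.inl (Or.inr ⟨hx, hy⟩)
  exact ((key Finset.univ).mono (by
    rintro x y (h | h)
    · exact Or.inl h
    · exact Or.inr ⟨Finset.mem_univ _, h⟩)).eqvGen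

lemma ram1_subgroup [Finite X] [Finite G] (n : ℕ) (hn : 2 ^ n ∣ Nat.card G) :
    ∃ H : Subgroup G, Nat.card H = 2 ^ n ∧ Ram1 G (fun x y : X => ∃ h ∈ H, y = h • x) := by
  induction n with
  | zero =>
    refine ⟨⊥, by simp, ?_⟩
    intro κ _
    refine ⟨Unit, inferInstance, 1, one_pos, fun c => ⟨fun _ => Sum.inl ((), 1), ?_, ?_⟩⟩
    · intro a
      simp [act]
    · rintro x y ⟨h, hh, hy⟩
      rw [Subgroup.mem_bot] at hh
      subst hh
      rw [one_smul] at hy
      have : x = y := by
        funext u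
        exact hy.symm
      rw [this]
  | succ n ih =>
    obtain ⟨H, hH, hR⟩ := ih (Dvd.dvd.trans (pow_dvd_pow 2 (Nat.le_succ n)) hn)
    have : Fact (Nat.Prime 2) := ⟨Nat.prime_two⟩
    obtain ⟨K, hK, hHK⟩ := Sylow.exists_subgroup_card_pow_succ hn hH
    refine ⟨K, hK, ?_⟩
    have hidx : (H.subgroupOf K).index = 2 := by
      have h1 := (H.subgroupOf K).card_mul_index
      rw [Nat.card_congr (Subgroup.subgroupOfEquivOfLe hHK).toEquiv, hH, hK, pow_succ] at h1
      exact Nat.eq_of_mul_eq_mul_left (by positivity) h1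
    obtain ⟨a, ha⟩ := Subgroup.index_eq_two_iff.1 hidx
    have ha' : ∀ g : G, g ∈ K → Xor (g * a ∈ H) (g ∈ H) := by
      intro g hg
      simpa [Subgroup.mem_subgroupOf] using ha ⟨g, hg⟩
    have h1 : (a : G) ∉ H := by
      have := ha' 1 K.one_mem
      rcases this with h | h
      · exact absurd H.one_mem h.2
      · simpa using h.2
    have h2 : (a : G) * a ∈ H := by
      rcases ha' a a.2 with h | h
      · exact h.1
      · exact absurd h.1 h1
    have h3 : ∀ h ∈ H, (a : G) * h * (a : G)⁻¹ ∈ H := by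
      intro h hh
      rcases ha' ((a : G) * h * (a : G)⁻¹)
        (K.mul_mem (K.mul_mem a.2 (hHK hh)) (K.inv_mem a.2)) with h4 | h4
      · exfalso
        apply h1
        have h5 := H.mul_mem h4.1 (H.inv_mem hh)
        simpa using h5
      · exact h4.1
    refine (hR.step_all (a : G) ?_ ?_).mono ?_
    · rintro x y ⟨h, hh, rfl⟩
      exact ⟨_, h3 h hh, by simp [mul_smul]⟩
    · intro z
      exact ⟨_, H.inv_mem h2, by simp [mul_smul]⟩
    · rintro x y ⟨g, hg, rfl⟩
      rcases ha' g hg with h4 | h4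
      · refine Relation.EqvGen.trans _ ((a : G) • x) _ (Relation.EqvGen.rel _ _ (Or.inr rfl))
          (Relation.EqvGen.rel _ _ (Or.inl ⟨_, H.mul_mem h4.1 (H.inv_mem h2), ?_⟩))
        simp [mul_smul]
      · exact Relation.EqvGen.rel _ _ (Or.inl ⟨g, h4.1, rfl⟩)

theorem kriz [Finite X] [Finite G] (n : ℕ) (hn : Nat.card G = 2 ^ n) :
    Ram1 G (fun x y : X => ∃ g : G, y = g • x) := by
  obtain ⟨H, hH, hR⟩ := ram1_subgroup (G := G) (X := X) n (by rw [hn])
  have : H = ⊤ := Subgroup.eq_top_of_card_eq H (hH.trans hn.symm)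
  subst this
  exact hR.mono (fun x y ⟨g, hg⟩ => ⟨g, Subgroup.mem_top g, hg⟩)

end Pool.Agent.H31Z.Kriz
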