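import Pool.Agent.H31Z.Kriz
import Pool.Agent.H31Z.Gadget

/-!
Monochromatic generated cubes (hence generated 1-norm balls) with generators of a prescribed 1-norm.
-/

set_option autoImplicit false

namespace Pool.Agent.H31Z.L1Ball

open Finset Kriz

/-- Linear form of the Ramsey property of 2-groups. -/
lemma linear_kriz {J Ω G : Type} [Fintype J] [Fintype Ω] [Group G] [Finite G] [MulAction G Ω]
    (hG : ∃ n, Nat.card G = 2 ^ n) (S : Finset ℤ) (κ : Type) [Finite κ] :
    ∃ (n d : ℕ), 0 < d ∧ ∀ c : (Fin n → ℤ) → κ,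
      ∃ (x0 : Fin n → ℤ) (L : (J → Ω → ℤ) →ₗ[ℤ] (Fin n → ℤ)),
        (∀ u, ∑ i, |L u i| = d * ∑ j, ∑ ω, |u j ω|) ∧
        (∀ u v : J → Ω → ℤ, (∀ j, u j = 0 ∨ v j = 0) → ∀ i, L u i = 0 ∨ L v i = 0) ∧
        ∀ f f' : J → Ω → ℤ, (∀ j ω, f j ω ∈ S) →
          (∀ j, ∃ g : G, ∀ ω, f j (g • ω) = f' j ω) → c (x0 + L f) = c (x0 + L f') := by
  classical
  obtain ⟨n0, hn0⟩ := hG
  let _ : MulAction G (Ω → Option S) := arrowAction
  have hsm : ∀ (g : G) (y : Ω → Option S) (ω : Ω), (g • y) ω = y (g⁻¹ • ω) := fun _ _ _ => rfl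
  have hcard : Nat.card (J → G) = 2 ^ (n0 * Nat.card J) := by
    rw [Nat.card_fun, hn0, pow_mul]
  obtain ⟨ι, _, d, hd, h⟩ := kriz (G := J → G) (X := J → Ω → Option S) _ hcard κ
  set n := Fintype.card (ι × J × Ω)
  set e : Fin n ≃ ι × J × Ω := (Fintype.equivFin _).symm
  set val : Option S → ℤ := fun o => o.elim 0 Subtype.val with hval
  set toB : ℤ → Option S := fun x => if h : x ∈ S then some ⟨x, h⟩ else none with htoB
  have hvt : ∀ x ∈ S, val (toB x) = x := by
    intro x hx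
    simp [hval, htoB, hx]
  refine ⟨n, d, hd, fun c => ?_⟩
  obtain ⟨τ, hτ, hc⟩ := h (fun y => c (fun i => val (y (e i).1 (e i).2.1 (e i).2.2)))
  set x0 : Fin n → ℤ := fun i =>
    Sum.elim (fun _ => 0) (fun y => val (y (e i).2.1 (e i).2.2)) (τ (e i).1) with hx0
  set L0 : (J → Ω → ℤ) → ι × J × Ω → ℤ := fun u p =>
    Sum.elim (fun q => u p.2.1 ((q.2 p.2.1)⁻¹ • p.2.2)) (fun _ => 0) (τ p.1) with hL0
  set L : (J → Ω → ℤ) →ₗ[ℤ] (Fin n → ℤ) :=
    { toFun := fun u i => L0 u (e i)
      map_add' := by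
        intro u v
        funext i
        simp only [hL0, Pi.add_apply]
        rcases τ (e i).1 with q | q <;> simp
      map_smul' := by
        intro a u
        funext i
        simp only [hL0, Pi.smul_apply]
        rcases τ (e i).1 with q | q <;> simp } with hL
  have hLa : ∀ u i, L u i = L0 u (e i) := fun _ _ => rfl
  have happ : ∀ f : J → Ω → ℤ, (∀ j ω, f j ω ∈ S) → x0 + L f = fun i =>
      val (app τ (fun _ => fun j ω => toB (f j ω)) (e i).1 (e i).2.1 (e i).2.2) := by
    intro f hf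
    funext i
    simp only [Pi.add_apply, hLa, hx0, hL0, app]
    rcases τ (e i).1 with q | q
    · simp only [Sum.elim_inl, zero_add, Pi.smul_apply', hsm]
      rw [hvt _ (hf _ _)]
    · simp
  refine ⟨x0, L, ?_, ?_, ?_⟩
  · intro u
    simp_rw [hLa]
    rw [Fintype.sum_equiv e _ (fun p => |L0 u p|) (fun _ => rfl), Fintype.sum_prod_type]
    have h1 : ∀ i : ι, ∑ p : J × Ω, |L0 u (i, p)| =
        (ind (act τ i = some ()) : ℤ) * ∑ j, ∑ ω, |u j ω| := by
      intro i
      simp only [hL0, act]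
      rcases τ i with q | q
      · simp only [Sum.elim_inl, ind_True, Nat.cast_one, one_mul, Fintype.sum_prod_type]
        refine Finset.sum_congr rfl fun j _ => ?_
        exact Fintype.sum_equiv (MulAction.toPerm (q.2 j)⁻¹) _ _ (fun _ => rfl)
      · simp
    simp_rw [h1]
    rw [← Finset.sum_mul, ← Nat.cast_sum, hτ ()]
  · intro u v huv i
    simp only [hLa, hL0]
    rcases τ (e i).1 with q | q
    · rcases huv (e i).2.1 with h | h
      · left; simp [h]
      · right; simp [h]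
    · simp
  · intro f f' hf hg
    choose g hg using hg
    have hf' : ∀ j ω, f' j ω ∈ S := fun j ω => hg j ω ▸ hf j _
    rw [happ f hf, happ f' hf']
    refine hc (fun _ => fun j ω => toB (f j ω)) (fun _ => fun j ω => toB (f' j ω)) ⟨g⁻¹, ?_⟩
    funext j ω
    simp only [Pi.smul_apply', hsm, Pi.inv_apply, inv_inv, hg]

theorem cube (r t k : ℕ) : ∃ d n : ℕ, 0 < d ∧
      ∀ c : (Fin n → ℤ) → Fin k,
        ∃ u : Fin t → Fin n → ℤ,
          (∀ i i' : Fin t, i ≠ i' → ∀ j : Fin n, u i j = 0 ∨ u i' j = 0) ∧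
          (∀ i : Fin t, ∑ j : Fin n, |u i j| = (d : ℤ)) ∧
          ∃ x : Fin n → ℤ, ∀ l : Fin t → ℤ, (∀ i, |l i| ≤ (r : ℤ)) →
            c (x + ∑ i : Fin t, l i • u i) = c x := by
  classical
  obtain ⟨H, _, hH⟩ :=
    Combinatorics.Subspace.exists_mono_in_high_dimension (Fin (r + 1)) (Fin k) (Fin t)
  set N := Fintype.card H with hN
  obtain ⟨Ω, G, _, _, _, _, P, a, b, hG, ha, hb, hK⟩ := Gadget.gad_symm r (N + 1)
  obtain ⟨α, hα⟩ : ∃ α : ℕ, ∑ ω, |a ω| = α :=
    ⟨_, (Int.toNat_of_nonneg (Finset.sum_nonneg fun _ _ => abs_nonneg _)).symm⟩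
  obtain ⟨β, hβ⟩ : ∃ β : ℕ, ∑ ω, |b ω| = β :=
    ⟨_, (Int.toNat_of_nonneg (Finset.sum_nonneg fun _ _ => abs_nonneg _)).symm⟩
  have hK' : (N + 1) * α < β := by
    rw [hα, hβ] at hK
    exact_mod_cast hK
  obtain ⟨δ, hδ⟩ : ∃ δ, β = α + δ := Nat.exists_eq_add_of_le (by nlinarith)
  have hδ0 : 0 < δ := by nlinarith
  set M := N.factorial * δ with hM
  set S : Finset ℤ := ((univ : Finset Ω) ×ˢ Finset.Icc (-(r : ℤ)) r).image
    (fun p => P p.1 + p.2 * a p.1) with hS
  obtain ⟨n, d, hd, h⟩ := linear_kriz (J := H × Fin M) (Ω := Ω) hG S (Fin k)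
  refine ⟨d * (M * β), n, ?_, fun c => ?_⟩
  · have : 0 < β := by omega
    have := N.factorial_pos
    positivity
  obtain ⟨x0, L, hL1, hL2, hL3⟩ := h c
  set W : (H → Fin (r + 1)) → (H × Fin M → Ω → ℤ) :=
    fun w j ω => P ω + ((w j.1 : ℕ) : ℤ) * a ω with hW
  have hWS : ∀ w j ω, W w j ω ∈ S := by
    intro w j ω
    refine Finset.mem_image.2 ⟨(ω, ((w j.1 : ℕ) : ℤ)), ?_, rfl⟩
    have := (w j.1).2
    simp only [Finset.mem_product, Finset.mem_univ, Finset.mem_Icc, true_and]
    omega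
  obtain ⟨l, c0, hl⟩ := hH (fun w => c (x0 + L (W w)))
  set q : Fin t → ℕ := fun s => #{h | l.idxFun h = Sum.inr s} with hq
  have hq0 : ∀ s, 0 < q s := by
    intro s
    obtain ⟨h, hh⟩ := l.proper s
    exact Finset.card_pos.2 ⟨h, by simpa using hh⟩
  have hqN : ∀ s, q s ≤ N := fun s => Finset.card_le_univ _
  have hμ : ∀ s, ∃ μ : ℕ, μ ≤ M ∧ q s * (M * α + μ * δ) = M * β := by
    intro s
    obtain ⟨y, hy⟩ := Nat.dvd_factorial (hq0 s) (hqN s)
    obtain ⟨z, hz⟩ : ∃ z, β = q s * α + z := Nat.exists_eq_add_of_le (by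
      have := hqN s
      nlinarith)
    refine ⟨y * z, ?_, ?_⟩
    · rw [hM, hy]
      have h1 : z ≤ q s * δ := by
        have := hq0 s
        nlinarith
      calc y * z ≤ y * (q s * δ) := Nat.mul_le_mul_left _ h1
        _ = q s * y * δ := by ring
    · rw [hM, hy]
      conv_rhs => rw [hz]
      ring
  choose μ hμM hμ using hμ
  set U : Fin t → (H × Fin M → Ω → ℤ) := fun s j =>
    if l.idxFun j.1 = Sum.inr s then (if j.2.val < μ s then b else a) else 0 with hU
  refine ⟨fun s => L (U s), ?_, ?_, x0 + L (W (l 0)), ?_⟩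
  · intro s s' hss
    refine hL2 _ _ fun j => ?_
    by_cases h1 : l.idxFun j.1 = Sum.inr s
    · right
      have : l.idxFun j.1 ≠ Sum.inr s' := by
        rw [h1]
        simpa using hss
      simp [hU, this]
    · left
      simp [hU, h1]
  · intro s
    rw [hL1, Fintype.sum_prod_type]
    have h1 : ∀ h : H, ∑ m : Fin M, ∑ ω, |U s (h, m) ω| =
        if l.idxFun h = Sum.inr s then ((M * α + μ s * δ : ℕ) : ℤ) else 0 := by
      intro h
      by_cases h2 : l.idxFun h = Sum.inr s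
      · have h3 : ∀ m : Fin M, ∑ ω, |U s (h, m) ω| = α + if m.val < μ s then (δ : ℤ) else 0 := by
          intro m
          simp only [hU, h2, if_true]
          split_ifs
          · rw [hβ, hδ]; push_cast; ring
          · rw [hα]; ring
        simp_rw [h3]
        rw [if_pos h2, Finset.sum_add_distrib, ← Finset.sum_filter]
        have h4 : #{m : Fin M | m.val < μ s} = μ s := by
          rw [Fin.card_filter_val_lt]
          exact min_eq_right (hμM s)
        simp [h4]
      · simp [hU, h2]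
    simp_rw [h1]
    rw [← Finset.sum_filter, Finset.sum_const, nsmul_eq_mul]
    have := hμ s
    simp only [hq] at this
    rw [← this]
    push_cast
    ring
  · intro lam hlam
    set w : Fin t → Fin (r + 1) := fun s => ⟨(lam s).natAbs, by
      have := abs_le.1 (hlam s)
      omega⟩ with hw
    have h1 := hl w
    have h2 := hl 0
    simp only at h1 h2
    rw [h2, ← h1]
    have h3 : x0 + L (W (l 0)) + ∑ i, lam i • L (U i) = x0 + L (W (l 0) + ∑ i, lam i • U i) := by
      rw [map_add, map_sum, add_assoc]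
      simp only [map_smul]
    rw [h3]
    symm
    refine hL3 _ _ (hWS _) fun j => ?_
    rcases h4 : l.idxFun j.1 with y | s
    · refine ⟨1, fun ω => ?_⟩
      simp [hW, hU, h4, Combinatorics.Subspace.apply_inl h4]
    · have h5 : ∀ ω, (W (l 0) + ∑ i, lam i • U i) j ω =
          P ω + lam s * (if j.2.val < μ s then b else a) ω := by
        intro ω
        simp only [Pi.add_apply, Finset.sum_apply, Pi.smul_apply, smul_eq_mul]
        rw [Finset.sum_eq_single s]
        · simp [hW, hU, h4, Combinatorics.Subspace.apply_inr h4]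
        · intro s' _ hs'
          simp [hU, h4, hs'.symm]
        · simp
      have h6 : ∀ ω, W (l w) j ω = P ω + |lam s| * a ω := by
        intro ω
        simp [hW, Combinatorics.Subspace.apply_inr h4, hw]
      simp_rw [h5, h6]
      split_ifs
      · exact hb _ (hlam s)
      · exact ha _ (hlam s)

end Pool.Agent.H31Z.L1Ball
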