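import Pool.Agent.H31Z.SqSpace

/-!
Rigidity of the spaces of sections: an isometry transports the distribution of the local type.
-/

set_option autoImplicit false

namespace Pool.Agent.H31Z.Sq

open MeasureTheory Set Flux Filter Topology

variable {α : T} {ν ν' : Measure T}

/-- betweenness for the squared distance -/
def Btw {M : Type} [MetricSpace M] (F G H : M) : Prop :=
  dist F G ^ 2 + dist G H ^ 2 = dist F H ^ 2

lemma btw_map {M N : Type} [MetricSpace M] [MetricSpace N] (φ : M ≃ᵢ N) (F G H : M) :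
    Btw (φ F) (φ G) (φ H) ↔ Btw F G H := by
  simp [Btw, φ.dist_eq]

lemma btw_iff (F G H : Sp α ν) :
    Btw F G H ↔ ∀ᵐ x ∂ν, G.val x = F.val x ∨ G.val x = H.val x := by
  have hi := ((integrable_D (α := α) F.int G.int).add (integrable_D (α := α) G.int H.int)).sub
    (integrable_D (α := α) F.int H.int)
  have h1 := integral_eq_zero_iff_of_nonneg (fun x => by
    have := D_triangle (α := α) x (F.val x) (G.val x) (H.val x)
    simpa using this) hi
  simp only [Pi.sub_apply, Pi.add_apply] at h1
  have ha : Integrable (fun x => D α x (F.val x) (G.val x) + D α x (G.val x) (H.val x)) ν :=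
    (integrable_D (α := α) F.int G.int).add (integrable_D (α := α) G.int H.int)
  rw [integral_sub ha (integrable_D (α := α) F.int H.int),
    integral_add (integrable_D (α := α) F.int G.int) (integrable_D (α := α) G.int H.int),
    sub_eq_zero] at h1
  unfold Btw
  rw [dist_sq, dist_sq, dist_sq]
  unfold rho
  rw [h1]
  refine eventually_congr (Eventually.of_forall fun x => ?_)
  simp only [Pi.sub_apply, Pi.add_apply, Pi.zero_apply]
  constructor
  · intro h
    by_contra hc
    push Not at hc
    have := D_strict (α := α) (x := x) hc.1 hc.2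
    linarith
  · rintro (h | h) <;> simp [h, D_self]

lemma full_iff [IsFiniteMeasure ν] (F G : Sp α ν) :
    (∀ᵐ x ∂ν, F.val x ≠ G.val x) ↔ ∀ H, Btw H F G → H = F := by
  constructor
  · intro h H hH
    rw [btw_iff] at hH
    refine Sp.ext_ae ?_
    filter_upwards [h, hH] with x h1 h2
    tauto
  · intro h
    have mS : MeasurableSet {x | F.val x = G.val x} := measurableSet_eq_fun F.meas G.meas
    have hi : Integrable (fun x => F.val x + {x | F.val x = G.val x}.indicator 1 x) ν :=
      F.int.add ((integrable_const (1 : ℤ)).indicator mS)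
    have h1 := mk'_ae (α := α) _ hi
    have h2 := h (mk' α _ hi) (by
      rw [btw_iff]
      filter_upwards [h1] with x hx
      by_cases h3 : F.val x = G.val x
      · exact Or.inr h3
      · left
        rw [hx]
        simp [h3])
    rw [h2] at h1
    filter_upwards [h1] with x hx h3
    simp [h3] at hx

lemma full_map [IsFiniteMeasure ν] [IsFiniteMeasure ν'] (φ : Sp α ν ≃ᵢ Sp α ν') {F G : Sp α ν}
    (h : ∀ᵐ x ∂ν, F.val x ≠ G.val x) : ∀ᵐ x ∂ν', (φ F).val x ≠ (φ G).val x := by
  rw [full_iff] at h ⊢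
  intro H hH
  obtain ⟨H, rfl⟩ := φ.surjective H
  rw [h H ((btw_map φ _ _ _).1 hH)]

/-- three sections that are everywhere consecutive -/
structure Frame (α : T) (ν : Measure T) (g0 gp gm : Sp α ν) : Prop where
  h1 : ∀ᵐ x ∂ν, D α x (g0.val x) (gp.val x) = 2
  h2 : ∀ᵐ x ∂ν, D α x (g0.val x) (gm.val x) = 2
  h3 : ∀ᵐ x ∂ν, D α x (gp.val x) (gm.val x) = 3 + ‖x + g0.val x • α‖

lemma measurable_theta {g : T → ℤ} (hg : Measurable g) : Measurable (fun x => ‖x + g x • α‖) :=
  (measurable_id.add ((measurable_of_countable (fun n : ℤ => n • α)).comp hg)).norm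

lemma integrable_theta [IsFiniteMeasure ν] {g : T → ℤ} (hg : Measurable g) :
    Integrable (fun x => ‖x + g x • α‖) ν :=
  Integrable.of_bound (measurable_theta hg).aestronglyMeasurable (1 / 2)
    (Eventually.of_forall fun x => by simpa using norm_le_half _)

lemma adj_map [IsFiniteMeasure ν] [IsFiniteMeasure ν'] (φ : Sp α ν ≃ᵢ Sp α ν')
    (hm : ν.real univ = ν'.real univ) {F G : Sp α ν} (h : ∀ᵐ x ∂ν, D α x (F.val x) (G.val x) = 2) :
    ∀ᵐ x ∂ν', D α x ((φ F).val x) ((φ G).val x) = 2 := by
  have h0 : ∀ᵐ x ∂ν, F.val x ≠ G.val x := by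
    filter_upwards [h] with x hx h1
    rw [h1, D_self] at hx
    norm_num at hx
  have h1 := full_map φ h0
  have h2 : rho α ν' (φ F).val (φ G).val = 2 * ν'.real univ := by
    rw [← dist_sq, φ.dist_eq, dist_sq, ← hm]
    unfold rho
    rw [integral_congr_ae h]
    simp [mul_comm]
  have hi := (integrable_D (α := α) (φ F).int (φ G).int).sub (integrable_const (2 : ℝ))
  have h3 := (integral_eq_zero_iff_of_nonneg_ae (by
    filter_upwards [h1] with x hx
    have := two_le_D (α := α) (x := x) hx
    simpa using this) hi).1 (by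
      simp only [Pi.sub_apply]
      rw [integral_sub (integrable_D (α := α) (φ F).int (φ G).int) (integrable_const (2 : ℝ))]
      unfold rho at h2
      rw [h2]
      simp [mul_comm])
  filter_upwards [h3] with x hx
  simpa [sub_eq_zero] using hx

lemma Frame.map [IsFiniteMeasure ν] [IsFiniteMeasure ν'] (φ : Sp α ν ≃ᵢ Sp α ν')
    (hm : ν.real univ = ν'.real univ) {g0 gp gm : Sp α ν} (h : Frame α ν g0 gp gm) :
    Frame α ν' (φ g0) (φ gp) (φ gm) := by
  have h1 := adj_map φ hm h.h1
  have h2 := adj_map φ hm h.h2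
  have h0 : ∀ᵐ x ∂ν, gp.val x ≠ gm.val x := by
    filter_upwards [h.h3] with x hx h1
    rw [h1, D_self] at hx
    have := norm_nonneg (x + g0.val x • α)
    linarith
  refine ⟨h1, h2, ?_⟩
  filter_upwards [h1, h2, full_map φ h0] with x h1 h2 h3
  rcases D_eq_two h1 with h4 | h4 <;> rcases D_eq_two h2 with h5 | h5
  · exact absurd (h4.trans h5.symm) h3
  · rw [h4, h5, D_two]
  · rw [h4, h5, D_comm, D_two]
  · exact absurd (h4.trans h5.symm) h3

lemma Frame.calc [IsFiniteMeasure ν] {g0 gp gm : Sp α ν} (h : Frame α ν g0 gp gm) (H : Sp α ν)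
    {S : Set T} (mS : MeasurableSet S)
    (hH : ∀ᵐ x ∂ν, (x ∈ S → H.val x = gp.val x) ∧ (x ∉ S → H.val x = g0.val x)) :
    dist g0 H ^ 2 = 2 * ν.real S ∧
      dist H gm ^ 2 = 2 * ν.real univ + ν.real S + ∫ x in S, ‖x + g0.val x • α‖ ∂ν := by
  rw [dist_sq, dist_sq]
  unfold rho
  constructor
  · have h1 : ∀ᵐ x ∂ν, D α x (g0.val x) (H.val x) = S.indicator (fun _ => (2 : ℝ)) x := by
      filter_upwards [hH, h.h1] with x h1 h2
      by_cases hx : x ∈ S
      · rw [h1.1 hx, h2, indicator_of_mem hx]
      · rw [h1.2 hx, D_self, indicator_of_notMem hx]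
    rw [integral_congr_ae h1, integral_indicator mS]
    simp [mul_comm]
  · have h1 : ∀ᵐ x ∂ν, D α x (H.val x) (gm.val x) =
        2 + S.indicator (fun x => 1 + ‖x + g0.val x • α‖) x := by
      filter_upwards [hH, h.h2, h.h3] with x h1 h2 h3
      by_cases hx : x ∈ S
      · rw [h1.1 hx, h3, indicator_of_mem hx]; ring
      · rw [h1.2 hx, h2, indicator_of_notMem hx]; ring
    have h2 := integrable_theta (α := α) (ν := ν) g0.meas
    have h3 : Integrable (fun x => 1 + ‖x + g0.val x • α‖) ν := (integrable_const (1 : ℝ)).add h2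
    rw [integral_congr_ae h1, integral_add (integrable_const _)
      (h3.indicator mS), integral_indicator mS,
      integral_add (integrable_const _) h2.integrableOn]
    simp [mul_comm, add_assoc]

lemma Frame.transfer [IsFiniteMeasure ν] [IsFiniteMeasure ν'] (φ : Sp α ν ≃ᵢ Sp α ν')
    (hm : ν.real univ = ν'.real univ) {g0 gp gm : Sp α ν} (h : Frame α ν g0 gp gm)
    {S : Set T} (mS : MeasurableSet S) :
    ∃ S', MeasurableSet S' ∧ ν.real S = ν'.real S' ∧
      ∫ x in S, ‖x + g0.val x • α‖ ∂ν = ∫ x in S', ‖x + (φ g0).val x • α‖ ∂ν' := by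
  classical
  have hi : Integrable (S.piecewise gp.val g0.val) ν :=
    Integrable.piecewise mS gp.int.integrableOn g0.int.integrableOn
  set H := mk' α _ hi with hH
  have h1 : ∀ᵐ x ∂ν, (x ∈ S → H.val x = gp.val x) ∧ (x ∉ S → H.val x = g0.val x) := by
    filter_upwards [mk'_ae (α := α) _ hi] with x hx
    constructor <;> intro h2 <;> rw [hx] <;> simp [h2]
  have h2 : Btw g0 H gp := by
    rw [btw_iff]
    filter_upwards [h1] with x hx
    tauto
  have h3 := (btw_iff _ _ _).1 ((btw_map φ _ _ _).2 h2)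
  have mS' : MeasurableSet {x | (φ H).val x = (φ g0).val x}ᶜ :=
    (measurableSet_eq_fun (φ H).meas (φ g0).meas).compl
  obtain ⟨h4, h5⟩ := h.calc H mS h1
  obtain ⟨h6, h7⟩ := (h.map φ hm).calc (φ H) mS' (by
    filter_upwards [h3] with x hx
    simp only [mem_compl_iff, mem_ofPred_eq, not_not]
    tauto)
  rw [φ.dist_eq] at h6 h7
  refine ⟨_, mS', by linarith, by linarith⟩

lemma excess_le [IsFiniteMeasure ν] [IsFiniteMeasure ν'] {θ θ' : T → ℝ} (mθ : Measurable θ)
    (iθ : Integrable θ ν) (iθ' : Integrable θ' ν')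
    (h : ∀ S, MeasurableSet S → ∃ S', MeasurableSet S' ∧ ν.real S = ν'.real S' ∧
      ∫ x in S, θ x ∂ν = ∫ x in S', θ' x ∂ν') (q : ℝ) :
    ∫ x, max (θ x - q) 0 ∂ν ≤ ∫ x, max (θ' x - q) 0 ∂ν' := by
  have mS : MeasurableSet {x | q ≤ θ x} := measurableSet_le measurable_const mθ
  obtain ⟨S', mS', h1, h2⟩ := h _ mS
  have h3 : (fun x => max (θ x - q) 0) = {x | q ≤ θ x}.indicator (fun x => θ x - q) := by
    funext x
    by_cases hx : q ≤ θ x
    · rw [indicator_of_mem (show x ∈ {x | q ≤ θ x} from hx), max_eq_left (by linarith)]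
    · rw [indicator_of_notMem (show x ∉ {x | q ≤ θ x} from hx), max_eq_right (by linarith)]
  have h4 : ∫ x, max (θ x - q) 0 ∂ν = ∫ x, S'.indicator (fun x => θ' x - q) x ∂ν' := by
    rw [h3, integral_indicator mS, integral_indicator mS',
      integral_sub iθ.integrableOn (integrable_const _),
      integral_sub iθ'.integrableOn (integrable_const _), h2]
    simp [h1]
  rw [h4]
  refine integral_mono ((iθ'.sub (integrable_const q)).indicator mS')
    (iθ'.sub (integrable_const q)).pos_part fun x => ?_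
  by_cases hx : x ∈ S'
  · rw [indicator_of_mem hx]; exact le_max_left _ _
  · rw [indicator_of_notMem hx]; exact le_max_right _ _

lemma tail_le [IsFiniteMeasure ν] [IsFiniteMeasure ν'] {θ θ' : T → ℝ} (mθ : Measurable θ)
    (mθ' : Measurable θ') (iθ : Integrable θ ν) (iθ' : Integrable θ' ν')
    (h : ∀ q, ∫ x, max (θ x - q) 0 ∂ν = ∫ x, max (θ' x - q) 0 ∂ν') (a : ℝ) :
    ν {x | a ≤ θ x} ≤ ν' {x | a ≤ θ' x} := by
  have key : ∀ q < a, ν {x | a ≤ θ x} ≤ ν' {x | q ≤ θ' x} := by
    intro q hq
    have mS : MeasurableSet {x | a ≤ θ x} := measurableSet_le measurable_const mθ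
    have mS' : MeasurableSet {x | q ≤ θ' x} := measurableSet_le measurable_const mθ'
    have i1 : ∀ q : ℝ, Integrable (fun x => max (θ x - q) 0) ν :=
      fun q => (iθ.sub (integrable_const q)).pos_part
    have i2 : ∀ q : ℝ, Integrable (fun x => max (θ' x - q) 0) ν' :=
      fun q => (iθ'.sub (integrable_const q)).pos_part
    have h1 : (a - q) * ν.real {x | a ≤ θ x} ≤
        ∫ x, max (θ x - q) 0 ∂ν - ∫ x, max (θ x - a) 0 ∂ν := by
      rw [← integral_sub (i1 q) (i1 a), mul_comm, ← smul_eq_mul, ← setIntegral_const,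
        ← integral_indicator mS]
      refine integral_mono ((integrable_const _).indicator mS) ((i1 q).sub (i1 a)) fun x => ?_
      simp only [Pi.sub_apply]
      by_cases hx : a ≤ θ x
      · rw [indicator_of_mem (show x ∈ {x | a ≤ θ x} from hx), max_eq_left (by linarith),
          max_eq_left (by linarith)]
        linarith
      · rw [indicator_of_notMem (show x ∉ {x | a ≤ θ x} from hx),
          max_eq_right (show θ x - a ≤ 0 by linarith), sub_zero]
        exact le_max_right _ _
    have h2 : ∫ x, max (θ' x - q) 0 ∂ν' - ∫ x, max (θ' x - a) 0 ∂ν' ≤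
        (a - q) * ν'.real {x | q ≤ θ' x} := by
      rw [← integral_sub (i2 q) (i2 a), mul_comm, ← smul_eq_mul, ← setIntegral_const,
        ← integral_indicator mS']
      refine integral_mono ((i2 q).sub (i2 a)) ((integrable_const _).indicator mS') fun x => ?_
      simp only [Pi.sub_apply]
      by_cases hx : q ≤ θ' x
      · rw [indicator_of_mem (show x ∈ {x | q ≤ θ' x} from hx), max_eq_left (by linarith)]
        have := le_max_left (θ' x - a) 0
        linarith
      · rw [indicator_of_notMem (show x ∉ {x | q ≤ θ' x} from hx),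
          max_eq_right (show θ' x - q ≤ 0 by linarith),
          max_eq_right (show θ' x - a ≤ 0 by linarith)]
        simp
    rw [← h q, ← h a] at h2
    have h3 : ν.real {x | a ≤ θ x} ≤ ν'.real {x | q ≤ θ' x} :=
      le_of_mul_le_mul_left (h1.trans h2) (by linarith)
    exact (ENNReal.toReal_le_toReal (measure_ne_top _ _) (measure_ne_top _ _)).1 h3
  have h1 : {x | a ≤ θ' x} = ⋂ n : ℕ, {x | a - 1 / ((n : ℝ) + 1) ≤ θ' x} := by
    ext x
    simp only [mem_ofPred_eq, mem_iInter]
    constructor
    · intro hx n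
      have : (0 : ℝ) < 1 / ((n : ℝ) + 1) := by positivity
      linarith
    · intro hx
      by_contra hc
      push Not at hc
      obtain ⟨n, hn⟩ := exists_nat_one_div_lt (sub_pos.2 hc)
      have := hx n
      linarith
  rw [h1]
  refine ge_of_tendsto' (tendsto_measure_iInter_atTop
    (fun n => (measurableSet_le measurable_const mθ').nullMeasurableSet) ?_
    ⟨0, measure_ne_top _ _⟩) fun n => key _ ?_
  · intro m n hmn x hx
    simp only [mem_ofPred_eq] at hx ⊢
    have : 1 / ((n : ℝ) + 1) ≤ 1 / ((m : ℝ) + 1) := Nat.one_div_le_one_div hmn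
    linarith
  · have : (0 : ℝ) < 1 / ((n : ℝ) + 1) := by positivity
    linarith

theorem rigid [IsFiniteMeasure ν] [IsFiniteMeasure ν'] (φ : Sp α ν ≃ᵢ Sp α ν')
    (hm : ν.real univ = ν'.real univ) :
    ∃ g : Sp α ν', ν.map (fun x => ‖x‖) = ν'.map (fun x => ‖x + g.val x • α‖) := by
  have hc : ∀ k : ℤ, Integrable (fun _ : T => k) ν := fun k => integrable_const k
  have e : ∀ k : ℤ, (mk' α _ (hc k)).val =ᵐ[ν] fun _ => k := fun k => mk'_ae _ _
  have hF : Frame α ν (mk' α _ (hc 0)) (mk' α _ (hc (0 + 1))) (mk' α _ (hc (0 - 1))) := by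
    refine ⟨?_, ?_, ?_⟩
    · filter_upwards [e 0, e (0 + 1)] with x h1 h2
      rw [h1, h2, D_succ]
    · filter_upwards [e 0, e (0 - 1)] with x h1 h2
      rw [h1, h2, D_pred]
    · filter_upwards [e 0, e (0 + 1), e (0 - 1)] with x h0 h1 h2
      rw [h0, h1, h2, D_two]
  set g0 := mk' α _ (hc 0) with hg0
  refine ⟨φ g0, ?_⟩
  have h0 : ν.map (fun x => ‖x‖) = ν.map (fun x => ‖x + g0.val x • α‖) := by
    refine Measure.map_congr ?_
    filter_upwards [e 0] with x hx
    rw [hx]
    simp
  rw [h0]
  have m1 := measurable_theta (α := α) g0.meas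
  have m2 := measurable_theta (α := α) (φ g0).meas
  have i1 := integrable_theta (α := α) (ν := ν) g0.meas
  have i2 := integrable_theta (α := α) (ν := ν') (φ g0).meas
  have h1 : ∀ q, ∫ x, max (‖x + g0.val x • α‖ - q) 0 ∂ν =
      ∫ x, max (‖x + (φ g0).val x • α‖ - q) 0 ∂ν' := by
    intro q
    refine le_antisymm (excess_le m1 i1 i2 (fun S mS => hF.transfer φ hm mS) q)
      (excess_le m2 i2 i1 (fun S mS => ?_) q)
    have := (hF.map φ hm).transfer φ.symm hm.symm mS
    simpa using this
  refine Measure.ext_of_Ici _ _ fun a => ?_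
  rw [Measure.map_apply m1 measurableSet_Ici, Measure.map_apply m2 measurableSet_Ici]
  exact le_antisymm (tail_le m1 m2 i1 i2 h1 a) (tail_le m2 m1 i2 i1 (fun q => (h1 q).symm) a)

lemma sym_ext {m1 m2 : Measure T} [IsFiniteMeasure m1]
    (h1 : m1.map (fun x => -x) = m1) (h2 : m2.map (fun x => -x) = m2)
    (h : m1.map (fun x => ‖x‖) = m2.map (fun x => ‖x‖)) : m1 = m2 := by
  ext S mS
  set U : ℝ → ENNReal := fun r => S.indicator 1 (r : T) + S.indicator 1 (-(r : T)) with hU
  have mc : Measurable (fun r : ℝ => (r : T)) := (AddCircle.continuous_mk' 1).measurable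
  have mU : Measurable U :=
    ((measurable_one.indicator mS).comp mc).add ((measurable_one.indicator mS).comp mc.neg)
  have key : ∀ m : Measure T, m.map (fun x => -x) = m →
      ∫⁻ r, U r ∂(m.map (fun x => ‖x‖)) = 2 * m S := by
    intro m hm
    rw [lintegral_map mU measurable_norm]
    have h3 : ∀ w : T, U ‖w‖ = S.indicator 1 w + S.indicator 1 (-w) := by
      intro w
      rcases coe_norm w with h | h
      · simp only [hU, h]
      · simp only [hU, h, neg_neg, add_comm]
    simp_rw [h3]
    rw [lintegral_add_left (measurable_one.indicator mS),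
      ← lintegral_map (measurable_one.indicator mS) measurable_neg, hm, lintegral_indicator_one mS,
      two_mul]
  have h3 := key m1 h1
  rw [h, key m2 h2] at h3
  exact ((ENNReal.mul_right_inj (by norm_num) (by norm_num)).1 h3).symm

lemma Dom.mass {c : ℤ} {Ω : Set T} (h : Dom α c ν Ω) : ν.real univ = 1 / 2 := by
  have := h.finite
  have h1 := h.integral (integrable_const (1 : ℝ))
  simp only [integral_const, smul_eq_mul, mul_one] at h1
  have h2 : (volume : Measure T).real univ = 1 := by simp [Measure.real]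
  linarith

theorem not_isometric (hα : addOrderOf α = 0) {Ω Ω' : Set T} (h : Dom α 0 ν Ω)
    (h' : Dom α 1 ν' Ω') : IsEmpty (Sp α ν ≃ᵢ Sp α ν') := by
  have := h.finite
  have := h'.finite
  refine ⟨fun φ => ?_⟩
  obtain ⟨g, hg⟩ := rigid φ (h.mass.trans h'.mass.symm)
  obtain ⟨j, mj, ij, h1, h2⟩ := h'.glue g.int g.int g.meas g.meas
  have hs : ∀ᵐ z, j (-z - (1 : ℤ) • α) = 1 - j z := by
    rw [h'.ae_iff]
    constructor
    · filter_upwards [h1, h2] with x h1 h2
      omega
    · filter_upwards [h1, h2] with x h1 h2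
      have : -(-x - (1 : ℤ) • α) - (1 : ℤ) • α = x := by abel
      rw [this]
      omega
  have mψ : Measurable (fun z : T => z + j z • α) :=
    measurable_id.add ((measurable_of_countable (fun n : ℤ => n • α)).comp mj)
  have hψ : ∀ᵐ z : T, (-z - (1 : ℤ) • α) + j (-z - (1 : ℤ) • α) • α = -(z + j z • α) := by
    filter_upwards [hs] with z hz
    rw [hz, sub_smul]
    abel
  have hmp : MeasurePreserving (fun x : T => -x - (1 : ℤ) • α) volume volume :=
    (measurePreserving_sub_right volume ((1 : ℤ) • α)).comp (Measure.measurePreserving_neg volume)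
  refine no_flux α hα j mj ij (by simpa using hs) (sym_ext ?_ ?_ ?_)
  · rw [Measure.map_map measurable_neg mψ]
    conv_rhs => rw [← hmp.map_eq, Measure.map_map mψ hmp.measurable]
    refine Measure.map_congr ?_
    filter_upwards [hψ] with z hz
    exact hz.symm
  · exact (Measure.measurePreserving_neg volume).map_eq
  · rw [Measure.map_map measurable_norm mψ]
    conv_lhs => rw [h'.split]
    conv_rhs => rw [h.split]
    rw [Measure.map_add _ _ (measurable_norm.comp mψ), Measure.map_add _ _ measurable_norm,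
      Measure.map_map (measurable_norm.comp mψ) (refl_emb _).measurable,
      Measure.map_map measurable_norm (refl_emb _).measurable]
    congr 1
    · rw [hg]
      refine Measure.map_congr ?_
      filter_upwards [h1] with x hx
      simp [hx]
    · have h3 : (fun x : T => ‖x‖) ∘ (fun x : T => -x - (0 : ℤ) • α) = fun x => ‖x‖ := by
        funext x
        simp
      rw [h3, hg]
      refine Measure.map_congr ?_
      filter_upwards [h1, (h'.ae_iff.1 hψ).1] with x hx h4
      simp only [Function.comp]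
      rw [h4, norm_neg, hx]

theorem main : ∃ (A B : Type) (_ : MetricSpace A) (_ : MetricSpace B),
    CompleteSpace A ∧ CompleteSpace B ∧
    TopologicalSpace.SeparableSpace A ∧ TopologicalSpace.SeparableSpace B ∧
    Nonempty (WithLp 2 (A × A) ≃ᵢ WithLp 2 (B × B)) ∧ IsEmpty (A ≃ᵢ B) := by
  set α : T := ((√2 : ℝ) : T) with hαd
  have hα : addOrderOf α = 0 := by
    rw [addOrderOf_eq_zero_iff, hαd, AddCircle.isOfFinAddOrder_iff_exists_rat_eq_div]
    rintro ⟨q, hq⟩
    exact irrational_sqrt_two ⟨q, by simpa using hq⟩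
  obtain ⟨ν, Ω, h⟩ := exists_dom (α := α) 0 0 (by simp)
  obtain ⟨ν', Ω', h'⟩ := exists_dom (α := α) 1 ((√2 / 2 : ℝ) : T) (by
    rw [← AddCircle.coe_add, one_smul, hαd]
    congr 1
    ring)
  have := h.finite
  have := h'.finite
  obtain ⟨e⟩ := h.square
  obtain ⟨e'⟩ := h'.square
  exact ⟨Sp α ν, Sp α ν', inferInstance, inferInstance, inferInstance, inferInstance, separable,
    separable, ⟨e.symm.trans e'⟩, not_isometric hα h h'⟩

end Pool.Agent.H31Z.Sq
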