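import Pool.Agent.H31Z.Flux

/-!
Spaces of integrable integer valued sections over the circle with the square root of an
integrated fibre metric.
-/

set_option autoImplicit false

namespace Pool.Agent.H31Z.Sq

open MeasureTheory Set Flux Filter Topology

/-- the fibre metric on `ℤ` over the point `x` -/
noncomputable def D (α x : T) (n m : ℤ) : ℝ :=
  if n = m then 0 else
    ((|n - m| + 1 : ℤ) : ℝ) + if |n - m| = 2 then ‖x + ((n + m) / 2) • α‖ else 0

lemma norm_le_half (x : T) : ‖x‖ ≤ 1 / 2 := by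
  simpa using AddCircle.norm_le_half_period 1 (x := x) one_ne_zero

variable {α : T}

lemma D_self (x : T) (n : ℤ) : D α x n n = 0 := by simp [D]

lemma D_comm (x : T) (n m : ℤ) : D α x n m = D α x m n := by
  unfold D
  rw [abs_sub_comm, add_comm n m]
  by_cases h : n = m
  · simp [h]
  · rw [if_neg h, if_neg (Ne.symm h)]

lemma D_ge {x : T} {n m : ℤ} (h : n ≠ m) : ((|n - m| + 1 : ℤ) : ℝ) ≤ D α x n m := by
  unfold D
  rw [if_neg h]
  split_ifs
  · have := norm_nonneg (x + ((n + m) / 2) • α); linarith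
  · simp

lemma D_le {x : T} {n m : ℤ} (h : n ≠ m) : D α x n m ≤ ((|n - m| + 1 : ℤ) : ℝ) + 1 / 2 := by
  unfold D
  rw [if_neg h]
  split_ifs
  · have := norm_le_half (x + ((n + m) / 2) • α); linarith
  · simp

lemma two_le_D {x : T} {n m : ℤ} (h : n ≠ m) : 2 ≤ D α x n m := by
  refine le_trans ?_ (D_ge h)
  have : 0 < |n - m| := abs_pos.2 (sub_ne_zero.2 h)
  have : (2 : ℤ) ≤ |n - m| + 1 := by omega
  exact_mod_cast this

lemma dist_le_D (x : T) (n m : ℤ) : dist n m ≤ D α x n m := by
  by_cases h : n = m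
  · simp [h, D_self]
  · refine le_trans ?_ (D_ge h)
    rw [Int.dist_eq]
    push_cast
    linarith

lemma D_nonneg (x : T) (n m : ℤ) : 0 ≤ D α x n m := dist_nonneg.trans (dist_le_D x n m)

lemma D_le_dist (x : T) (n m : ℤ) : D α x n m ≤ 3 * dist n m := by
  by_cases h : n = m
  · simp [h, D_self]
  · refine le_trans (D_le h) ?_
    rw [Int.dist_eq]
    have : 0 < |n - m| := abs_pos.2 (sub_ne_zero.2 h)
    have h1 : (1 : ℤ) ≤ |n - m| := by omega
    have h2 : (1 : ℝ) ≤ |(n : ℝ) - m| := by exact_mod_cast h1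
    push_cast
    linarith

lemma D_strict {x : T} {n m l : ℤ} (h1 : m ≠ n) (h2 : m ≠ l) :
    D α x n l < D α x n m + D α x m l := by
  have h3 := D_ge (α := α) (x := x) h1.symm
  have h4 := D_ge (α := α) (x := x) h2
  have h5 : |n - l| ≤ |n - m| + |m - l| := abs_sub_le n m l
  have h6 : ((|n - l| : ℤ) : ℝ) ≤ (|n - m| : ℤ) + (|m - l| : ℤ) := by exact_mod_cast h5
  have h7 : (0 : ℝ) ≤ (|n - l| : ℤ) := by exact_mod_cast abs_nonneg _
  by_cases h : n = l
  · rw [h, D_self]
    have := two_le_D (α := α) (x := x) h2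
    have := D_nonneg (α := α) x l m
    linarith
  · have h8 := D_le (α := α) (x := x) h
    simp only [Int.cast_add, Int.cast_one] at h3 h4 h8
    linarith

lemma D_triangle (x : T) (n m l : ℤ) : D α x n l ≤ D α x n m + D α x m l := by
  by_cases h1 : m = n
  · simp [h1, D_self]
  · by_cases h2 : m = l
    · simp [h2, D_self]
    · exact (D_strict h1 h2).le

lemma D_refl (c : ℤ) (x : T) (n m : ℤ) : D α (-x - c • α) (c - n) (c - m) = D α x n m := by
  unfold D
  have h1 : c - n = c - m ↔ n = m := by omega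
  have h2 : |c - n - (c - m)| = |n - m| := by
    rw [abs_sub_comm]
    congr 1
    ring
  simp only [h1, h2]
  split_ifs with h3 h4
  · rfl
  · have h5 : (c - n + (c - m)) / 2 = c - (n + m) / 2 := by
      rcases abs_eq (by norm_num : (0 : ℤ) ≤ 2) |>.1 h4 with h | h <;> omega
    rw [h5, sub_smul, ← norm_neg]
    congr 2
    abel
  · rfl

lemma D_eq_two {x : T} {n m : ℤ} (h : D α x n m = 2) : m = n + 1 ∨ m = n - 1 := by
  have h1 : n ≠ m := by
    rintro rfl
    rw [D_self] at h
    norm_num at h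
  have h2 := D_ge (α := α) (x := x) h1
  rw [h] at h2
  have h3 : |n - m| + 1 ≤ 2 := by exact_mod_cast h2
  have h4 := abs_le.1 (show |n - m| ≤ 1 by omega)
  omega

lemma D_succ (x : T) (n : ℤ) : D α x n (n + 1) = 2 := by
  unfold D
  norm_num

lemma D_pred (x : T) (n : ℤ) : D α x n (n - 1) = 2 := by
  have h : n ≠ n - 1 := by omega
  unfold D
  norm_num [h]

lemma D_two (x : T) (n : ℤ) : D α x (n + 1) (n - 1) = 3 + ‖x + n • α‖ := by
  have h : n + 1 ≠ n - 1 := by omega
  have h2 : (n + 1 + (n - 1)) / 2 = n := by omega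
  unfold D
  rw [if_neg h, h2]
  norm_num

lemma measurable_D {f g : T → ℤ} (hf : Measurable f) (hg : Measurable g) :
    Measurable (fun x => D α x (f x) (g x)) := by
  have h : Measurable (fun p : T × (ℤ × ℤ) => D α p.1 p.2.1 p.2.2) := by
    refine measurable_from_prod_countable_left fun y => ?_
    simp only [D]
    split_ifs
    · exact measurable_const
    · exact measurable_const.add (measurable_add_const _).norm
    · exact measurable_const
  exact h.comp (measurable_id.prodMk (hf.prodMk hg))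

lemma integrable_D {ν : Measure T} {f g : T → ℤ} (hf : Integrable f ν) (hg : Integrable g ν) :
    Integrable (fun x => D α x (f x) (g x)) ν := by
  have h1 : AEStronglyMeasurable (fun x => D α x (f x) (g x)) ν := by
    refine (measurable_D (α := α) hf.1.measurable_mk hg.1.measurable_mk).aestronglyMeasurable.congr
      ?_
    filter_upwards [hf.1.ae_eq_mk, hg.1.ae_eq_mk] with x h1 h2
    rw [← h1, ← h2]
  refine Integrable.mono' ((hf.sub hg).norm.const_mul 3) h1 (Eventually.of_forall fun x => ?_)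
  rw [Real.norm_of_nonneg (D_nonneg _ _ _), Pi.sub_apply, ← dist_eq_norm]
  exact D_le_dist _ _ _

/-- the integrated fibre metric -/
noncomputable def rho (α : T) (ν : Measure T) (f g : T → ℤ) : ℝ := ∫ x, D α x (f x) (g x) ∂ν

lemma rho_congr {ν : Measure T} {f g f' g' : T → ℤ} (hf : f =ᵐ[ν] f') (hg : g =ᵐ[ν] g') :
    rho α ν f g = rho α ν f' g' := by
  refine integral_congr_ae ?_
  filter_upwards [hf, hg] with x h1 h2
  rw [h1, h2]

lemma rho_nonneg (ν : Measure T) (f g : T → ℤ) : 0 ≤ rho α ν f g :=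
  integral_nonneg fun _ => D_nonneg _ _ _

/-- the space of integrable sections -/
@[ext]
structure Sp (α : T) (ν : Measure T) where
  /-- the underlying class -/
  val : Lp ℤ 1 ν

variable {ν : Measure T}

lemma Sp.int (F : Sp α ν) : Integrable F.val ν := L1.integrable_coeFn F.val

lemma Sp.meas (F : Sp α ν) : Measurable F.val := (Lp.stronglyMeasurable F.val).measurable

lemma Sp.ext_ae {F G : Sp α ν} (h : F.val =ᵐ[ν] G.val) : F = G := Sp.ext (Lp.ext h)

lemma dist_le_rho (F G : Sp α ν) : dist F.val G.val ≤ rho α ν F.val G.val := by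
  rw [L1.dist_eq_integral_dist]
  exact integral_mono_of_nonneg (Eventually.of_forall fun _ => dist_nonneg)
    (integrable_D F.int G.int) (Eventually.of_forall fun x => dist_le_D _ _ _)

lemma rho_le_dist (F G : Sp α ν) : rho α ν F.val G.val ≤ 3 * dist F.val G.val := by
  rw [L1.dist_eq_integral_dist, ← integral_const_mul]
  refine integral_mono_of_nonneg (Eventually.of_forall fun _ => D_nonneg _ _ _) ?_
    (Eventually.of_forall fun x => D_le_dist _ _ _)
  simp_rw [dist_eq_norm]
  exact (F.int.sub G.int).norm.const_mul 3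

lemma rho_triangle (F G H : Sp α ν) :
    rho α ν F.val H.val ≤ rho α ν F.val G.val + rho α ν G.val H.val := by
  unfold rho
  rw [← integral_add (integrable_D F.int G.int) (integrable_D G.int H.int)]
  exact integral_mono (integrable_D F.int H.int)
    ((integrable_D F.int G.int).add (integrable_D G.int H.int)) fun x => D_triangle _ _ _ _

noncomputable instance : MetricSpace (Sp α ν) where
  dist F G := √(rho α ν F.val G.val)
  dist_self F := by simp [rho, D_self]
  dist_comm F G := by simp only [rho, D_comm]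
  dist_triangle F G H := by
    have h1 := rho_nonneg (α := α) ν F.val G.val
    have h2 := rho_nonneg (α := α) ν G.val H.val
    have h3 := rho_triangle F G H
    rw [Real.sqrt_le_left (by positivity), add_sq, Real.sq_sqrt h1, Real.sq_sqrt h2]
    have : 0 ≤ 2 * √(rho α ν F.val G.val) * √(rho α ν G.val H.val) := by positivity
    linarith
  eq_of_dist_eq_zero := by
    intro F G h
    have h1 := (Real.sqrt_eq_zero (rho_nonneg ν _ _)).1 h
    have h2 := dist_le_rho F G
    rw [h1] at h2
    exact Sp.ext (dist_le_zero.1 h2)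

lemma dist_def (F G : Sp α ν) : dist F G = √(rho α ν F.val G.val) := rfl

lemma dist_sq (F G : Sp α ν) : dist F G ^ 2 = rho α ν F.val G.val :=
  Real.sq_sqrt (rho_nonneg ν _ _)

lemma uc_val : UniformContinuous (Sp.val : Sp α ν → Lp ℤ 1 ν) := by
  rw [Metric.uniformContinuous_iff]
  intro ε hε
  refine ⟨√ε, Real.sqrt_pos.2 hε, fun F G h => ?_⟩
  rw [dist_def] at h
  exact lt_of_le_of_lt (dist_le_rho F G) (Real.lt_sqrt_of_sq_lt (by
    rw [← dist_def, dist_sq] at *
    exact (Real.sqrt_lt_sqrt_iff (rho_nonneg ν _ _)).1 h) |> fun _ =>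
      (Real.sqrt_lt_sqrt_iff (rho_nonneg ν _ _)).1 h)

lemma uc_mk : UniformContinuous (Sp.mk : Lp ℤ 1 ν → Sp α ν) := by
  rw [Metric.uniformContinuous_iff]
  intro ε hε
  refine ⟨ε ^ 2 / 3, by positivity, fun F G h => ?_⟩
  rw [dist_def, Real.sqrt_lt' hε]
  have := rho_le_dist (α := α) ⟨F⟩ ⟨G⟩
  simp only at this ⊢
  linarith

instance : CompleteSpace (Sp α ν) := by
  refine Metric.complete_of_cauchySeq_tendsto fun u hu => ?_
  obtain ⟨G, hG⟩ := cauchySeq_tendsto_of_complete (uc_val.comp_cauchySeq hu)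
  exact ⟨⟨G⟩, (uc_mk.continuous.tendsto G).comp hG⟩

lemma separable [IsFiniteMeasure ν] : TopologicalSpace.SeparableSpace (Sp α ν) := by
  have : MeasureTheory.IsSeparable ν := instIsSeparableOfCountablyGeneratedOfSFinite ν
  have : Fact ((1 : ENNReal) ≠ ⊤) := ⟨by simp⟩
  have : SecondCountableTopology (Lp ℤ 1 ν) := Lp.SecondCountableTopology
  have hs : Function.Surjective (Sp.mk : Lp ℤ 1 ν → Sp α ν) := fun F => ⟨F.val, rfl⟩
  exact hs.denseRange.separableSpace uc_mk.continuous

/-- the class of an integrable function -/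
noncomputable def mk' (α : T) (f : T → ℤ) (hf : Integrable f ν) : Sp α ν := ⟨hf.toL1 f⟩

lemma mk'_ae (f : T → ℤ) (hf : Integrable f ν) : (mk' α f hf).val =ᵐ[ν] f := hf.coeFn_toL1

/-- `ν` is the restriction of the Haar measure to a fundamental domain `Ω` of the reflection
`x ↦ -x - c • α`. -/
structure Dom (α : T) (c : ℤ) (ν : Measure T) (Ω : Set T) : Prop where
  meas : MeasurableSet Ω
  split : (volume : Measure T) = ν + ν.map (fun x => -x - c • α)
  mem : ∀ᵐ x ∂ν, x ∈ Ω
  nmem : ∀ᵐ x ∂ν, -x - c • α ∉ Ω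

lemma refl_emb (β : T) : MeasurableEmbedding (fun x : T => -x - β) :=
  ((Homeomorph.neg T).trans (Homeomorph.subRight β)).measurableEmbedding

lemma Dom.integrable_iff {c : ℤ} {Ω : Set T} (h : Dom α c ν Ω) {E : Type} [NormedAddCommGroup E]
    {f : T → E} : Integrable f volume ↔ Integrable f ν ∧ Integrable (fun x => f (-x - c • α)) ν := by
  rw [h.split, integrable_add_measure, (refl_emb _).integrable_map_iff]
  rfl

lemma Dom.integral {c : ℤ} {Ω : Set T} (h : Dom α c ν Ω) {f : T → ℝ} (hf : Integrable f volume) :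
    ∫ x, f x = ∫ x, f x ∂ν + ∫ x, f (-x - c • α) ∂ν := by
  have h1 := hf
  rw [h.split, integrable_add_measure] at h1
  conv_lhs => rw [h.split]
  rw [integral_add_measure h1.1 h1.2, (refl_emb _).integral_map]

lemma Dom.ae_iff {c : ℤ} {Ω : Set T} (h : Dom α c ν Ω) {p : T → Prop} :
    (∀ᵐ x, p x) ↔ (∀ᵐ x ∂ν, p x) ∧ ∀ᵐ x ∂ν, p (-x - c • α) := by
  conv_lhs => rw [h.split]
  rw [ae_add_measure_iff, (refl_emb _).ae_map_iff]

lemma Dom.finite {c : ℤ} {Ω : Set T} (h : Dom α c ν Ω) : IsFiniteMeasure ν := by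
  refine isFiniteMeasure_of_le (volume : Measure T) ?_
  rw [h.split]
  exact Measure.le_add_right le_rfl

lemma Dom.glue {c : ℤ} {Ω : Set T} (h : Dom α c ν Ω) {f g : T → ℤ} (hf : Integrable f ν)
    (hg : Integrable g ν) (mf : Measurable f) (mg : Measurable g) :
    ∃ j : T → ℤ, Measurable j ∧ Integrable j volume ∧ j =ᵐ[ν] f ∧
      (fun x => c - j (-x - c • α)) =ᵐ[ν] g := by
  classical
  have := h.finite
  have h1 : Ω.piecewise f (fun x => c - g (-x - c • α)) =ᵐ[ν] f := by
    filter_upwards [h.mem] with x hx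
    simp [hx]
  have h2 : ∀ᵐ x ∂ν, Ω.piecewise f (fun x => c - g (-x - c • α)) (-x - c • α) = c - g x := by
    filter_upwards [h.nmem] with x hx
    simp [hx]
  refine ⟨Ω.piecewise f (fun x => c - g (-x - c • α)), ?_, ?_, h1, ?_⟩
  · exact Measurable.piecewise h.meas mf
      (measurable_const.sub (mg.comp (refl_emb _).measurable))
  · rw [h.integrable_iff]
    exact ⟨hf.congr h1.symm, ((integrable_const c).sub hg).congr (Eventually.mono h2 fun x hx =>
      hx.symm)⟩
  · filter_upwards [h2] with x hx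
    simp [hx]

lemma Dom.square {c : ℤ} {Ω : Set T} (h : Dom α c ν Ω) :
    Nonempty (Sp α volume ≃ᵢ WithLp 2 (Sp α ν × Sp α ν)) := by
  have := h.finite
  have i1 : ∀ F : Sp α volume, Integrable F.val ν := fun F => (h.integrable_iff.1 F.int).1
  have i2 : ∀ F : Sp α volume, Integrable (fun x => c - F.val (-x - c • α)) ν :=
    fun F => (integrable_const c).sub (h.integrable_iff.1 F.int).2
  set u : Sp α volume → WithLp 2 (Sp α ν × Sp α ν) :=
    fun F => WithLp.toLp 2 (mk' α _ (i1 F), mk' α _ (i2 F)) with hu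
  have hiso : Isometry u := by
    refine Isometry.of_dist_eq fun F G => ?_
    rw [WithLp.prod_dist_eq_add (by norm_num)]
    simp only [hu, WithLp.toLp_fst, WithLp.toLp_snd, ENNReal.toReal_ofNat, Real.rpow_two]
    rw [dist_sq, dist_sq, rho_congr (mk'_ae _ _) (mk'_ae _ _), rho_congr (mk'_ae _ _) (mk'_ae _ _),
      dist_def, Real.sqrt_eq_rpow]
    congr 1
    unfold rho
    rw [h.integral (integrable_D F.int G.int)]
    congr 1
    refine integral_congr_ae (Eventually.of_forall fun x => ?_)
    have := D_refl (α := α) c (-x - c • α) (F.val (-x - c • α)) (G.val (-x - c • α))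
    simpa using this
  have hsurj : Function.Surjective u := by
    intro p
    obtain ⟨j, -, hj, h1, h2⟩ := h.glue p.fst.int p.snd.int p.fst.meas p.snd.meas
    refine ⟨mk' α j hj, ?_⟩
    have h3 := h.ae_iff.1 (mk'_ae (α := α) j hj)
    have h4 : mk' α _ (i1 (mk' α j hj)) = p.fst :=
      Sp.ext_ae ((mk'_ae _ _).trans (EventuallyEq.trans h3.1 h1))
    have h5 : mk' α _ (i2 (mk' α j hj)) = p.snd := by
      refine Sp.ext_ae ((mk'_ae _ _).trans (EventuallyEq.trans ?_ h2))
      filter_upwards [h3.2] with x hx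
      rw [hx]
    simp only [hu, h4, h5]
    rfl
  exact ⟨⟨Equiv.ofBijective u ⟨hiso.injective, hsurj⟩, hiso⟩⟩

lemma coe_norm (w : T) : ((‖w‖ : ℝ) : T) = w ∨ ((‖w‖ : ℝ) : T) = -w := by
  induction w using QuotientAddGroup.induction_on with
  | H x =>
    have h1 : ((x - round x : ℝ) : T) = (x : T) := by
      rw [AddCircle.coe_sub]
      have : (((round x : ℤ) : ℝ) : T) = 0 := by
        rw [AddCircle.coe_eq_zero_iff]
        exact ⟨round x, by simp⟩
      rw [this, sub_zero]
    have h2 : ‖(x : T)‖ = |x - round x| := by simpa using AddCircle.norm_eq 1 (x := x)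
    rw [h2]
    rcases abs_choice (x - round x) with h | h
    · left; rw [h, h1]
    · right; rw [h, AddCircle.coe_neg, h1]

lemma volume_singleton (w : T) : volume ({w} : Set T) = 0 := by
  have : Nontrivial T := by
    refine ⟨⟨((1 / 2 : ℝ) : T), 0, fun h => ?_⟩⟩
    have h2 := AddCircle.norm_half_period_eq (p := (1 : ℝ))
    rw [h] at h2
    norm_num at h2
  exact measure_singleton w

lemma exists_dom (c : ℤ) (β : T) (hβ : β + β = c • α) : ∃ ν Ω, Dom α c ν Ω := by
  set Ω : Set T := {w | ((‖w + β‖ : ℝ) : T) = w + β} with hΩ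
  set r : T → T := fun x => -x - c • α with hr
  have hrr : ∀ x, r (r x) = x := by intro x; simp [hr]
  have hrβ : ∀ x, r x + β = -(x + β) := by
    intro x
    simp only [hr, ← hβ]
    abel
  have mΩ : MeasurableSet Ω := by
    refine (isClosed_eq ?_ ?_).measurableSet
    · exact (AddCircle.continuous_mk' 1).comp (by fun_prop)
    · fun_prop
  have hmp : MeasurePreserving r volume volume :=
    (measurePreserving_sub_right volume (c • α)).comp (Measure.measurePreserving_neg volume)
  have hnull : ∀ᵐ x, ¬ (x ∈ Ω ∧ r x ∈ Ω) := by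
    have h1 : {u : T | 2 • u = 0}.Finite := AddCircle.finite_torsion 1 two_pos
    have h2 : volume {u : T | 2 • u = 0} = 0 := by
      rw [← Set.biUnion_of_singleton {u : T | 2 • u = 0}, measure_biUnion_null_iff h1.countable]
      exact fun w _ => volume_singleton w
    have h3 : ∀ᵐ u : T, ¬ (2 • u = 0) := by
      rw [ae_iff]
      simpa using h2
    filter_upwards [ae_shift β _ h3] with x hx
    rintro ⟨h4, h5⟩
    apply hx
    simp only [hΩ, Set.mem_ofPred_eq, hrβ, norm_neg] at h4 h5
    rw [two_smul]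
    nth_rewrite 1 [← h4]
    rw [h5]
    abel
  have hcov : ∀ x, x ∈ Ω ∨ r x ∈ Ω := by
    intro x
    simp only [hΩ, Set.mem_ofPred_eq, hrβ, norm_neg]
    exact coe_norm _
  have hc : r ⁻¹' Ω =ᵐ[volume] (Ωᶜ : Set T) := by
    filter_upwards [hnull] with x hx
    apply propext
    change r x ∈ Ω ↔ x ∉ Ω
    have := hcov x
    tauto
  refine ⟨volume.restrict Ω, Ω, mΩ, ?_, ae_restrict_mem mΩ, ?_⟩
  · have h1 := (hmp.restrict_preimage (hmp.measurable mΩ)).map_eq
    have h2 : r ⁻¹' (r ⁻¹' Ω) = Ω := by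
      ext x
      simp [hrr]
    rw [h2] at h1
    rw [h1, Measure.restrict_congr_set hc, Measure.restrict_add_restrict_compl mΩ]
  · filter_upwards [ae_restrict_mem mΩ, ae_restrict_of_ae hnull] with x h1 h2 h3
    exact h2 ⟨h1, h3⟩

end Pool.Agent.H31Z.Sq
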